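import Pool.Agent.N181.TF.Fld
import Pool.Agent.TH115.ID.Main

/-!
The characters which are unramified outside the bad places and invariant come from the base.
-/

set_option autoImplicit false
set_option linter.all false

open Polynomial IsDedekindDomain
open scoped Classical

namespace Pool.Agent.N181.TF

open Pool.Agent.TH115.GD

section glob

variable {k k' K F Ω : Type} [Field k] [Field k'] [Algebra k k'] [IsSepClosure k k']
  [Field K] [Algebra k[X] K] [IsFractionRing k[X] K] [Field F] [Algebra k'[X] F]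
  [IsFractionRing k'[X] F] [Algebra K F]
  (hKF : ∀ p : k[X], algebraMap K F (algebraMap k[X] K p) =
    algebraMap k'[X] F (p.map (algebraMap k k')))
  (h2 : (2 : k) ≠ 0) {p : k[X]} (hp : p ≠ 0)
  (hsep : ∀ π : k[X], Irreducible π → π ∣ p → π.Separable)

variable [Field Ω] [Algebra F Ω] [Algebra K Ω] [IsScalarTower K F Ω] [IsSepClosure F Ω]

include hKF h2 hp hsep in
theorem global0 {a0 : F} (n0 : a0 ≠ 0)
    (hloc : ∀ v : HeightOneSpectrum k'[X], p.map (algebraMap k k') ∉ v.asIdeal → par v a0 = 0)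
    (hfix : ∀ τ : Ω ≃ₐ[K] Ω, ∃ u : F, u ≠ 0 ∧
      τ (algebraMap F Ω a0) = algebraMap F Ω (u ^ 2 * a0)) :
    ∃ A : k[X], A.Monic ∧ Squarefree A ∧ A ∣ p ∧ ∃ c : F, c ≠ 0 ∧
      a0 = c ^ 2 * algebraMap K F (algebraMap k[X] K A) := by
  haveI : IsSepClosed k' := IsSepClosure.sep_closed k
  haveI : IsGalois k k' := inferInstance
  have injk := (algebraMap k k').injective
  set pp := p.map (algebraMap k k') with hpp
  have hpp0 : pp ≠ 0 := (Polynomial.map_ne_zero_iff injk).2 hp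
  have hsplit : pp.Splits := splits_of_sep hp hsep
  have h2' : (2 : k') ≠ 0 := by
    rw [← map_ofNat (algebraMap k k') 2]
    exact (_root_.map_ne_zero _).2 h2
  have key : ∀ (s : k' ≃ₐ[k] k') θ, par (pl (s θ)) a0 = par (pl θ) a0 := by
    intro s θ
    obtain ⟨τ, hτ⟩ := lift (Ω := Ω) hKF s
    obtain ⟨u, hu, e⟩ := hfix τ
    rw [← par_galois τ s hτ n0 e θ, par_sq _ hu n0]
  set Z : Finset k' := pp.roots.toFinset with hZ
  have hZmem : ∀ θ, θ ∈ Z ↔ pp.IsRoot θ := by
    intro θ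
    rw [hZ, Multiset.mem_toFinset, mem_roots hpp0]
  obtain ⟨c, hc, r⟩ := rep h2' n0 Z (fun v hv => hloc v fun hm => by
    obtain ⟨θ, hθ, h4⟩ := exists_root_of_mem hpp0 hsplit hm
    exact hv θ (Multiset.mem_toFinset.2 hθ) h4)
  have isRoot_gal : ∀ (s : k' ≃ₐ[k] k') (θ : k'), pp.IsRoot θ → pp.IsRoot (s θ) := by
    intro s θ h
    rw [IsRoot.def, hpp, eval_map_algebraMap] at h ⊢
    have h5 : aeval (s θ) p = s (aeval θ p) := Polynomial.aeval_algHom_apply s.toAlgHom θ p
    rw [h5, h, map_zero]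
  set DA := Z.filter (fun θ => par (pl θ) a0 = 1) with hDA
  obtain ⟨A, hA1, hA2⟩ := desc (k := k) DA (fun s θ hθ => by
    rw [hDA, Finset.mem_filter] at hθ ⊢
    refine ⟨(hZmem _).2 (isRoot_gal s θ ((hZmem θ).1 hθ.1)), ?_⟩
    rw [key]
    exact hθ.2)
  refine ⟨A, hA1, ?_, ?_, c, hc, ?_⟩
  · apply Separable.squarefree
    rw [← separable_map (algebraMap k k'), hA2, separable_prod_X_sub_C_iff']
    intro x _ y _ h
    exact h
  · rw [← Polynomial.map_dvd_map' (algebraMap k k'), hA2]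
    have := (Multiset.prod_X_sub_C_dvd_iff_le_roots hpp0 DA.val).2 (by
      rw [Multiset.le_iff_subset DA.nodup]
      intro θ hθ
      exact (mem_roots hpp0).2 ((hZmem θ).1 (Finset.mem_filter.1 hθ).1))
    exact this
  · rw [r, hKF, hA2]

end glob

section onept

variable {k : Type} [Field k]

/-- There is exactly one point of the line above each closed point of `D = 0` for the map `s = q(t)`, with
odd ramification index. -/
def OnePt (D q : k[X]) : Prop :=
  ∀ π : k[X], Irreducible π → π ∣ D → ∃ (u : k) (ϖ : k[X]) (e : ℕ), u ≠ 0 ∧ Irreducible ϖ ∧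
    ϖ.Separable ∧ Odd e ∧ π.comp q = C u * ϖ ^ e

theorem irr_of_comp {q ϖ : k[X]} (hϖ : Irreducible ϖ) (D : k[X]) (hD : D ≠ 0)
    (h : ϖ ∣ D.comp q) : ∃ π : k[X], Irreducible π ∧ π ∣ D ∧ ϖ ∣ π.comp q := by
  revert hD h
  refine WfDvdMonoid.induction_on_irreducible D ?_ ?_ ?_
  · intro h
    exact absurd rfl h
  · intro u hu _ h
    obtain ⟨c, hc, rfl⟩ := Polynomial.isUnit_iff.1 hu
    rw [C_comp] at h
    exact absurd (isUnit_of_dvd_unit h (isUnit_C.2 hc)) hϖ.not_isUnit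
  · intro D' π hD' hπ ih _ h
    rw [mul_comp] at h
    rcases hϖ.prime.dvd_or_dvd h with h1 | h1
    · exact ⟨π, hπ, dvd_mul_right _ _, h1⟩
    · obtain ⟨π', h2, h3, h4⟩ := ih hD' h1
      exact ⟨π', h2, h3.mul_left _, h4⟩

theorem exists_A0 {D q : k[X]} (hD : D ≠ 0) (hO : OnePt D q) (A : k[X]) (hA : A ≠ 0)
    (h : A ∣ D.comp q) : ∃ (A₀ h : k[X]) (u : k), u ≠ 0 ∧ h ≠ 0 ∧ A₀.comp q = C u * A * h ^ 2 := by
  revert hA h
  refine WfDvdMonoid.induction_on_irreducible A ?_ ?_ ?_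
  · intro h
    exact absurd rfl h
  · intro u hu _ h
    obtain ⟨c, hc, rfl⟩ := Polynomial.isUnit_iff.1 hu
    refine ⟨1, 1, c⁻¹, inv_ne_zero hc.ne_zero, one_ne_zero, ?_⟩
    rw [one_comp, ← C_mul, inv_mul_cancel₀ hc.ne_zero, C_1]
    ring
  · intro A' ϖ hA' hϖ ih _ h
    obtain ⟨A₀, g, u, hu, hg, e⟩ := ih hA' (dvd_trans (dvd_mul_left _ _) h)
    obtain ⟨π, hπ, hπD, hϖπ⟩ := irr_of_comp hϖ D hD (dvd_trans (dvd_mul_right _ _) h)
    obtain ⟨w, ρ, m, hw, hρ, -, hm, e2⟩ := hO π hπ hπD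
    rw [e2] at hϖπ
    have h1 : ϖ ∣ ρ ^ m := (isUnit_C.2 (isUnit_iff_ne_zero.2 hw)).dvd_mul_left.1 hϖπ
    have h2 := hϖ.prime.dvd_of_dvd_pow h1
    obtain ⟨x, hx⟩ := (hϖ.associated_of_dvd hρ h2)
    obtain ⟨c, hc, hcx⟩ := Polynomial.isUnit_iff.1 x.isUnit
    obtain ⟨j, hj⟩ := hm
    refine ⟨π * A₀, ρ ^ j * g, w * u * c, mul_ne_zero (mul_ne_zero hw hu) hc.ne_zero,
      mul_ne_zero (pow_ne_zero _ hρ.ne_zero) hg, ?_⟩
    rw [mul_comp, e2, e, hj]
    have h3 : ρ = ϖ * C c := by rw [hcx, hx]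
    rw [pow_succ, pow_mul]
    simp only [C_mul]
    conv_lhs => rw [show (ρ ^ 2) ^ j * ρ = (ρ ^ j) ^ 2 * ρ by ring]
    have h4 : (ρ ^ j) ^ 2 * ρ = (ρ ^ j) ^ 2 * (ϖ * C c) := by rw [← h3]
    rw [h4]
    ring

end onept

section integral

variable {k k' K₀ F₀ K F : Type} [Field k] [Field k'] [Algebra k k'] [Field K₀]
    [Algebra k[X] K₀] [Field F₀] [Algebra k'[X] F₀] [Algebra K₀ F₀] [Field K] [Algebra k[X] K]
    [Field F] [Algebra k'[X] F] [Algebra K F] [Algebra K₀ K] [Algebra F₀ F] [Algebra K₀ F]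
    [IsScalarTower K₀ F₀ F] [IsScalarTower K₀ K F] {q : k[X]}

/-- The homomorphism `k[s] → Ω`. -/
noncomputable def ff (k K₀ F : Type) [Field k] [Field K₀] [Algebra k[X] K₀] [Field F]
    [Algebra K₀ F] : k[X] →+* Sep F := (algebraMap K₀ (Sep F)).comp (algebraMap k[X] K₀)

theorem ff_eq (hC : IsCover k k' K₀ F₀ K F q) (p : k[X]) :
    ff k K₀ F p = gg k' F (Sep F) ((p.comp q).map (algebraMap k k')) := by
  show algebraMap K₀ (Sep F) (algebraMap k[X] K₀ p) = algebraMap F (Sep F) _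
  rw [IsScalarTower.algebraMap_apply K₀ F (Sep F), IsScalarTower.algebraMap_apply K₀ K F, hC.mapK,
    hC.top.map]

theorem int_theta [Algebra.IsAlgebraic k k'] (hq : 0 < q.natDegree) (θ : k[X] →+* k'[X])
    (hθ : ∀ p, θ p = (p.comp q).map (algebraMap k k')) (g : k'[X]) : θ.IsIntegralElem g := by
  have hX : θ.IsIntegralElem X := by
    set a := q.leadingCoeff with ha
    have ha0 : a ≠ 0 := leadingCoeff_ne_zero.2 fun h => by
      rw [h, natDegree_zero] at hq
      exact lt_irrefl _ hq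
    set q₁ := q * C a⁻¹ with hq₁
    have hm : q₁.Monic := monic_mul_leadingCoeff_inv (fun h => by
      rw [h, natDegree_zero] at hq
      exact lt_irrefl _ hq)
    have hd : q₁.natDegree = q.natDegree := natDegree_mul_C (inv_ne_zero ha0)
    refine ⟨q₁.map C - C (C a⁻¹ * X), ?_, ?_⟩
    · apply (hm.map C).sub_of_left
      refine lt_of_le_of_lt degree_C_le ?_
      rw [degree_eq_natDegree (hm.map C).ne_zero, natDegree_map_eq_of_injective C_injective, hd]
      exact_mod_cast hq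
    · have h1 : θ.comp C = (C : k' →+* k'[X]).comp (algebraMap k k') := by
        ext c : 1
        show θ (C c) = C (algebraMap k k' c)
        rw [hθ, C_comp, map_C]
      rw [eval₂_sub, eval₂_C, eval₂_map, h1, hθ, mul_comp, C_comp, X_comp]
      have h2 : eval₂ ((C : k' →+* k'[X]).comp (algebraMap k k')) X q₁ =
          q₁.map (algebraMap k k') := by
        rw [← eval₂_map, eval₂_C_X]
      rw [h2, hq₁, mul_comm q, sub_self]
  have hc : ∀ c : k', θ.IsIntegralElem (C c) := by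
    intro c
    have h1 : IsIntegral k c := Algebra.IsIntegral.isIntegral c
    refine ⟨(minpoly k c).map C, (minpoly.monic h1).map C, ?_⟩
    have h2 : θ.comp C = (C : k' →+* k'[X]).comp (algebraMap k k') := by
      ext c : 1
      show θ (C c) = C (algebraMap k k' c)
      rw [hθ, C_comp, map_C]
    rw [eval₂_map, h2, ← Polynomial.hom_eval₂, ← aeval_def, minpoly.aeval, map_zero]
  induction g using Polynomial.induction_on' with
  | add a b ha hb => exact ha.add θ hb
  | monomial n c =>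
    rw [← C_mul_X_pow_eq_monomial]
    refine (hc c).mul θ ?_
    induction n with
    | zero => rw [pow_zero]; exact RingHom.isIntegralElem_one θ
    | succ n ih => rw [pow_succ]; exact ih.mul θ hX

theorem BB_eq (hC : IsCover k k' K₀ F₀ K F q) (hq : 0 < q.natDegree) :
    BB (ff k K₀ F) = BB (gg k' F (Sep F)) := by
  haveI := hC.bot.sep
  haveI : Algebra.IsSeparable k k' := IsSepClosure.separable
  let θ : k[X] →+* k'[X] := (mapRingHom (algebraMap k k')).comp (compRingHom q)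
  have hθ : ∀ p, θ p = (p.comp q).map (algebraMap k k') := fun p => rfl
  have hfg : ff k K₀ F = (gg k' F (Sep F)).comp θ := by
    apply RingHom.ext
    intro p
    exact ff_eq hC p
  ext x
  constructor
  · rintro ⟨p, hp, h⟩
    refine ⟨p.map θ, hp.map θ, ?_⟩
    rw [eval₂_map, ← hfg]
    exact h
  · intro h
    letI : Algebra k[X] k'[X] := θ.toAlgebra
    letI : Algebra k'[X] (Sep F) := (gg k' F (Sep F)).toAlgebra
    letI : Algebra k[X] (Sep F) := (ff k K₀ F).toAlgebra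
    haveI : IsScalarTower k[X] k'[X] (Sep F) := IsScalarTower.of_algebraMap_eq fun p => by
      show ff k K₀ F p = gg k' F (Sep F) (θ p)
      rw [hfg]; rfl
    haveI : Algebra.IsIntegral k[X] k'[X] := ⟨fun g => int_theta hq θ hθ g⟩
    have h1 : IsIntegral k'[X] x := h
    exact isIntegral_trans x h1

end integral

end Pool.Agent.N181.TF
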