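import Pool.Agent.N181.TF.Chr

/-!
Extension of characters.
-/

set_option autoImplicit false
set_option linter.all false

open Polynomial IsDedekindDomain
open scoped Classical

namespace Pool.Agent.N181.TF

open Pool.Agent.TH115.GD

/-- `σ` is in the decomposition group of a nonzero prime ideal `Q` of the ring of the elements which are
integral over `k[s]`, with `D(s) ∉ Q`. -/
def InDec {A Ω : Type} [CommRing A] [CommRing Ω] (f : A →+* Ω) (D : A) (σ : Ω → Ω) : Prop :=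
  ∃ Q : Ideal (BB f), Q.IsPrime ∧ Q ≠ ⊥ ∧ (∀ h : f D ∈ BB f, (⟨f D, h⟩ : BB f) ∉ Q) ∧
    ∀ x y : BB f, (y : Ω) = σ x → (x ∈ Q ↔ y ∈ Q)

theorem z01 (z : ZMod 2) : z = 0 ∨ z = 1 := by revert z; decide

section char

variable {k k' K₀ F₀ K F : Type} [Field k] [Field k'] [Algebra k k'] [Field K₀]
    [Algebra k[X] K₀] [Field F₀] [Algebra k'[X] F₀] [Algebra K₀ F₀] [Field K] [Algebra k[X] K]
    [Field F] [Algebra k'[X] F] [Algebra K F] [Algebra K₀ K] [Algebra F₀ F] [Algebra K₀ F]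
    [IsScalarTower K₀ F₀ F] [IsScalarTower K₀ K F] {q : k[X]}

theorem dec_of {B B' : Subring (Sep F)} (e : B = B') {P : Sep F → Prop} {σ : Sep F → Sep F}
    (h : ∃ Q : Ideal B, Q.IsPrime ∧ Q ≠ ⊥ ∧ (∀ x : B, P x → x ∉ Q) ∧
      ∀ x y : B, (y : Sep F) = σ x → (x ∈ Q ↔ y ∈ Q)) :
    ∃ Q : Ideal B', Q.IsPrime ∧ Q ≠ ⊥ ∧ (∀ x : B', P x → x ∉ Q) ∧
      ∀ x y : B', (y : Sep F) = σ x → (x ∈ Q ↔ y ∈ Q) := by
  subst e
  exact h

theorem inDec_iff {A Ω : Type} [CommRing A] [CommRing Ω] (f : A →+* Ω) (D : A) (σ : Ω → Ω) :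
    InDec f D σ ↔ ∃ Q : Ideal (BB f), Q.IsPrime ∧ Q ≠ ⊥ ∧ (∀ x : BB f, (x : Ω) = f D → x ∉ Q) ∧
      ∀ x y : BB f, (y : Ω) = σ x → (x ∈ Q ↔ y ∈ Q) := by
  constructor
  · rintro ⟨Q, h1, h2, h3, h4⟩
    refine ⟨Q, h1, h2, fun x hx => ?_, h4⟩
    have := h3 (by rw [← hx]; exact x.2)
    have e : x = ⟨f D, by rw [← hx]; exact x.2⟩ := Subtype.ext hx
    rw [e]
    exact this
  · rintro ⟨Q, h1, h2, h3, h4⟩
    exact ⟨Q, h1, h2, fun h => h3 _ rfl, h4⟩

set_option maxHeartbeats 1000000 in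
theorem char_ext (hC : IsCover k k' K₀ F₀ K F q) (h2 : (2 : k) ≠ 0) (hq : derivative q ≠ 0)
    (hn : 0 < q.natDegree) {D : k[X]} (hD : D ≠ 0) (hO : OnePt D q)
    {χ : (Sep F ≃ₐ[F] Sep F) → ZMod 2} (hχ : ∀ σ τ, χ (σ * τ) = χ σ + χ τ)
    (hcont : IsLocallyConstant χ) (hun : ∀ σ : Sep F ≃ₐ[F] Sep F, InDec (ff k K₀ F) D (fun x => σ x) → χ σ = 0)
    (hinv : ∀ (τ : Sep F ≃ₐ[K] Sep F) (σ σ' : Sep F ≃ₐ[F] Sep F),
      (∀ x, τ (σ' x) = σ (τ x)) → χ σ' = χ σ) :
    ∃ χ₀ : (Sep F ≃ₐ[F₀] Sep F) → ZMod 2, (∀ σ τ, χ₀ (σ * τ) = χ₀ σ + χ₀ τ) ∧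
      ∀ σ : Sep F ≃ₐ[F] Sep F, χ₀ (σ.restrictScalars F₀) = χ σ := by
  haveI := hC.fracF₀
  haveI := hC.fracF
  haveI := hC.top.sep
  haveI := hC.top.fracK
  haveI := hC.bot.fracK
  haveI : IsSepClosed k' := IsSepClosure.sep_closed k
  have hKF := hC.top.map
  haveI : IsSepClosure K (Sep F) := sepKΩ hKF
  have hpres : Preserves K F (Sep F) := preserves hKF
  have injk := (algebraMap k k').injective
  have h2' : (2 : k') ≠ 0 := by
    rw [← map_ofNat (algebraMap k k') 2]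
    exact (_root_.map_ne_zero _).2 h2
  have h2F : (2 : F) ≠ 0 := by
    have h3 : algebraMap k'[X] F (C 2) ≠ 0 := by simpa using h2'
    rwa [C_ofNat, map_ofNat] at h3
  have h2Ω : (2 : Sep F) ≠ 0 := by
    rw [← map_ofNat (algebraMap F (Sep F)) 2]
    exact (_root_.map_ne_zero _).2 h2F
  have h11 : (1 : Sep F) ≠ -1 := by
    intro h'
    exact h2Ω (by linear_combination h')
  have hDq : D.comp q ≠ 0 := by
    intro h
    rcases comp_eq_zero_iff.1 h with h | ⟨-, h⟩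
    · exact hD h
    · rw [h, natDegree_C] at hn
      exact lt_irrefl _ hn
  -- the Kummer generator
  obtain ⟨α, a, hα0, hα, hσα'⟩ := Pool.Agent.W309.TD.exists_root (K := F) (Ω := Sep F) h2Ω
    (fun σ => if χ σ = 0 then 1 else -1) (fun σ => by
      show (if χ σ = 0 then (1 : Sep F) else -1) = 1 ∨ (if χ σ = 0 then (1 : Sep F) else -1) = -1
      split_ifs
      · exact Or.inl rfl
      · exact Or.inr rfl) (fun σ τ => by
      show (if χ (σ * τ) = 0 then (1 : Sep F) else -1) =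
        (if χ σ = 0 then (1 : Sep F) else -1) * (if χ τ = 0 then (1 : Sep F) else -1)
      rw [hχ]
      rcases z01 (χ σ) with h | h <;> rcases z01 (χ τ) with h' | h' <;> rw [h, h']
      · simp
      · simp
      · simp
      · have : (1 : ZMod 2) + 1 = 0 := by decide
        simp [this]) (hcont.comp (fun z : ZMod 2 => if z = 0 then (1 : Sep F) else -1))
  have hσα : ∀ σ : Sep F ≃ₐ[F] Sep F, σ α = (if χ σ = 0 then (1 : Sep F) else -1) * α := hσα'
  have ha0 : a ≠ 0 := by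
    rintro rfl
    rw [map_zero] at hα
    exact pow_ne_zero 2 hα0 hα
  -- parity
  have hloc : ∀ v : HeightOneSpectrum k'[X], (D.comp q).map (algebraMap k k') ∉ v.asIdeal →
      par v a = 0 := by
    intro v hv
    rw [par_eq_zero]
    by_contra hns
    obtain ⟨Q, hQ1, hQ2, σ, hσ, hQ3⟩ := ram (k' := k') (Ω := Sep F) h2F ha0 hα hns
    have hdec : InDec (ff k K₀ F) D (fun x => σ x) := by
      rw [inDec_iff]
      refine dec_of (P := fun x => x = ff k K₀ F D) (BB_eq hC hn).symm ⟨Q, hQ1, ?_, ?_, hQ3⟩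
      · rintro rfl
        obtain ⟨p, hp1, hp2⟩ := Submodule.exists_mem_ne_zero_of_ne_bot v.ne_bot
        have h3 : gg k' F (Sep F) p ∈ BB (gg k' F (Sep F)) := by
          refine ⟨X - C p, monic_X_sub_C p, ?_⟩
          rw [eval₂_sub, eval₂_X, eval₂_C, sub_self]
        have h4 := (hQ2 p h3).2 hp1
        rw [Ideal.mem_bot] at h4
        have h5 : gg k' F (Sep F) p = 0 := congrArg Subtype.val h4
        have inj : Function.Injective (gg k' F (Sep F)) :=
          (algebraMap F (Sep F)).injective.comp (IsFractionRing.injective k'[X] F)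
        exact hp2 (inj (by rw [h5, map_zero]))
      · intro x hx
        rw [ff_eq hC] at hx
        have h3 : x = ⟨gg k' F (Sep F) ((D.comp q).map (algebraMap k k')), by
          rw [← hx]; exact x.2⟩ := Subtype.ext hx
        rw [h3, hQ2]
        exact hv
    have h3 := hun σ hdec
    have h4 := hσα σ
    simp only [h3, if_true, one_mul] at h4
    rw [hσ] at h4
    have h5 : (2 : Sep F) * α = 0 := by linear_combination -h4
    rcases mul_eq_zero.1 h5 with h6 | h6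
    · exact h2Ω h6
    · exact hα0 h6
  -- invariance
  have hfix : ∀ τ : Sep F ≃ₐ[K] Sep F, ∃ u : F, u ≠ 0 ∧
      τ (algebraMap F (Sep F) a) = algebraMap F (Sep F) (u ^ 2 * a) := by
    intro τ
    obtain ⟨u, hu⟩ : τ α / α ∈ Set.range (algebraMap F (Sep F)) := by
      rw [InfiniteGalois.mem_range_algebraMap_iff_fixed]
      intro σ
      obtain ⟨σ', hσ'⟩ := exists_conj hpres τ σ
      have h3 := hinv τ σ σ' hσ'
      have h4 := hσα σ
      have h5 := hσα σ'
      rw [map_div₀, ← hσ' α, h5, h4]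
      rcases z01 (χ σ) with h | h
      · simp only [h3, h, if_true, one_mul]
      · have h7 : ¬ ((1 : ZMod 2) = 0) := by decide
        simp only [h3, h, if_neg h7, neg_one_mul, map_neg, neg_div_neg_eq]
    have hτ : τ α = algebraMap F (Sep F) u * α := by
      rw [hu, div_mul_cancel₀ _ hα0]
    refine ⟨u, ?_, ?_⟩
    · rintro rfl
      rw [map_zero, zero_mul] at hτ
      exact hα0 ((map_eq_zero_iff τ τ.injective).1 hτ)
    · rw [← hα, map_pow, hτ, mul_pow, hα, map_mul, map_pow]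
  -- separability of the factors
  have hsep : ∀ π : k[X], Irreducible π → π ∣ D.comp q → π.Separable := by
    intro ϖ hϖ hd
    obtain ⟨π, h3, h4, h5⟩ := irr_of_comp hϖ D hD hd
    obtain ⟨w, ρ, m, hw, hρ, hρs, hm, e2⟩ := hO π h3 h4
    rw [e2] at h5
    have h6 : ϖ ∣ ρ ^ m := (isUnit_C.2 (isUnit_iff_ne_zero.2 hw)).dvd_mul_left.1 h5
    exact hρs.of_dvd (hϖ.prime.dvd_of_dvd_pow h6)
  obtain ⟨A, hA1, -, hA3, c, hc, eA⟩ := global0 (Ω := Sep F) hKF h2 hDq hsep ha0 hloc hfix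
  obtain ⟨A₀, h, u, hu, hh, e0⟩ := exists_A0 hD hO A hA1.ne_zero hA3
  -- the square root of `A₀(s)`
  have hA0 : ff k K₀ F A₀ = algebraMap F (Sep F)
      (algebraMap K F (algebraMap k[X] K (C u * A * h ^ 2))) := by
    show algebraMap K₀ (Sep F) (algebraMap k[X] K₀ A₀) = _
    rw [IsScalarTower.algebraMap_apply K₀ F (Sep F), IsScalarTower.algebraMap_apply K₀ K F,
      hC.mapK, e0]
  haveI : NeZero ((2 : ℕ) : k') := ⟨by exact_mod_cast h2'⟩
  obtain ⟨w, hw⟩ := IsSepClosed.exists_pow_nat_eq (algebraMap k k' u) 2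
  have hw0 : w ≠ 0 := by
    rintro rfl
    rw [zero_pow two_ne_zero] at hw
    exact hu ((_root_.map_eq_zero _).1 hw.symm)
  set z : F := algebraMap k'[X] F (C w) * algebraMap K F (algebraMap k[X] K h) / c with hz
  have hz0 : z ≠ 0 := by
    refine div_ne_zero (mul_ne_zero ?_ ?_) hc
    · simpa using hw0
    · simpa using hh
  set δ : Sep F := algebraMap F (Sep F) z * α with hδ
  have hδ0 : δ ≠ 0 := mul_ne_zero ((_root_.map_ne_zero _).2 hz0) hα0
  have hδ2 : δ ^ 2 = ff k K₀ F A₀ := by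
    have hCu : algebraMap K F (algebraMap k[X] K (C u)) = (algebraMap k'[X] F (C w)) ^ 2 := by
      rw [hKF, map_C, ← hw, C_pow, map_pow]
    rw [hA0, hδ, mul_pow, hα, ← map_pow, ← map_mul]
    congr 1
    simp only [map_mul, map_pow]
    rw [hCu, hz, eA]
    field_simp
  have hsg : ∀ g : Sep F ≃ₐ[F₀] Sep F, g δ = δ ∨ g δ = -δ := by
    intro g
    apply sq_eq_sq_iff_eq_or_eq_neg.1
    rw [← map_pow, hδ2]
    show g (algebraMap K₀ (Sep F) _) = _
    rw [IsScalarTower.algebraMap_apply K₀ F₀ (Sep F), g.commutes,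
      ← IsScalarTower.algebraMap_apply K₀ F₀ (Sep F)]
    rfl
  have hne : δ ≠ -δ := by
    intro h'
    have h5 : (2 : Sep F) * δ = 0 := by linear_combination h'
    rcases mul_eq_zero.1 h5 with h6 | h6
    · exact h2Ω h6
    · exact hδ0 h6
  refine ⟨fun g => if g δ = δ then 0 else 1, fun g g' => ?_, fun σ => ?_⟩
  · show (if g (g' δ) = δ then (0 : ZMod 2) else 1) = _
    have h1' : (1 : ZMod 2) + 1 = 0 := by decide
    rcases hsg g with h3 | h3 <;> rcases hsg g' with h4 | h4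
    · simp [h3, h4]
    · simp [h3, h4, hne.symm]
    · simp [h3, h4, hne.symm]
    · simp [h3, h4, hne.symm, h1']
  · show (if σ δ = δ then (0 : ZMod 2) else 1) = χ σ
    have h3 : σ δ = algebraMap F (Sep F) z * σ α := by
      rw [hδ, map_mul, σ.commutes]
    rcases z01 (χ σ) with h4 | h4
    · have h5 := hσα σ
      simp only [h4, if_true, one_mul] at h5
      rw [h3, h5, h4]
      simp [hδ]
    · have h5 := hσα σ
      have h7 : ¬ ((1 : ZMod 2) = 0) := by decide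
      simp only [h4, if_neg h7, neg_one_mul] at h5
      rw [h3, h5, h4, mul_neg, ← hδ, if_neg hne.symm]

end char

end Pool.Agent.N181.TF
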