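import Pool.Agent.N181.TF.Rep

/-!
The main theorem.
-/

set_option autoImplicit false
set_option linter.all false

open Polynomial IsDedekindDomain Filter Topology
open scoped Classical

namespace Pool.Agent.N181.TF

open Pool.Agent.TH115.GD (Sep IsTower Preserves preserves sepKΩ exists_conj restr lift)

section main

variable {r : ℕ} {k k' K₀ F₀ K F : Type} [Field k] [Field k'] [Algebra k k'] [Field K₀]
    [Algebra k[X] K₀] [Field F₀] [Algebra k'[X] F₀] [Algebra K₀ F₀] [Field K] [Algebra k[X] K]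
    [Field F] [Algebra k'[X] F] [Algebra K F] [Algebra K₀ K] [Algebra F₀ F] [Algebra K₀ F]
    [IsScalarTower K₀ F₀ F] [IsScalarTower K₀ K F] {q : k[X]}

/-- Restriction of scalars. -/
noncomputable def rsH (K₀ F₀ F : Type) [Field K₀] [Field F₀] [Field F] [Algebra K₀ F₀]
    [Algebra F₀ F] [Algebra K₀ F] [IsScalarTower K₀ F₀ F] :
    (Sep F ≃ₐ[F₀] Sep F) →* (Sep F ≃ₐ[K₀] Sep F) where
  toFun σ := σ.restrictScalars K₀
  map_one' := AlgEquiv.ext fun _ => rfl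
  map_mul' σ τ := AlgEquiv.ext fun _ => rfl

/-- The action of the geometric Galois group of the base. -/
noncomputable def rhoG (F₀ : Type) [Field F₀] [Algebra K₀ F₀] [Algebra F₀ F]
    [IsScalarTower K₀ F₀ F]
    (ρ : (Sep F ≃ₐ[K₀] Sep F) →* Matrix.GeneralLinearGroup (Fin r) ℤ_[2]) :
    (Sep F ≃ₐ[F₀] Sep F) →* AddMonoid.End (VV r) := (rhoE ρ).comp (rsH K₀ F₀ F)

theorem rhoG_apply (ρ : (Sep F ≃ₐ[K₀] Sep F) →* Matrix.GeneralLinearGroup (Fin r) ℤ_[2])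
    (σ : Sep F ≃ₐ[F₀] Sep F) (v : VV r) :
    rhoG F₀ ρ σ v = (ρ (σ.restrictScalars K₀)).1.mulVec v := rfl

/-- Conjugation by an automorphism. -/
noncomputable def cjG (hN : Preserves K₀ F₀ (Sep F)) (τ : Sep F ≃ₐ[K₀] Sep F) :
    (Sep F ≃ₐ[F₀] Sep F) ≃* (Sep F ≃ₐ[F₀] Sep F) where
  toFun σ := AlgEquiv.ofRingEquiv
    (f := (τ.symm.toRingEquiv.trans σ.toRingEquiv).trans τ.toRingEquiv) (fun x => by
      obtain ⟨y, hy⟩ := hN τ.symm x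
      show τ (σ (τ.symm (algebraMap F₀ (Sep F) x))) = _
      rw [hy, σ.commutes, ← hy, τ.apply_symm_apply])
  invFun σ := AlgEquiv.ofRingEquiv
    (f := (τ.toRingEquiv.trans σ.toRingEquiv).trans τ.symm.toRingEquiv) (fun x => by
      obtain ⟨y, hy⟩ := hN τ x
      show τ.symm (σ (τ (algebraMap F₀ (Sep F) x))) = _
      rw [hy, σ.commutes, ← hy, τ.symm_apply_apply])
  left_inv σ := AlgEquiv.ext fun x => by
    show τ.symm (τ (σ (τ.symm (τ x)))) = σ x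
    rw [τ.symm_apply_apply, τ.symm_apply_apply]
  right_inv σ := AlgEquiv.ext fun x => by
    show τ (τ.symm (σ (τ (τ.symm x)))) = σ x
    rw [τ.apply_symm_apply, τ.apply_symm_apply]
  map_mul' σ σ' := AlgEquiv.ext fun x => by
    show τ (σ (σ' (τ.symm x))) = τ (σ (τ.symm (τ (σ' (τ.symm x)))))
    rw [τ.symm_apply_apply]

theorem cjG_apply (hN : Preserves K₀ F₀ (Sep F)) (τ : Sep F ≃ₐ[K₀] Sep F)
    (σ : Sep F ≃ₐ[F₀] Sep F) (x : Sep F) : cjG hN τ σ x = τ (σ (τ.symm x)) := rfl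

theorem cjG_symm_apply (hN : Preserves K₀ F₀ (Sep F)) (τ : Sep F ≃ₐ[K₀] Sep F)
    (σ : Sep F ≃ₐ[F₀] Sep F) (x : Sep F) : (cjG hN τ).symm σ x = τ.symm (σ (τ x)) := rfl

/-- An automorphism which fixes `F`. -/
noncomputable def toF (g : Sep F ≃ₐ[F₀] Sep F) (hg : g ∈ HH F₀ F) : Sep F ≃ₐ[F] Sep F :=
  AlgEquiv.ofRingEquiv (f := g.toRingEquiv) hg

theorem rs_mem (σ : Sep F ≃ₐ[F] Sep F) : σ.restrictScalars F₀ ∈ HH F₀ F := fun x => σ.commutes x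

/-- A cochain of the geometric Galois group of `F` as a function on that of `F₀`. -/
noncomputable def cG (F₀ : Type) [Field F₀] [Algebra F₀ F] (c : (Sep F ≃ₐ[F] Sep F) → VV r)
    (g : Sep F ≃ₐ[F₀] Sep F) : VV r := if h : g ∈ HH F₀ F then c (toF g h) else 0

theorem cG_eq (c : (Sep F ≃ₐ[F] Sep F) → VV r) {g : Sep F ≃ₐ[F₀] Sep F} (hg : g ∈ HH F₀ F) :
    cG F₀ c g = c (toF g hg) := dif_pos hg

theorem cG_rs (c : (Sep F ≃ₐ[F] Sep F) → VV r) (σ : Sep F ≃ₐ[F] Sep F) :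
    cG F₀ c (σ.restrictScalars F₀) = c σ := by
  rw [cG_eq c (rs_mem σ)]
  rfl

/-- Continuous and unramified. -/
def Nc (k K₀ F₀ F : Type) [Field k] [Field K₀] [Algebra k[X] K₀] [Field F₀] [Field F]
    [Algebra K₀ F] [Algebra F₀ F] (D : k[X]) {r : ℕ} (c : (Sep F ≃ₐ[F₀] Sep F) → VV r) : Prop :=
  (∀ m : ℕ, ∀ᶠ g in 𝓝 (1 : Sep F ≃ₐ[F₀] Sep F), g ∈ HH F₀ F → ∃ w, c g = 2 ^ m • w) ∧
    ∀ g ∈ HH F₀ F, InDec (ff k K₀ F) D (fun x => g x) → c g = 0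

variable {D : k[X]} {ρ : (Sep F ≃ₐ[K₀] Sep F) →* Matrix.GeneralLinearGroup (Fin r) ℤ_[2]}

theorem cont_orbit (hρ : Continuous ρ) (v : VV r) :
    Continuous fun σ : Sep F ≃ₐ[K₀] Sep F => (ρ σ).1.mulVec v := by
  have h1 : Continuous fun σ : Sep F ≃ₐ[K₀] Sep F => ((ρ σ : Matrix.GeneralLinearGroup (Fin r) ℤ_[2])
      : Matrix (Fin r) (Fin r) ℤ_[2]) := Units.continuous_val.comp hρ
  exact h1.matrix_mulVec continuous_const

theorem cob_div (hI : Algebra.IsIntegral F₀ (Sep F)) (hρ : Continuous ρ) (v : VV r) (m : ℕ) :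
    ∀ᶠ g in 𝓝 (1 : Sep F ≃ₐ[F₀] Sep F), ∃ w, cob (rhoG F₀ ρ) v g = 2 ^ m • w := by
  haveI := hI
  have h1 : ContinuousAt (fun σ : Sep F ≃ₐ[K₀] Sep F => (ρ σ).1.mulVec v - v) 1 :=
    ((cont_orbit hρ v).sub continuous_const).continuousAt
  have h2 := ev_div h1 (by rw [map_one]; show (1 : Matrix _ _ _).mulVec v - v = 0; simp) m
  exact (tendsto_rs (K := K₀) (L := F₀) (Ω := Sep F)).eventually h2

/-- The automorphism as a ring homomorphism. -/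
noncomputable def rh {E : Type} [Field E] [Algebra E F] (σ : Sep F ≃ₐ[E] Sep F) : Sep F →+* Sep F :=
  (σ : Sep F ≃ₐ[E] Sep F).toRingEquiv.toRingHom

theorem rh_ff (g : Sep F ≃ₐ[F₀] Sep F) (p : k[X]) : rh g (ff k K₀ F p) = ff k K₀ F p := by
  show g (algebraMap K₀ (Sep F) (algebraMap k[X] K₀ p)) = algebraMap K₀ (Sep F) _
  rw [IsScalarTower.algebraMap_apply K₀ F₀ (Sep F), g.commutes]

theorem dec_pow {g : Sep F ≃ₐ[F₀] Sep F} (h : InDec (ff k K₀ F) D (fun x => g x)) (n : ℕ) :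
    InDec (ff k K₀ F) D (fun x => (g ^ n) x) := by
  have h1 : InDec (ff k K₀ F) D (rh g) := h
  have h2 := inDec_pow (rh_ff g) h1 n
  have h3 : ∀ (n : ℕ) (x : Sep F), (rh g ^ n) x = (g ^ n) x := by
    intro n
    induction n with
    | zero => intro x; rfl
    | succ n ih => intro x; rw [pow_succ, pow_succ]; exact ih _
  have h4 : (fun x => (g ^ n) x) = fun x => (rh g ^ n) x := funext fun x => (h3 n x).symm
  rw [h4]
  exact h2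

theorem dec_conj {σ : Sep F ≃ₐ[F₀] Sep F} (g : Sep F ≃ₐ[F₀] Sep F)
    (h : InDec (ff k K₀ F) D (fun x => σ x)) :
    InDec (ff k K₀ F) D (fun x => (g⁻¹ * σ * g) x) :=
  inDec_conj (g := rh g) (g' := rh g⁻¹) (σ := rh σ) (rh_ff g) (rh_ff g⁻¹)
    (fun x => g.apply_symm_apply x) (fun x => g.symm_apply_apply x) (rh_ff σ) h

section tr

variable [Fintype ((Sep F ≃ₐ[F₀] Sep F) ⧸ HH F₀ F)]

/-- The transfer near the identity. -/
theorem tr_near {c : (Sep F ≃ₐ[F₀] Sep F) → VV r} (hc : Coc (rhoG F₀ ρ) (HH F₀ F) c)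
    {u : Sep F ≃ₐ[F₀] Sep F}
    (hu : ∀ x : (Sep F ≃ₐ[F₀] Sep F) ⧸ HH F₀ F, x.out⁻¹ * u * x.out ∈ HH F₀ F) :
    tr (rhoG F₀ ρ) (HH F₀ F) c u = ∑ x : (Sep F ≃ₐ[F₀] Sep F) ⧸ HH F₀ F,
      (rhoG F₀ ρ x.out (c (x.out⁻¹ * u * x.out)) -
        cob (rhoG F₀ ρ) (ext (rhoG F₀ ρ) (HH F₀ F) c x.out) u) := by
  unfold tr trB
  refine Finset.sum_congr rfl fun x _ => ?_
  have h1 := ext_ext hc x.out _ (hu x)
  rw [show x.out * (x.out⁻¹ * u * x.out) = u * x.out by group] at h1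
  rw [h1]
  unfold cob
  abel

theorem tr_div (hI : Algebra.IsIntegral F₀ (Sep F)) (hρ : Continuous ρ)
    (hopen : ∀ᶠ g in 𝓝 (1 : Sep F ≃ₐ[F₀] Sep F), g ∈ HH F₀ F)
    {c : (Sep F ≃ₐ[F₀] Sep F) → VV r} (hc : Coc (rhoG F₀ ρ) (HH F₀ F) c)
    (hN : Nc k K₀ F₀ F D c) (m : ℕ) :
    ∀ᶠ g in 𝓝 (1 : Sep F ≃ₐ[F₀] Sep F), ∃ w,
      tr (rhoG F₀ ρ) (HH F₀ F) c g = 2 ^ m • w := by
  have hcj : ∀ x : (Sep F ≃ₐ[F₀] Sep F) ⧸ HH F₀ F,
      Tendsto (fun u => x.out⁻¹ * u * x.out) (𝓝 1) (𝓝 (1 : Sep F ≃ₐ[F₀] Sep F)) := by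
    intro x
    have h1 : ContinuousAt (fun u : Sep F ≃ₐ[F₀] Sep F => x.out⁻¹ * u * x.out) 1 := by
      fun_prop
    have h2 := h1.tendsto
    have h3 : x.out⁻¹ * 1 * x.out = (1 : Sep F ≃ₐ[F₀] Sep F) := by group
    rwa [h3] at h2
  have h1 : ∀ᶠ u in 𝓝 (1 : Sep F ≃ₐ[F₀] Sep F), ∀ x : (Sep F ≃ₐ[F₀] Sep F) ⧸ HH F₀ F,
      x.out⁻¹ * u * x.out ∈ HH F₀ F :=
    eventually_all.2 fun x => (hcj x).eventually hopen
  have h2 : ∀ᶠ u in 𝓝 (1 : Sep F ≃ₐ[F₀] Sep F), ∀ x : (Sep F ≃ₐ[F₀] Sep F) ⧸ HH F₀ F,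
      x.out⁻¹ * u * x.out ∈ HH F₀ F → ∃ w, c (x.out⁻¹ * u * x.out) = 2 ^ m • w :=
    eventually_all.2 fun x => (hcj x).eventually (hN.1 m)
  have h3 : ∀ᶠ u in 𝓝 (1 : Sep F ≃ₐ[F₀] Sep F), ∀ x : (Sep F ≃ₐ[F₀] Sep F) ⧸ HH F₀ F,
      ∃ w, cob (rhoG F₀ ρ) (ext (rhoG F₀ ρ) (HH F₀ F) c x.out) u = 2 ^ m • w :=
    eventually_all.2 fun x => cob_div hI hρ _ m
  filter_upwards [h1, h2, h3] with u a1 a2 a3
  choose w2 hw2 using fun x => a2 x (a1 x)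
  choose w3 hw3 using a3
  refine ⟨∑ x : (Sep F ≃ₐ[F₀] Sep F) ⧸ HH F₀ F, (rhoG F₀ ρ x.out (w2 x) - w3 x), ?_⟩
  rw [tr_near hc a1, Finset.smul_sum]
  refine Finset.sum_congr rfl fun x _ => ?_
  rw [hw2, hw3, map_nsmul, smul_sub]

theorem tr_unr (hR : ∀ σ : Sep F ≃ₐ[F₀] Sep F, InDec (ff k K₀ F) D (fun x => σ x) →
      ρ (σ.restrictScalars K₀) = 1)
    {c : (Sep F ≃ₐ[F₀] Sep F) → VV r} (hc : Coc (rhoG F₀ ρ) (HH F₀ F) c)
    (hN : Nc k K₀ F₀ F D c) {σ : Sep F ≃ₐ[F₀] Sep F}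
    (hσ : InDec (ff k K₀ F) D (fun x => σ x)) : tr (rhoG F₀ ρ) (HH F₀ F) c σ = 0 := by
  have htriv : ∀ g : Sep F ≃ₐ[F₀] Sep F, InDec (ff k K₀ F) D (fun x => g x) → ∀ v : VV r,
      rhoG F₀ ρ g v = v := by
    intro g hg v
    rw [rhoG_apply, hR g hg]
    exact Matrix.one_mulVec v
  set Φ := MulAction.toPermHom (Sep F ≃ₐ[F₀] Sep F) ((Sep F ≃ₐ[F₀] Sep F) ⧸ HH F₀ F) with hΦ
  set N := orderOf (Φ σ) with hN'
  have hNpos : 0 < N := orderOf_pos _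
  have hfix : ∀ x : (Sep F ≃ₐ[F₀] Sep F) ⧸ HH F₀ F, x.out⁻¹ * σ ^ N * x.out ∈ HH F₀ F := by
    intro x
    have h1 : Φ (σ ^ N) = 1 := by rw [map_pow, pow_orderOf_eq_one]
    have h2 : (σ ^ N) • x = x := by
      have := congrArg (fun e : Equiv.Perm _ => e x) h1
      exact this
    have h3 : (QuotientGroup.mk (σ ^ N * x.out) : (Sep F ≃ₐ[F₀] Sep F) ⧸ HH F₀ F) =
        QuotientGroup.mk x.out := by
      rw [QuotientGroup.out_eq']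
      conv_rhs => rw [← h2, ← QuotientGroup.out_eq' x]
      rfl
    have h4 := QuotientGroup.eq.1 h3.symm
    rwa [← mul_assoc] at h4
  have h1 : tr (rhoG F₀ ρ) (HH F₀ F) c (σ ^ N) = 0 := by
    rw [tr_near hc hfix]
    refine Finset.sum_eq_zero fun x _ => ?_
    have h2 := dec_conj (x.out) (dec_pow hσ N)
    rw [hN.2 _ (hfix x) h2, map_zero]
    unfold cob
    rw [htriv _ (dec_pow hσ N), sub_self, sub_self]
  have h2 : ∀ n : ℕ, tr (rhoG F₀ ρ) (HH F₀ F) c (σ ^ n) =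
      n • tr (rhoG F₀ ρ) (HH F₀ F) c σ := by
    intro n
    induction n with
    | zero =>
      rw [pow_zero, zero_smul]
      have := tr_mul hc 1 1
      rw [mul_one, rho_one] at this
      have h3 := congrArg (fun z => z - tr (rhoG F₀ ρ) (HH F₀ F) c 1) this
      simp only [sub_self, add_sub_cancel_right] at h3
      exact h3.symm
    | succ n ih =>
      rw [pow_succ, tr_mul hc, ih, htriv _ (dec_pow hσ n), add_smul, one_smul]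
  rw [h2] at h1
  funext i
  have h3 : N • (tr (rhoG F₀ ρ) (HH F₀ F) c σ) i = 0 := congrFun h1 i
  rw [nsmul_eq_mul] at h3
  exact (mul_eq_zero.1 h3).resolve_left (by exact_mod_cast hNpos.ne')

end tr

end main

end Pool.Agent.N181.TF
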