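import Pool.Agent.N181.TF.Par
import Pool.Agent.N181.P8.Main
import Mathlib.FieldTheory.RatFunc.IntermediateField

/-!
The fields of a polynomial covering of the line.
-/

set_option autoImplicit false
set_option linter.all false

open Polynomial IsDedekindDomain
open scoped Classical

namespace Pool.Agent.N181.TF

open Pool.Agent.TH115.GD (Sep IsTower Preserves preserves sepKΩ exists_conj)

/-- `K₀ = k(s)`, `F₀ = k'(s)` and `K = k(t)`, `F = k'(t)`, with `s = q(t)`; `k'` is a separable closure of
`k`. -/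
structure IsCover (k k' K₀ F₀ K F : Type) [Field k] [Field k'] [Algebra k k'] [Field K₀]
    [Algebra k[X] K₀] [Field F₀] [Algebra k'[X] F₀] [Algebra K₀ F₀] [Field K] [Algebra k[X] K]
    [Field F] [Algebra k'[X] F] [Algebra K F] [Algebra K₀ K] [Algebra F₀ F] (q : k[X]) : Prop where
  fracF₀ : IsFractionRing k'[X] F₀
  fracF : IsFractionRing k'[X] F
  bot : IsTower k k' K₀ F₀
  top : IsTower k k' K F
  mapK : ∀ p : k[X], algebraMap K₀ K (algebraMap k[X] K₀ p) = algebraMap k[X] K (p.comp q)
  mapF : ∀ p : k'[X], algebraMap F₀ F (algebraMap k'[X] F₀ p) =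
    algebraMap k'[X] F (p.comp (q.map (algebraMap k k')))

section one

variable {k' F₀ F : Type} [Field k'] [Field F₀] [Algebra k'[X] F₀] [IsFractionRing k'[X] F₀]
  [Field F] [Algebra k'[X] F] [IsFractionRing k'[X] F] [Algebra F₀ F] {p : k'[X]}
  (hm : ∀ g : k'[X], algebraMap F₀ F (algebraMap k'[X] F₀ g) = algebraMap k'[X] F (g.comp p))

include hm

theorem cst (c : k') : algebraMap F₀ F (algebraMap k'[X] F₀ (C c)) = algebraMap k'[X] F (C c) := by
  rw [hm, C_comp]

theorem adj_top : IntermediateField.adjoin F₀ {algebraMap k'[X] F X} = ⊤ := by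
  rw [eq_top_iff]
  intro z _
  obtain ⟨g, h, hh, rfl⟩ := IsFractionRing.div_surjective (A := k'[X]) z
  have key : ∀ g : k'[X], algebraMap k'[X] F g ∈
      IntermediateField.adjoin F₀ {algebraMap k'[X] F X} := by
    intro g
    induction g using Polynomial.induction_on' with
    | add a b ha hb => rw [map_add]; exact add_mem ha hb
    | monomial n c =>
      rw [← C_mul_X_pow_eq_monomial, map_mul, map_pow]
      refine mul_mem ?_ (pow_mem (IntermediateField.mem_adjoin_simple_self _ _) _)
      rw [← cst hm]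
      exact IntermediateField.algebraMap_mem _ _
  exact div_mem (key g) (key h)

/-- The polynomial of `t` over `F₀`. -/
theorem exists_pol : ∃ P : F₀[X], aeval (algebraMap k'[X] F X) P = 0 ∧
    aeval (algebraMap k'[X] F X) (derivative P) = algebraMap k'[X] F (derivative p) := by
  have ev : ∀ g : k'[X], aeval (algebraMap k'[X] F X)
      (g.map ((algebraMap k'[X] F₀).comp C)) = algebraMap k'[X] F g := by
    intro g
    rw [aeval_def, eval₂_map]
    have h1 : (algebraMap F₀ F).comp ((algebraMap k'[X] F₀).comp C) =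
        (algebraMap k'[X] F).comp C := by
      ext c
      exact cst hm c
    rw [h1]
    have h2 := Polynomial.hom_eval₂ g C (algebraMap k'[X] F) X
    rw [eval₂_C_X] at h2
    exact h2.symm
  refine ⟨p.map ((algebraMap k'[X] F₀).comp C) - C (algebraMap k'[X] F₀ X), ?_, ?_⟩
  · rw [map_sub, ev, aeval_C, hm, X_comp, sub_self]
  · rw [derivative_sub, derivative_C, sub_zero, derivative_map, ev]

theorem t_sep (hp : derivative p ≠ 0) : Algebra.IsSeparable F₀ F ∧ FiniteDimensional F₀ F := by
  obtain ⟨P, h1, h2⟩ := exists_pol hm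
  set t := algebraMap k'[X] F X with ht
  have h3 : aeval t (derivative P) ≠ 0 := by
    rw [h2, Ne, map_eq_zero_iff _ (IsFractionRing.injective k'[X] F)]
    exact hp
  have hP : P ≠ 0 := by
    rintro rfl
    rw [derivative_zero, map_zero] at h3
    exact h3 rfl
  have hint : IsIntegral F₀ t := (isAlgebraic_iff_isIntegral).1 ⟨P, hP, h1⟩
  obtain ⟨h, hh⟩ := minpoly.dvd F₀ t h1
  have hm' : derivative (minpoly F₀ t) ≠ 0 := by
    intro h0
    apply h3
    rw [hh, derivative_mul, h0, zero_mul, zero_add, map_mul, minpoly.aeval, zero_mul]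
  have hs : IsSeparable F₀ t := by
    show (minpoly F₀ t).Separable
    rw [Polynomial.separable_iff_derivative_ne_zero (minpoly.irreducible hint)]
    exact hm'
  have htop := adj_top hm
  haveI : Algebra.IsSeparable F₀ (IntermediateField.adjoin F₀ {t}) := by
    rw [IntermediateField.isSeparable_adjoin_simple_iff_isSeparable]
    exact hs
  haveI : FiniteDimensional F₀ (IntermediateField.adjoin F₀ {t}) :=
    IntermediateField.adjoin.finiteDimensional hint
  have e : (IntermediateField.adjoin F₀ {t}) ≃ₐ[F₀] F :=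
    (IntermediateField.equivOfEq htop).trans IntermediateField.topEquiv
  exact ⟨Algebra.IsSeparable.of_algHom F₀ _ e.symm.toAlgHom, LinearEquiv.finiteDimensional
    e.toLinearEquiv⟩

theorem deg_eq : Module.finrank F₀ F = p.natDegree := by
  set f : RatFunc k' := algebraMap k'[X] (RatFunc k') p with hf
  let j : F ≃ₐ[k'[X]] RatFunc k' := IsLocalization.algEquiv (nonZeroDivisors k'[X]) F (RatFunc k')
  let φ : F₀ →+* RatFunc k' := (j : F →+* RatFunc k').comp (algebraMap F₀ F)
  have hφ : ∀ g : k'[X], φ (algebraMap k'[X] F₀ g) =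
      algebraMap k'[X] (RatFunc k') (g.comp p) := by
    intro g
    show j (algebraMap F₀ F (algebraMap k'[X] F₀ g)) = _
    rw [hm, j.commutes]
  have hφf : ∀ g : k'[X], φ (algebraMap k'[X] F₀ g) = aeval f g := by
    intro g
    rw [hφ]
    have h1 : (g.comp p) = aeval p g := by rw [aeval_def]; rfl
    rw [h1, hf]
    exact (Polynomial.aeval_algebraMap_apply (RatFunc k') p g).symm
  have hmem : ∀ x : F₀, φ x ∈ IntermediateField.adjoin k' {f} := by
    intro x
    obtain ⟨g, h, hh, rfl⟩ := IsFractionRing.div_surjective (A := k'[X]) x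
    rw [map_div₀, hφf, hφf]
    have h1 : ∀ g : k'[X], aeval f g ∈ IntermediateField.adjoin k' {f} := fun g =>
      IntermediateField.algebra_adjoin_le_adjoin k' {f} (aeval_mem_adjoin_singleton k' f)
    exact div_mem (h1 g) (h1 h)
  let φ' : F₀ →+* IntermediateField.adjoin k' {f} :=
    φ.codRestrict (IntermediateField.adjoin k' {f}).toSubfield hmem
  have hsurj : Function.Surjective φ' := by
    rintro ⟨x, hx⟩
    have hle : IntermediateField.adjoin k' {f} ≤
        (⟨⟨φ.fieldRange.toSubring.toSubsemiring, fun c => ⟨algebraMap k'[X] F₀ (C c), by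
          rw [hφ, C_comp]; rfl⟩⟩, fun x hx => φ.fieldRange.inv_mem hx⟩ :
          IntermediateField k' (RatFunc k')) := by
      rw [IntermediateField.adjoin_simple_le_iff]
      exact ⟨algebraMap k'[X] F₀ X, by rw [hφ, X_comp]⟩
    obtain ⟨y, hy⟩ := hle hx
    exact ⟨y, Subtype.ext hy⟩
  let i : F₀ ≃+* IntermediateField.adjoin k' {f} :=
    RingEquiv.ofBijective φ' ⟨φ'.injective, hsurj⟩
  have h1 := Algebra.finrank_eq_of_equiv_equiv i (j : F ≃+* RatFunc k') (by
    ext x
    rfl)
  rw [h1, RatFunc.finrank_eq_max_natDegree, hf, RatFunc.num_algebraMap, RatFunc.denom_algebraMap,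
    natDegree_one, Nat.max_zero]

end one

section cover

variable {k k' K₀ F₀ K F : Type} [Field k] [Field k'] [Algebra k k'] [Field K₀]
    [Algebra k[X] K₀] [Field F₀] [Algebra k'[X] F₀] [Algebra K₀ F₀] [Field K] [Algebra k[X] K]
    [Field F] [Algebra k'[X] F] [Algebra K F] [Algebra K₀ K] [Algebra F₀ F] [Algebra K₀ F]
    [IsScalarTower K₀ F₀ F] [IsScalarTower K₀ K F] {q : k[X]}

theorem sepF₀ (hC : IsCover k k' K₀ F₀ K F q) (hq : derivative q ≠ 0) :
    IsSepClosure F₀ (Sep F) ∧ IsSepClosure K₀ (Sep F) ∧ FiniteDimensional F₀ F := by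
  haveI := hC.fracF₀
  haveI := hC.fracF
  haveI := hC.bot.sep
  haveI := hC.bot.fracK
  obtain ⟨h1, h2⟩ := t_sep (F₀ := F₀) (F := F) hC.mapF (by
    rw [derivative_map]
    exact (Polynomial.map_ne_zero_iff (algebraMap k k').injective).2 hq)
  haveI := h1
  haveI : Algebra.IsSeparable F (Sep F) := IsSepClosure.separable
  haveI : Algebra.IsSeparable F₀ (Sep F) := Algebra.IsSeparable.trans F₀ F (Sep F)
  haveI h3 : IsSepClosure F₀ (Sep F) := ⟨IsSepClosure.sep_closed F, inferInstance⟩
  exact ⟨h3, sepKΩ (Ω := Sep F) hC.bot.map, h2⟩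

/-- The automorphisms over `F₀` which fix `F`. -/
def HH (F₀ F : Type) [Field F₀] [Field F] [Algebra F₀ F] : Subgroup (Sep F ≃ₐ[F₀] Sep F) where
  carrier := {σ | ∀ x : F, σ (algebraMap F (Sep F) x) = algebraMap F (Sep F) x}
  mul_mem' := by
    intro σ τ h1 h2 x
    show σ (τ _) = _
    rw [h2, h1]
  one_mem' := fun x => rfl
  inv_mem' := by
    intro τ h x
    show τ.symm _ = _
    rw [AlgEquiv.symm_apply_eq, h]

theorem index_eq (hC : IsCover k k' K₀ F₀ K F q) (hq : derivative q ≠ 0) :
    (HH F₀ F).index = q.natDegree := by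
  haveI := hC.fracF₀
  haveI := hC.fracF
  obtain ⟨h1, -, h3⟩ := sepF₀ hC hq
  haveI := h1
  haveI := h3
  haveI : IsGalois F₀ (Sep F) := inferInstance
  have h4 := deg_eq (F₀ := F₀) (F := F) hC.mapF
  rw [natDegree_map] at h4
  set E : IntermediateField F₀ (Sep F) := (IsScalarTower.toAlgHom F₀ F (Sep F)).fieldRange with hE
  have h5 : HH F₀ F = E.fixingSubgroup := by
    ext σ
    rw [IntermediateField.mem_fixingSubgroup_iff]
    constructor
    · rintro h _ ⟨x, rfl⟩
      exact h x
    · intro h x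
      exact h _ ⟨x, rfl⟩
  have e : F ≃ₐ[F₀] E := AlgEquiv.ofInjectiveField (IsScalarTower.toAlgHom F₀ F (Sep F))
  rw [h5, ← IntermediateField.finrank_eq_fixingSubgroup_index, ← e.toLinearEquiv.finrank_eq, h4]

end cover

end Pool.Agent.N181.TF
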