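import Pool.Agent.N181.TF.Thm

/-!
Restriction of classes in coverings of the line: the theorem.
-/

set_option autoImplicit false
set_option linter.all false

open Polynomial IsDedekindDomain Filter Topology
open scoped Classical

namespace Pool.Agent.N181.TF

open Pool.Agent.TH115.GD (Sep IsTower Preserves preserves sepKΩ exists_conj restr lift)

/-- Each class of `Gal(F / E)` (see `IsClass`) has a multiple which is cohomologous to an element
of `A`. If `ρ` is the 2-adic Tate module of the Jacobian of the generic fibre of a fibration over the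
line, with good reduction at the finite places not dividing `D`, and `A` is the set of its Kummer
classes, completed 2-adically, this is the Tate conjecture for the fibration, up to its part from the
components of the fibres. -/
def ClassesFrom (E L : Type) {K₀ F k : Type} [Field K₀] [Field F] [Algebra K₀ F] [Field E]
    [Algebra K₀ E] [Algebra E F] [IsScalarTower K₀ E F]
    [Field L] [Algebra K₀ L] [Algebra L F] [IsScalarTower K₀ L F] [Field k] [Algebra k[X] K₀]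
    (D : k[X]) {r : ℕ} (ρ : (Sep F ≃ₐ[K₀] Sep F) →* Matrix.GeneralLinearGroup (Fin r) ℤ_[2])
    (A : Set ((Sep F ≃ₐ[E] Sep F) → VV r)) : Prop :=
  ∀ c : (Sep F ≃ₐ[E] Sep F) → VV r, IsClass E L D ρ c → ∃ (N : ℕ) (a : (Sep F ≃ₐ[E] Sep F) → VV r)
    (v : VV r), N ≠ 0 ∧ a ∈ A ∧
      ∀ σ, N • c σ = a σ + ((ρ (σ.restrictScalars K₀)).1.mulVec v - v)

section thm

variable {r : ℕ} {k k' K₀ F₀ K F : Type} [Field k] [Field k'] [Algebra k k'] [Field K₀]
    [Algebra k[X] K₀] [Field F₀] [Algebra k'[X] F₀] [Algebra K₀ F₀] [Field K] [Algebra k[X] K]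
    [Field F] [Algebra k'[X] F] [Algebra K F] [Algebra K₀ K] [Algebra F₀ F] [Algebra K₀ F]
    [IsScalarTower K₀ F₀ F] [IsScalarTower K₀ K F] {q : k[X]} {D : k[X]}
    {ρ : (Sep F ≃ₐ[K₀] Sep F) →* Matrix.GeneralLinearGroup (Fin r) ℤ_[2]}

theorem class_zero {c : (Sep F ≃ₐ[F] Sep F) → VV r}
    (hmul : ∀ σ τ, c (σ * τ) = c σ + (ρ (σ.restrictScalars K₀)).1.mulVec (c τ)) : c 1 = 0 := by
  have h1 := hmul 1 1
  have h2 : (1 : Sep F ≃ₐ[F] Sep F).restrictScalars K₀ = (1 : Sep F ≃ₐ[K₀] Sep F) :=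
    AlgEquiv.ext fun x => rfl
  rw [mul_one, h2, map_one] at h1
  have h3 : c 1 = c 1 + (1 : Matrix (Fin r) (Fin r) ℤ_[2]).mulVec (c 1) := h1
  rw [Matrix.one_mulVec] at h3
  have h4 := congrArg (fun z => z - c 1) h3
  simp only [sub_self, add_sub_cancel_right] at h4
  exact h4.symm

theorem class_zero₀ {c : (Sep F ≃ₐ[F₀] Sep F) → VV r}
    (hmul : ∀ σ τ, c (σ * τ) = c σ + (ρ (σ.restrictScalars K₀)).1.mulVec (c τ)) : c 1 = 0 := by
  have h1 := hmul 1 1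
  have h2 : (1 : Sep F ≃ₐ[F₀] Sep F).restrictScalars K₀ = (1 : Sep F ≃ₐ[K₀] Sep F) :=
    AlgEquiv.ext fun x => rfl
  rw [mul_one, h2, map_one] at h1
  have h3 : c 1 = c 1 + (1 : Matrix (Fin r) (Fin r) ℤ_[2]).mulVec (c 1) := h1
  rw [Matrix.one_mulVec] at h3
  have h4 := congrArg (fun z => z - c 1) h3
  simp only [sub_self, add_sub_cancel_right] at h4
  exact h4.symm

theorem restrict_class (hI : Algebra.IsIntegral F (Sep F)) {c₀ : (Sep F ≃ₐ[F₀] Sep F) → VV r}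
    (hc : IsClass F₀ K₀ D ρ c₀) : IsClass F K D ρ fun σ => c₀ (σ.restrictScalars F₀) := by
  haveI := hI
  have hmul : ∀ σ τ : Sep F ≃ₐ[F] Sep F, c₀ ((σ * τ).restrictScalars F₀) =
      c₀ (σ.restrictScalars F₀) +
        ((rhoE ρ).comp (rsH K₀ F F)) σ (c₀ (τ.restrictScalars F₀)) := by
    intro σ τ
    exact hc.mul (σ.restrictScalars F₀) (τ.restrictScalars F₀)
  refine ⟨?_, ?_, ?_, ?_⟩
  · refine cont_of_div (ρ := (rhoE ρ).comp (rsH K₀ F F)) hmul fun m => ?_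
    exact (tendsto_rs (K := F₀) (L := F) (Ω := Sep F)).eventually
      (ev_div hc.cont.continuousAt (class_zero₀ hc.mul) m)
  · exact hmul
  · intro σ hσ
    exact hc.unr (σ.restrictScalars F₀) hσ
  · intro τ
    obtain ⟨m, v, h⟩ := hc.inv (τ.restrictScalars K₀)
    exact ⟨m, v, fun σ σ' hσ => h (σ.restrictScalars F₀) (σ'.restrictScalars F₀) hσ⟩

theorem full (hC : IsCover k k' K₀ F₀ K F q) (h2 : (2 : k) ≠ 0) (hq : derivative q ≠ 0)
    (hodd : Odd q.natDegree) (hD : D ≠ 0) (hO : OnePt D q) (hρ : IsRep F₀ D ρ) :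
    (∀ c₀ : (Sep F ≃ₐ[F₀] Sep F) → VV r, IsClass F₀ K₀ D ρ c₀ →
      IsClass F K D ρ fun σ => c₀ (σ.restrictScalars F₀)) ∧
    (∀ c₀ : (Sep F ≃ₐ[F₀] Sep F) → VV r, IsClass F₀ K₀ D ρ c₀ → ∀ (N : ℕ) (v : VV r), N ≠ 0 →
      (∀ σ : Sep F ≃ₐ[F] Sep F, N • c₀ (σ.restrictScalars F₀) =
        (ρ (σ.restrictScalars K₀)).1.mulVec v - v) →
      ∃ (N' : ℕ) (v' : VV r), N' ≠ 0 ∧ ∀ σ : Sep F ≃ₐ[F₀] Sep F,
        N' • c₀ σ = (ρ (σ.restrictScalars K₀)).1.mulVec v' - v') ∧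
    (∀ c : (Sep F ≃ₐ[F] Sep F) → VV r, IsClass F K D ρ c →
      ∃ (c₀ : (Sep F ≃ₐ[F₀] Sep F) → VV r) (v : VV r), IsClass F₀ K₀ D ρ c₀ ∧
        ∀ σ : Sep F ≃ₐ[F] Sep F, q.natDegree • c σ =
          c₀ (σ.restrictScalars F₀) + ((ρ (σ.restrictScalars K₀)).1.mulVec v - v)) := by
  obtain ⟨i1, i2, i3⟩ := sepF₀ hC hq
  haveI := i1
  haveI := hC.fracF₀
  haveI := hC.fracF
  haveI := hC.bot.sep
  haveI := hC.bot.fracK
  haveI := hC.top.fracK
  haveI : Algebra.IsSeparable F₀ (Sep F) := IsSepClosure.separable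
  haveI : Algebra.IsSeparable F (Sep F) := IsSepClosure.separable
  have hI₀ : Algebra.IsIntegral F₀ (Sep F) := inferInstance
  have hI : Algebra.IsIntegral F (Sep F) := inferInstance
  have hN : Preserves K₀ F₀ (Sep F) := preserves hC.bot.map
  have hP : Preserves K F (Sep F) := preserves hC.top.map
  have hidx := index_eq hC hq
  haveI : (HH F₀ F).FiniteIndex := ⟨by rw [hidx]; exact hodd.pos.ne'⟩
  haveI : Fintype ((Sep F ≃ₐ[F₀] Sep F) ⧸ HH F₀ F) := Fintype.ofFinite _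
  have hcard : Fintype.card ((Sep F ≃ₐ[F₀] Sep F) ⧸ HH F₀ F) = q.natDegree := by
    rw [← hidx, Subgroup.index_eq_card, Nat.card_eq_fintype_card]
  have hH := hyp_of hC h2 hq hodd hD hO hρ hN hP hI hI₀ hcard
  have hopen := open_of (F₀ := F₀) (F := F) hI₀ i3
  refine ⟨fun c₀ hc => restrict_class hI hc, ?_, ?_⟩
  · intro c₀ hc N v hN0 h
    obtain ⟨w, hw⟩ := inj_of (R := rhoG F₀ ρ) (H := HH F₀ F) (c := c₀) hc.mul (N := N) (v := v)
      (fun g hg => h (toF g hg))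
    refine ⟨_, w, ?_, hw⟩
    rw [hcard]
    exact mul_ne_zero hodd.pos.ne' hN0
  · intro c hc
    have hcoc := coc_of (F₀ := F₀) (ρ := ρ) hc.mul
    have hnc := nc_of (k := k) (K₀ := K₀) (F₀ := F₀) (D := D) hI hI₀ hc.cont (class_zero hc.mul) hc.unr
    have hinv : ∀ τ : Sep F ≃ₐ[K] Sep F, ∃ (m : ℕ) (v : VV r), ∀ h ∈ HH F₀ F,
        2 ^ m • (cj (cjG hN (τ.restrictScalars K₀)) (rhoE ρ (τ.restrictScalars K₀)) (cG F₀ c) h -
          cG F₀ c h) = cob (rhoG F₀ ρ) v h := by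
      intro τ
      obtain ⟨m, v, h⟩ := hc.inv τ
      refine ⟨m, v, fun g hg => ?_⟩
      have hg' : (cjG hN (τ.restrictScalars K₀)).symm g ∈ HH F₀ F := by
        rw [(conj_of (ρ := ρ) hN hP).hH τ]
        show cjG hN (τ.restrictScalars K₀) ((cjG hN (τ.restrictScalars K₀)).symm g) ∈ HH F₀ F
        rw [MulEquiv.apply_symm_apply]
        exact hg
      have h1 := h (toF g hg) (toF _ hg') (fun x => by
        show τ (τ.symm (g (τ x))) = g (τ x)
        rw [τ.apply_symm_apply])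
      unfold cj
      rw [cG_eq c hg, cG_eq c hg']
      exact h1
    have hnice : Nc k K₀ F₀ F D (fun g => Fintype.card ((Sep F ≃ₐ[F₀] Sep F) ⧸ HH F₀ F) •
        cG F₀ c g - tr (rhoG F₀ ρ) (HH F₀ F) (cG F₀ c) g) := by
      constructor
      · intro m
        filter_upwards [hnc.1 m, tr_div hI₀ hρ.cont hopen hcoc hnc m] with g h1 h3 hg
        obtain ⟨w1, hw1⟩ := h1 hg
        obtain ⟨w2, hw2⟩ := h3
        refine ⟨Fintype.card ((Sep F ≃ₐ[F₀] Sep F) ⧸ HH F₀ F) • w1 - w2, ?_⟩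
        rw [hw1, hw2, smul_sub, smul_comm]
      · intro g hg h
        show _ • cG F₀ c g - tr (rhoG F₀ ρ) (HH F₀ F) (cG F₀ c) g = 0
        rw [hnc.2 g hg h, tr_unr hρ.unr hcoc hnc h, smul_zero, sub_zero]
    obtain ⟨w, hw⟩ := main_tr hH hcoc hnice hinv
    refine ⟨tr (rhoG F₀ ρ) (HH F₀ F) (cG F₀ c), w, ⟨?_, ?_, ?_, ?_⟩, ?_⟩
    · exact cont_of_div (tr_mul hcoc) (tr_div hI₀ hρ.cont hopen hcoc hnc)
    · exact tr_mul hcoc
    · intro σ hσ
      exact tr_unr hρ.unr hcoc hnc hσ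
    · intro τ
      obtain ⟨m, v, h⟩ := inv_of hC i1 hN hP hcoc hinv τ
      exact ⟨m, v, h⟩
    · intro σ
      have h1 := hw _ (rs_mem σ)
      rw [hcard, cG_rs] at h1
      exact h1

theorem classesFrom (hC : IsCover k k' K₀ F₀ K F q) (h2 : (2 : k) ≠ 0) (hq : derivative q ≠ 0)
    (hodd : Odd q.natDegree) (hD : D ≠ 0) (hO : OnePt D q) (hρ : IsRep F₀ D ρ)
    (A₀ : Set ((Sep F ≃ₐ[F₀] Sep F) → VV r)) (A : Set ((Sep F ≃ₐ[F] Sep F) → VV r))
    (hA : ∀ a ∈ A₀, (fun σ : Sep F ≃ₐ[F] Sep F => a (σ.restrictScalars F₀)) ∈ A)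
    (h : ClassesFrom F₀ K₀ D ρ A₀) : ClassesFrom F K D ρ A := by
  intro c hc
  obtain ⟨-, -, h3⟩ := full hC h2 hq hodd hD hO hρ
  obtain ⟨c₀, v, h4, h5⟩ := h3 c hc
  obtain ⟨N, a, v', hN, ha, h6⟩ := h c₀ h4
  refine ⟨N * q.natDegree, _, v' + N • v, mul_ne_zero hN hodd.pos.ne', hA a ha, fun σ => ?_⟩
  have h7 := h6 (σ.restrictScalars F₀)
  have h8 : ((σ.restrictScalars F₀).restrictScalars K₀ : Sep F ≃ₐ[K₀] Sep F) =
    σ.restrictScalars K₀ := rfl
  rw [h8] at h7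
  rw [mul_smul, h5, smul_add, h7, Matrix.mulVec_add, Matrix.mulVec_smul, smul_sub]
  abel

end thm

end Pool.Agent.N181.TF
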