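import Pool.Agent.N181.TF.Odd

/-!
Generalised invariants.
-/

set_option autoImplicit false
set_option linter.all false

open Polynomial Filter Topology
open scoped Classical

namespace Pool.Agent.N181.TF

section generic

variable {r : ℕ} {G I : Type} [Group G] {R : G →* AddMonoid.End (VV r)} {H : Subgroup G}
  {α : I → G ≃* G} {β : I → VV r →+ VV r}

/-- The generalised invariants of order `j`, modulo torsion. -/
def GF (R : G →* AddMonoid.End (VV r)) (H : Subgroup G) (α : I → G ≃* G)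
    (β : I → VV r →+ VV r) : ℕ → (G → VV r) → Prop
  | 0, x => ∃ (m : ℕ) (v : VV r), ∀ h ∈ H, 2 ^ m • x h = cob R v h
  | j + 1, x => ∀ i, GF R H α β j (fun g => cj (α i) (β i) x g - x g)

theorem GF_congr (hc : Conj R H α β) (j : ℕ) : ∀ {x x' : G → VV r}, (∀ h ∈ H, x h = x' h) →
    GF R H α β j x → GF R H α β j x' := by
  induction j with
  | zero =>
    rintro x x' h ⟨m, v, h1⟩
    exact ⟨m, v, fun g hg => by rw [← h g hg, h1 g hg]⟩
  | succ j ih =>
    intro x x' h h1 i
    refine ih (fun g hg => ?_) (h1 i)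
    have h2 : (α i).symm g ∈ H := by
      rw [hc.hH i]
      show α i ((α i).symm g) ∈ H
      rw [MulEquiv.apply_symm_apply]
      exact hg
    unfold cj
    rw [h _ h2, h g hg]

theorem GF_add (hc : Conj R H α β) (j : ℕ) : ∀ {x x' : G → VV r}, GF R H α β j x →
    GF R H α β j x' → GF R H α β j (fun g => x g + x' g) := by
  induction j with
  | zero =>
    rintro x x' ⟨m, v, h1⟩ ⟨m', v', h2⟩
    refine ⟨m + m', 2 ^ m' • v + 2 ^ m • v', fun g hg => ?_⟩
    rw [cob_add, cob_nsmul, cob_nsmul, ← h1 g hg, ← h2 g hg, smul_add, smul_smul, smul_smul,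
      pow_add, mul_comm (2 ^ m') (2 ^ m)]
  | succ j ih =>
    intro x x' h1 h2 i
    refine GF_congr hc j (fun g _ => ?_) (ih (h1 i) (h2 i))
    show (cj (α i) (β i) x g - x g) + (cj (α i) (β i) x' g - x' g) =
      cj (α i) (β i) (fun g => x g + x' g) g - (x g + x' g)
    unfold cj
    rw [map_add]
    abel

theorem GF_cob (hc : Conj R H α β) (j : ℕ) : ∀ v : VV r, GF R H α β j (cob R v) := by
  induction j with
  | zero => exact fun v => ⟨0, v, fun g _ => by rw [pow_zero, one_smul]⟩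
  | succ j ih =>
    intro v i
    refine GF_congr hc j (fun g _ => ?_) (ih (β i v - v))
    rw [cob_sub, cj_cob (α i) (β i) (hc.hρ i)]

theorem GF_neg (hc : Conj R H α β) (j : ℕ) : ∀ {x : G → VV r}, GF R H α β j x →
    GF R H α β j (fun g => - x g) := by
  induction j with
  | zero =>
    rintro x ⟨m, v, h1⟩
    refine ⟨m, -v, fun g hg => ?_⟩
    rw [smul_neg, h1 g hg]
    unfold cob
    rw [map_neg]
    abel
  | succ j ih =>
    intro x h1 i
    refine GF_congr hc j (fun g _ => ?_) (ih (h1 i))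
    show -(β i (x ((α i).symm g)) - x g) = β i (-x ((α i).symm g)) - -x g
    rw [map_neg]
    abel

theorem GF_nsmul (hc : Conj R H α β) (j N : ℕ) {x : G → VV r} (h : GF R H α β j x) :
    GF R H α β j (fun g => N • x g) := by
  induction N with
  | zero =>
    refine GF_congr hc j (fun g _ => ?_) (GF_cob hc j 0)
    unfold cob
    rw [map_zero, sub_zero, zero_smul]
  | succ N ih =>
    refine GF_congr hc j (fun g _ => ?_) (GF_add hc j ih h)
    rw [succ_nsmul]

theorem odd_inv {n : ℕ} (hn : Odd n) (v : VV r) : ∃ v' : VV r, n • v' = v := by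
  have h1 : IsUnit (n : ℤ_[2]) := by
    rw [PadicInt.isUnit_iff]
    have h2 : ¬ ((2 : ℕ) ∣ n) := by
      rw [← even_iff_two_dvd, Nat.not_even_iff_odd]
      exact hn
    have h3 : ‖((n : ℤ) : ℤ_[2])‖ = 1 := by
      by_contra h
      have h4 : ‖((n : ℤ) : ℤ_[2])‖ < 1 := lt_of_le_of_ne (PadicInt.norm_le_one _) h
      rw [PadicInt.norm_int_lt_one_iff_dvd] at h4
      exact h2 (by exact_mod_cast h4)
    simpa using h3
  obtain ⟨u, hu⟩ := h1
  refine ⟨fun i => (u⁻¹ : ℤ_[2]ˣ) * v i, ?_⟩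
  funext i
  show n • (((u⁻¹ : ℤ_[2]ˣ) : ℤ_[2]) * v i) = v i
  rw [nsmul_eq_mul, ← hu, ← mul_assoc, Units.mul_inv, one_mul]

theorem nat_cancel {n : ℕ} (hn : n ≠ 0) {v w : VV r} (h : n • v = n • w) : v = w := by
  funext i
  have h1 : n • v i = n • w i := congrFun h i
  rw [nsmul_eq_mul, nsmul_eq_mul] at h1
  exact mul_left_cancel₀ (by exact_mod_cast hn) h1

theorem sub_coc {c c' : G → VV r} (h : Coc R H c) (h' : Coc R H c') :
    Coc R H (fun g => c g - c' g) := by
  intro g hg h₁ hh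
  show c (g * h₁) - c' (g * h₁) = c g - c' g + R g (c h₁ - c' h₁)
  rw [h g hg h₁ hh, h' g hg h₁ hh, map_sub]
  abel

variable [Fintype (G ⧸ H)] {Nice : (G → VV r) → Prop}

theorem GF_tr (hc : Conj R H α β) (j : ℕ) : ∀ {c : G → VV r}, Coc R H c → GF R H α β j c →
    GF R H α β j (tr R H c) := by
  induction j with
  | zero =>
    rintro c h0 ⟨m, v, h1⟩
    refine ⟨m, Fintype.card (G ⧸ H) • v +
      (∑ x : G ⧸ H, (cob R v x.out - ext R H (cob R v) x.out)), fun g hg => ?_⟩
    rw [cob_add, cob_nsmul, ← tr_res (cob_mul v) g, ← tr_nsmul]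
    exact tr_congr h1 g
  | succ j ih =>
    intro c h0 h1 i
    have h2 : Coc R H (fun g => cj (α i) (β i) c g - c g) := by
      have h3 := cj_coc h0 (α i) (hc.hH i) (β i) (hc.hρ i)
      exact sub_coc h3 h0
    have h4 := GF_add hc j (ih h2 (h1 i)) (GF_cob hc j (-(∑ x : G ⧸ H,
      (cj (α i) (β i) (ext R H c) x.out - ext R H (cj (α i) (β i) c) x.out))))
    refine GF_congr hc j (fun g _ => ?_) h4
    rw [tr_sub, tr_cj h0 (α i) (hc.hH i) (β i) (hc.hρ i)]
    unfold cob
    rw [map_neg]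
    abel

/-- A generalised invariant class with transfer zero is zero. -/
theorem vanish (hH : Hyp R H α β Nice)
    (hcj : ∀ i c, Nice c → Nice (cj (α i) (β i) c))
    (hsub : ∀ c c', Nice c → Nice c' → Nice (fun g => c g - c' g))
    (htr : ∀ c, Coc R H c → Nice c → Nice (fun g => Fintype.card (G ⧸ H) • c g - tr R H c g))
    (j : ℕ) : ∀ {x : G → VV r}, Coc R H x → Nice x → (∃ u, ∀ σ, tr R H x σ = cob R u σ) →
    GF R H α β j x → ∃ (m : ℕ) (v : VV r), ∀ h ∈ H, 2 ^ m • x h = cob R v h := by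
  induction j with
  | zero => exact fun _ _ _ h => h
  | succ j ih =>
    rintro x h0 h1 ⟨u, hu⟩ h2
    have h3 : ∀ i, ∃ (m : ℕ) (v : VV r), ∀ h ∈ H,
        2 ^ m • (cj (α i) (β i) x h - x h) = cob R v h := by
      intro i
      refine ih (x := fun g => cj (α i) (β i) x g - x g)
        (sub_coc (cj_coc h0 (α i) (hH.conj.hH i) (β i) (hH.conj.hρ i)) h0)
        (hsub _ _ (hcj i x h1) h1) ?_ (h2 i)
      refine ⟨β i u + (∑ y : G ⧸ H,
        (cj (α i) (β i) (ext R H x) y.out - ext R H (cj (α i) (β i) x) y.out)) - u,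
        fun σ => ?_⟩
      rw [tr_sub, tr_cj h0 (α i) (hH.conj.hH i) (β i) (hH.conj.hρ i), hu, cob_sub, cob_add]
      congr 2
      have h5 : cj (α i) (β i) (tr R H x) σ = cj (α i) (β i) (cob R u) σ := by
        unfold cj
        rw [hu]
      rw [h5, cj_cob (α i) (β i) (hH.conj.hρ i)]
    obtain ⟨w, hw⟩ := main_tr hH h0 (htr x h0 h1) h3
    obtain ⟨v', hv'⟩ := odd_inv hH.odd (u + w)
    refine ⟨0, v', fun h hh => ?_⟩
    rw [pow_zero, one_smul]
    apply nat_cancel (n := Fintype.card (G ⧸ H)) hH.odd.pos.ne'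
    rw [hw h hh, hu, ← cob_add, ← hv', cob_nsmul]

theorem main_gen (hH : Hyp R H α β Nice)
    (hcj : ∀ i c, Nice c → Nice (cj (α i) (β i) c))
    (hsub : ∀ c c', Nice c → Nice c' → Nice (fun g => c g - c' g))
    (htr : ∀ c, Coc R H c → Nice c → Nice (fun g => Fintype.card (G ⧸ H) • c g - tr R H c g))
    (j : ℕ) {c : G → VV r} (hc : Coc R H c) (hN : Nice c) (hg : GF R H α β j c) :
    ∃ (m : ℕ) (v : VV r), ∀ h ∈ H,
      2 ^ m • (Fintype.card (G ⧸ H) • c h - tr R H c h) = cob R v h := by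
  have htrc := tr_mul hc
  refine vanish hH hcj hsub htr j (x := fun g => Fintype.card (G ⧸ H) • c g - tr R H c g) ?_
    (htr c hc hN) ?_ ?_
  · intro g hg g' hg'
    show Fintype.card (G ⧸ H) • c (g * g') - tr R H c (g * g') =
      Fintype.card (G ⧸ H) • c g - tr R H c g +
        R g (Fintype.card (G ⧸ H) • c g' - tr R H c g')
    rw [hc g hg g' hg', htrc, map_sub, smul_add, map_nsmul]
    abel
  · refine ⟨-(∑ x : G ⧸ H, (tr R H c x.out - ext R H (tr R H c) x.out)), fun σ => ?_⟩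
    rw [tr_sub, tr_nsmul, tr_res htrc]
    unfold cob
    rw [map_neg]
    abel
  · refine GF_congr hH.conj j (fun g _ => ?_) (GF_add hH.conj j
      (GF_nsmul hH.conj j (Fintype.card (G ⧸ H)) hg) (GF_neg hH.conj j (GF_tr hH.conj j hc hg)))
    exact (sub_eq_add_neg _ _).symm

end generic

end Pool.Agent.N181.TF
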