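import Pool.Agent.N181.TF.Gen

/-!
Generalised invariants: the conjugations.
-/

set_option autoImplicit false
set_option linter.all false

open Polynomial Filter Topology
open scoped Classical

namespace Pool.Agent.N181.TF

open Pool.Agent.TH115.GD (Sep Preserves preserves exists_conj)

section generic

variable {r : ℕ} {G : Type} [Group G] {R : G →* AddMonoid.End (VV r)} {H : Subgroup G}
  [Fintype (G ⧸ H)]

theorem outer2 {c : G → VV r} (hc : Coc R H c) (α : G ≃* G) (ha : ∀ g, g ∈ H ↔ α g ∈ H)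
    (β : VV r →+ VV r) (hb : ∀ g v, β (R g v) = R (α g) (β v)) (g : G) :
    ∃ w : VV r, ∀ σ σ' : G, σ' = g⁻¹ * α.symm σ * g →
      β (R g (tr R H c σ')) - tr R H c σ = tr R H (fun g => cj α β c g - c g) σ + cob R w σ := by
  set T := tr R H c with hT
  have hTm : ∀ a b, T (a * b) = T a + R a (T b) := tr_mul hc
  have hin : ∀ s : G, R g (T (g⁻¹ * s * g)) = T s + cob R (T g) s := by
    intro s
    have h1 := hTm g (g⁻¹ * s * g)
    rw [show g * (g⁻¹ * s * g) = s * g by group, hTm s g] at h1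
    unfold cob
    rw [← sub_eq_iff_eq_add'.2 h1]
    abel
  set E₁ := ∑ x : G ⧸ H, (cj α β (ext R H c) x.out - ext R H (cj α β c) x.out) with hE₁
  have h1 : ∀ s, cj α β T s = tr R H (cj α β c) s - cob R E₁ s := by
    intro s
    rw [tr_cj hc α ha β hb s]
    abel
  refine ⟨β (T g) - E₁, fun σ σ' h3 => ?_⟩
  rw [h3, hin, map_add]
  have h6 : β (cob R (T g) (α.symm σ)) = cob R (β (T g)) σ := cj_cob α β hb (T g) σ
  have h7 : β (T (α.symm σ)) = cj α β T σ := rfl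
  rw [h6, h7, h1, tr_sub, cob_sub, hT]
  abel

end generic

section conc

variable {r : ℕ} {k k' K₀ F₀ K F : Type} [Field k] [Field k'] [Algebra k k'] [Field K₀]
    [Algebra k[X] K₀] [Field F₀] [Algebra k'[X] F₀] [Algebra K₀ F₀] [Field K] [Algebra k[X] K]
    [Field F] [Algebra k'[X] F] [Algebra K F] [Algebra K₀ K] [Algebra F₀ F] [Algebra K₀ F]
    [IsScalarTower K₀ F₀ F] [IsScalarTower K₀ K F] {q : k[X]} {D : k[X]}
    {ρ : (Sep F ≃ₐ[K₀] Sep F) →* Matrix.GeneralLinearGroup (Fin r) ℤ_[2]}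

theorem conj_top (hN : Preserves K₀ F₀ (Sep F)) :
    Conj (rhoG F₀ ρ) (⊤ : Subgroup (Sep F ≃ₐ[F₀] Sep F)) (fun τ : Sep F ≃ₐ[K₀] Sep F => cjG hN τ)
      (fun τ : Sep F ≃ₐ[K₀] Sep F => rhoE ρ τ) where
  hH := fun τ g => ⟨fun _ => trivial, fun _ => trivial⟩
  hρ := by
    intro τ g v
    have h1 : τ * rsH K₀ F₀ F g = rsH K₀ F₀ F (cjG hN τ g) * τ := by
      apply AlgEquiv.ext
      intro x
      show τ (g x) = τ (g (τ.symm (τ x)))
      rw [τ.symm_apply_apply]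
    show rhoE ρ τ (rhoE ρ (rsH K₀ F₀ F g) v) = rhoE ρ (rsH K₀ F₀ F (cjG hN τ g)) (rhoE ρ τ v)
    rw [← rho_mul, ← rho_mul, h1]

theorem tendsto_cj (hI₀ : Algebra.IsIntegral F₀ (Sep F)) (hN : Preserves K₀ F₀ (Sep F))
    (τ : Sep F ≃ₐ[K₀] Sep F) :
    Tendsto (fun g : Sep F ≃ₐ[F₀] Sep F => (cjG hN τ).symm g) (𝓝 1) (𝓝 1) := by
  haveI := hI₀
  intro U hU
  rw [krullTopology_mem_nhds_one_iff] at hU
  obtain ⟨E, hE, hEU⟩ := hU
  haveI := hE
  let b := Module.finBasis F₀ E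
  have h1 : ∀ᶠ σ : Sep F ≃ₐ[F₀] Sep F in 𝓝 1, ∀ i, σ (τ (b i : Sep F)) = τ (b i : Sep F) := by
    rw [eventually_all]
    intro i
    have h2 := stabilizer_isOpen_of_isIntegral (K := F₀) (L := Sep F) (τ (b i : Sep F))
    exact h2.mem_nhds (one_mem (MulAction.stabilizer (Sep F ≃ₐ[F₀] Sep F) (τ (b i : Sep F))))
  refine mem_map.2 ?_
  filter_upwards [h1] with σ hσ
  apply hEU
  show (cjG hN τ).symm σ ∈ E.fixingSubgroup
  rw [IntermediateField.mem_fixingSubgroup_iff]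
  intro x hx
  have h3 : (⟨x, hx⟩ : E) = ∑ i, b.repr ⟨x, hx⟩ i • b i := (b.sum_repr _).symm
  have h4 : x = ∑ i, b.repr ⟨x, hx⟩ i • (b i : Sep F) := by
    have := congrArg (fun y : E => (y : Sep F)) h3
    simp only [AddSubmonoidClass.coe_finset_sum] at this
    exact this
  show (cjG hN τ).symm σ x = x
  rw [h4, map_sum]
  refine Finset.sum_congr rfl fun i _ => ?_
  rw [map_smul]
  congr 1
  rw [cjG_symm_apply, hσ, τ.symm_apply_apply]

theorem nc_cj (hI₀ : Algebra.IsIntegral F₀ (Sep F)) (hN : Preserves K₀ F₀ (Sep F))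
    (hP : Preserves K F (Sep F)) (τ : Sep F ≃ₐ[K] Sep F) (c : (Sep F ≃ₐ[F₀] Sep F) → VV r)
    (hc : Nc k K₀ F₀ F D c) :
    Nc k K₀ F₀ F D (cj (cjG hN (τ.restrictScalars K₀)) (rhoE ρ (τ.restrictScalars K₀)) c) := by
  have hconj := conj_of (ρ := ρ) hN hP
  have hmem : ∀ g ∈ HH F₀ F, (cjG hN (τ.restrictScalars K₀)).symm g ∈ HH F₀ F := by
    intro g hg
    rw [hconj.hH τ]
    show cjG hN (τ.restrictScalars K₀) ((cjG hN (τ.restrictScalars K₀)).symm g) ∈ HH F₀ F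
    rw [MulEquiv.apply_symm_apply]
    exact hg
  constructor
  · intro m
    filter_upwards [(tendsto_cj hI₀ hN (τ.restrictScalars K₀)).eventually (hc.1 m)] with g h1 hg
    obtain ⟨w, hw⟩ := h1 (hmem g hg)
    refine ⟨rhoE ρ (τ.restrictScalars K₀) w, ?_⟩
    unfold cj
    rw [hw]
    exact map_nsmul (rhoE ρ (τ.restrictScalars K₀)) (2 ^ m) w
  · intro g hg h
    have h2 : InDec (ff k K₀ F) D (fun x => (cjG hN (τ.restrictScalars K₀)).symm g x) :=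
      inDec_conj (f := ff k K₀ F) (g := rh (τ.restrictScalars K₀))
        (g' := rh (τ.restrictScalars K₀).symm) (σ := rh g)
        (fun p => (τ.restrictScalars K₀).commutes _)
        (fun p => (τ.restrictScalars K₀).symm.commutes _)
        (fun x => (τ.restrictScalars K₀).apply_symm_apply x)
        (fun x => (τ.restrictScalars K₀).symm_apply_apply x) (rh_ff g) h
    show (rhoE ρ (τ.restrictScalars K₀)) (c ((cjG hN (τ.restrictScalars K₀)).symm g)) = 0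
    rw [hc.2 _ (hmem g hg) h2, map_zero]

theorem nc_sub (c c' : (Sep F ≃ₐ[F₀] Sep F) → VV r) (hc : Nc k K₀ F₀ F D c)
    (hc' : Nc k K₀ F₀ F D c') : Nc k K₀ F₀ F D (fun g => c g - c' g) := by
  constructor
  · intro m
    filter_upwards [hc.1 m, hc'.1 m] with g h1 h2 hg
    obtain ⟨w1, hw1⟩ := h1 hg
    obtain ⟨w2, hw2⟩ := h2 hg
    exact ⟨w1 - w2, by rw [hw1, hw2, smul_sub]⟩
  · intro g hg h
    show c g - c' g = 0
    rw [hc.2 g hg h, hc'.2 g hg h, sub_zero]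

theorem GF0_tr (hC : IsCover k k' K₀ F₀ K F q) (i1 : IsSepClosure F₀ (Sep F))
    (hN : Preserves K₀ F₀ (Sep F)) (hP : Preserves K F (Sep F))
    [Fintype ((Sep F ≃ₐ[F₀] Sep F) ⧸ HH F₀ F)] (j : ℕ) :
    ∀ {c : (Sep F ≃ₐ[F₀] Sep F) → VV r}, Coc (rhoG F₀ ρ) (HH F₀ F) c →
    GF (rhoG F₀ ρ) (HH F₀ F) (fun τ : Sep F ≃ₐ[K] Sep F => cjG hN (τ.restrictScalars K₀))
      (fun τ : Sep F ≃ₐ[K] Sep F => rhoE ρ (τ.restrictScalars K₀)) j c →
    GF (rhoG F₀ ρ) (⊤ : Subgroup (Sep F ≃ₐ[F₀] Sep F)) (fun τ : Sep F ≃ₐ[K₀] Sep F => cjG hN τ)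
      (fun τ : Sep F ≃ₐ[K₀] Sep F => rhoE ρ τ) j (tr (rhoG F₀ ρ) (HH F₀ F) c) := by
  have hc := conj_of (ρ := ρ) hN hP
  have hc0 := conj_top (ρ := ρ) hN
  induction j with
  | zero =>
    rintro c h0 ⟨m, v, h1⟩
    refine ⟨m, Fintype.card ((Sep F ≃ₐ[F₀] Sep F) ⧸ HH F₀ F) • v +
      (∑ x : (Sep F ≃ₐ[F₀] Sep F) ⧸ HH F₀ F,
        (cob (rhoG F₀ ρ) v x.out - ext (rhoG F₀ ρ) (HH F₀ F) (cob (rhoG F₀ ρ) v) x.out)),
      fun g hg => ?_⟩
    rw [cob_add, cob_nsmul, ← tr_res (cob_mul v) g, ← tr_nsmul]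
    exact tr_congr h1 g
  | succ j ih =>
    intro c h0 h1 τ
    obtain ⟨δ, g, hδ⟩ := decomp hC i1 τ
    have h2 := sub_coc (cj_coc h0 (cjG hN (δ.restrictScalars K₀)) (hc.hH δ)
      (rhoE ρ (δ.restrictScalars K₀)) (hc.hρ δ)) h0
    obtain ⟨w, hw⟩ := outer2 h0 (cjG hN (δ.restrictScalars K₀)) (hc.hH δ)
      (rhoE ρ (δ.restrictScalars K₀)) (hc.hρ δ) g
    refine GF_congr hc0 j (fun σ _ => ?_) (GF_add hc0 j (ih h2 (h1 δ)) (GF_cob hc0 j w))
    have h3 : (cjG hN τ).symm σ = g⁻¹ * (cjG hN (δ.restrictScalars K₀)).symm σ * g := by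
      apply AlgEquiv.ext
      intro x
      have h4 : ∀ y, τ.symm y = g.symm (δ.symm y) := by
        intro y
        rw [AlgEquiv.symm_apply_eq, hδ, g.apply_symm_apply, δ.apply_symm_apply]
      show τ.symm (σ (τ x)) = g.symm (δ.symm (σ (δ (g x))))
      rw [h4, hδ]
    have h4 : τ = δ.restrictScalars K₀ * rsH K₀ F₀ F g := AlgEquiv.ext fun x => hδ x
    have h5 : ∀ z, rhoE ρ τ z = rhoE ρ (δ.restrictScalars K₀) (rhoG F₀ ρ g z) := by
      intro z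
      rw [h4, rho_mul]
      rfl
    have h6 := hw σ _ h3
    rw [← h6]
    show _ = (rhoE ρ τ) (tr (rhoG F₀ ρ) (HH F₀ F) c ((cjG hN τ).symm σ)) - _
    rw [h5]
    rfl

end conc

end Pool.Agent.N181.TF
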