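import Pool.Agent.N181.TF.Gen2

/-!
Generalised invariants: the theorem.
-/

set_option autoImplicit false
set_option linter.all false

open Polynomial Filter Topology
open scoped Classical

namespace Pool.Agent.N181.TF.St

open Pool.Agent.TH115.GD (Sep Preserves preserves exists_conj)
open Pool.Agent.N181.TF

section defs

variable {r : ℕ} {K₀ F : Type} [Field K₀] [Field F] [Algebra K₀ F]

/-- The class of `c` in `H¹(E, ℚ₂ ^ r)` is a generalised invariant of order `j` of the Galois group of `L`: it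
is zero for `j = 0`, and for `j + 1` the classes of `τ c - c` are generalised invariants of order `j` for
all `τ`. Here `(τ c) (σ) = τ (c (σ'))` with `σ' = τ⁻¹ σ τ`. -/
def IsGen {E : Type} (L : Type) [Field E] [Algebra K₀ E] [Algebra E F] [IsScalarTower K₀ E F]
    [Field L] [Algebra K₀ L] [Algebra L F] [IsScalarTower K₀ L F] (ρ : RepS F K₀ r) :
    ℕ → (GalS F E → VV r) → Prop
  | 0, c => ∃ (m : ℕ) (v : VV r), ∀ σ, 2 ^ m • c σ = act ρ σ v - v
  | j + 1, c => ∀ (τ : GalS F L) (c' : GalS F E → VV r), (∀ σ σ', (∀ x, τ (σ' x) = σ (τ x)) →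
      c' σ = act ρ τ (c σ') - c σ) → IsGen L ρ j c'

/-- `c` is a continuous cocycle of the geometric Galois group of `E`, unramified at the finite places not
dividing `D`, whose class in `H¹(E, ℚ₂ ^ r)` is a generalised invariant of order `j` of the Galois group of
`L`. For a finite field `k` these are the classes in `ker (Frob - 1) ^ j`. -/
structure IsGenClass (E L : Type) [Field E] [Algebra K₀ E] [Algebra E F] [IsScalarTower K₀ E F]
    [Field L] [Algebra K₀ L] [Algebra L F] [IsScalarTower K₀ L F]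
    {k : Type} [Field k] [Algebra k[X] K₀] (D : k[X]) (ρ : RepS F K₀ r) (j : ℕ)
    (c : GalS F E → VV r) : Prop where
  cont : Continuous c
  mul : ∀ σ τ, c (σ * τ) = c σ + act ρ σ (c τ)
  unr : ∀ σ : GalS F E, Dec K₀ D σ → c σ = 0
  gen : IsGen L ρ j c

/-- The generalised invariants are invariants. For a finite field `k` this says that Frobenius is
semisimple at the eigenvalue one on the group of the classes. -/
def Semisimple (E L : Type) [Field E] [Algebra K₀ E] [Algebra E F] [IsScalarTower K₀ E F]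
    [Field L] [Algebra K₀ L] [Algebra L F] [IsScalarTower K₀ L F]
    {k : Type} [Field k] [Algebra k[X] K₀] (D : k[X]) (ρ : RepS F K₀ r) : Prop :=
  ∀ (j : ℕ) (c : GalS F E → VV r), IsGenClass E L D ρ j c → IsFixed L ρ c

/-- The restriction of the generalised invariant classes of order `j` from `F₀ = k'(s)` to `F = k'(t)` is an
isomorphism up to torsion: the restriction of a generalised invariant class is one, it is torsion only if
the class is torsion, and `n` times each generalised invariant class over `F` is the restriction of one over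
`F₀`, up to a torsion class. -/
structure GenIso (F₀ K : Type) [Field F₀] [Algebra K₀ F₀] [Algebra F₀ F]
    [IsScalarTower K₀ F₀ F] [Field K] [Algebra K₀ K] [Algebra K F] [IsScalarTower K₀ K F]
    {k : Type} [Field k] [Algebra k[X] K₀] (n : ℕ) (D : k[X]) (ρ : RepS F K₀ r) (j : ℕ) : Prop where
  cls : ∀ c : GalS F F₀ → VV r, IsGenClass F₀ K₀ D ρ j c → IsGenClass F K D ρ j (res c)
  inj : ∀ c : GalS F F₀ → VV r, IsGenClass F₀ K₀ D ρ j c → IsTors ρ (res c) → IsTors ρ c
  surj : ∀ c : GalS F F → VV r, IsGenClass F K D ρ j c → ∃ (c₀ : GalS F F₀ → VV r) (m : ℕ),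
    IsGenClass F₀ K₀ D ρ j c₀ ∧ IsCob ρ (fun σ => 2 ^ m • (n • c σ - res c₀ σ))

end defs

/-- For all the representations `ρ` of the Galois group of `k(s)` as in `IsRep` and the covering `s = q(t)`:
the restriction of the generalised invariant classes is an isomorphism up to torsion, and if the
generalised invariants are invariants over `k(s)` then this holds over `k(t)`. -/
def NoNewGen {k : Type} [Field k] (q D : k[X]) : Prop :=
  ∀ (k' K₀ F₀ K F : Type) [Field k'] [Algebra k k'] [Field K₀] [Algebra k[X] K₀]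
    [Field F₀] [Algebra k'[X] F₀] [Algebra K₀ F₀] [Field K] [Algebra k[X] K] [Field F]
    [Algebra k'[X] F] [Algebra K F] [Algebra K₀ K] [Algebra F₀ F] [Algebra K₀ F]
    [IsScalarTower K₀ F₀ F] [IsScalarTower K₀ K F], IsCover k k' K₀ F₀ K F q →
    ∀ (r : ℕ) (ρ : RepS F K₀ r), IsRep F₀ D ρ →
      (∀ j, GenIso F₀ K q.natDegree D ρ j) ∧
      (Semisimple F₀ K₀ D ρ → Semisimple F K D ρ)

section proofs

variable {r : ℕ} {k k' K₀ F₀ K F : Type} [Field k] [Field k'] [Algebra k k'] [Field K₀]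
    [Algebra k[X] K₀] [Field F₀] [Algebra k'[X] F₀] [Algebra K₀ F₀] [Field K] [Algebra k[X] K]
    [Field F] [Algebra k'[X] F] [Algebra K F] [Algebra K₀ K] [Algebra F₀ F] [Algebra K₀ F]
    [IsScalarTower K₀ F₀ F] [IsScalarTower K₀ K F] {q : k[X]} {D : k[X]} {ρ : RepS F K₀ r}

theorem gen_to_GF (hN : Preserves K₀ F₀ (Sep F)) (hP : Preserves K F (Sep F)) (j : ℕ) :
    ∀ {c : GalS F F → VV r}, IsGen K ρ j c →
    GF (rhoG F₀ ρ) (HH F₀ F) (fun τ : Sep F ≃ₐ[K] Sep F => cjG hN (τ.restrictScalars K₀))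
      (fun τ : Sep F ≃ₐ[K] Sep F => rhoE ρ (τ.restrictScalars K₀)) j (cG F₀ c) := by
  have hc := conj_of (ρ := ρ) hN hP
  induction j with
  | zero =>
    rintro c ⟨m, v, h⟩
    refine ⟨m, v, fun g hg => ?_⟩
    rw [cG_eq c hg]
    exact h (toF g hg)
  | succ j ih =>
    intro c h τ
    have hmem : ∀ g ∈ HH F₀ F, (cjG hN (τ.restrictScalars K₀)).symm g ∈ HH F₀ F := by
      intro g hg
      rw [hc.hH τ]
      show cjG hN (τ.restrictScalars K₀) ((cjG hN (τ.restrictScalars K₀)).symm g) ∈ HH F₀ F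
      rw [MulEquiv.apply_symm_apply]
      exact hg
    set c' : GalS F F → VV r := fun σ =>
      rhoE ρ (τ.restrictScalars K₀) (cG F₀ c
        ((cjG hN (τ.restrictScalars K₀)).symm (σ.restrictScalars F₀))) - c σ with hc'
    have h1 : IsGen K ρ j c' := by
      refine h τ c' fun σ σ' hσ => ?_
      have h2 : (cjG hN (τ.restrictScalars K₀)).symm (σ.restrictScalars F₀) =
          σ'.restrictScalars F₀ := by
        apply AlgEquiv.ext
        intro x
        show τ.symm (σ (τ x)) = σ' x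
        rw [← hσ, τ.symm_apply_apply]
      show rhoE ρ (τ.restrictScalars K₀) (cG F₀ c
        ((cjG hN (τ.restrictScalars K₀)).symm (σ.restrictScalars F₀))) - c σ = _
      rw [h2, cG_rs]
      rfl
    refine GF_congr hc j (fun g hg => ?_) (ih h1)
    rw [cG_eq c' hg]
    show rhoE ρ (τ.restrictScalars K₀) (cG F₀ c
        ((cjG hN (τ.restrictScalars K₀)).symm ((toF g hg).restrictScalars F₀))) - c (toF g hg) =
      rhoE ρ (τ.restrictScalars K₀) (cG F₀ c ((cjG hN (τ.restrictScalars K₀)).symm g)) - cG F₀ c g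
    rw [cG_eq c hg]
    rfl

theorem GF_to_gen (hN : Preserves K₀ F₀ (Sep F)) (j : ℕ) : ∀ {y : GalS F F₀ → VV r},
    GF (rhoG F₀ ρ) (⊤ : Subgroup (Sep F ≃ₐ[F₀] Sep F)) (fun τ : Sep F ≃ₐ[K₀] Sep F => cjG hN τ)
      (fun τ : Sep F ≃ₐ[K₀] Sep F => rhoE ρ τ) j y → IsGen K₀ ρ j y := by
  induction j with
  | zero =>
    rintro y ⟨m, v, h⟩
    exact ⟨m, v, fun σ => h σ trivial⟩
  | succ j ih =>
    intro y h τ c' hc'
    have h1 : c' = fun g => cj (cjG hN τ) (rhoE ρ τ) y g - y g := by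
      funext σ
      rw [hc' σ ((cjG hN τ).symm σ) (fun x => by
        show τ (τ.symm (σ (τ x))) = σ (τ x)
        rw [τ.apply_symm_apply])]
      rfl
    rw [h1]
    exact ih (h τ)

theorem gen_restrict (hN : Preserves K₀ F₀ (Sep F)) (hP : Preserves K F (Sep F)) (j : ℕ) :
    ∀ {c : GalS F F₀ → VV r}, IsGen K₀ ρ j c → IsGen K ρ j (res c) := by
  induction j with
  | zero =>
    rintro c ⟨m, v, h⟩
    exact ⟨m, v, fun σ => h (σ.restrictScalars F₀)⟩
  | succ j ih =>
    intro c h τ c' hc'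
    set c₀ : GalS F F₀ → VV r := fun g => rhoE ρ (τ.restrictScalars K₀)
      (c ((cjG hN (τ.restrictScalars K₀)).symm g)) - c g with hc₀
    have h1 : IsGen K₀ ρ j c₀ := by
      refine h (τ.restrictScalars K₀) c₀ fun σ σ' hσ => ?_
      have h2 : (cjG hN (τ.restrictScalars K₀)).symm σ = σ' := by
        apply AlgEquiv.ext
        intro x
        show τ.symm (σ (τ x)) = σ' x
        have h3 : τ (σ' x) = σ (τ x) := hσ x
        rw [← h3, τ.symm_apply_apply]
      show rhoE ρ (τ.restrictScalars K₀) (c ((cjG hN (τ.restrictScalars K₀)).symm σ)) - c σ = _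
      rw [h2]
      rfl
    have h4 : c' = res c₀ := by
      funext σ
      obtain ⟨σ', hσ⟩ := exists_conj hP τ σ
      rw [hc' σ σ' hσ]
      have h2 : (cjG hN (τ.restrictScalars K₀)).symm (σ.restrictScalars F₀) =
          σ'.restrictScalars F₀ := by
        apply AlgEquiv.ext
        intro x
        show τ.symm (σ (τ x)) = σ' x
        rw [← hσ, τ.symm_apply_apply]
      show _ = rhoE ρ (τ.restrictScalars K₀)
        (c ((cjG hN (τ.restrictScalars K₀)).symm (σ.restrictScalars F₀))) - c (σ.restrictScalars F₀)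
      rw [h2]
      rfl
    rw [h4]
    exact ih h1

/-- If a multiple of a class is fixed up to torsion, the class is fixed. -/
theorem fixed_of {c x : GalS F F → VV r} {n m : ℕ} (hn : Odd n) (hx : IsFixed K ρ x)
    (h : ∃ v, ∀ σ, 2 ^ m • (n • c σ - x σ) = act ρ σ v - v) : IsFixed K ρ c := by
  obtain ⟨v, hv⟩ := h
  intro τ
  obtain ⟨m₁, v₁, h1⟩ := hx τ
  set B : VV r →+ VV r := rhoE ρ (τ.restrictScalars K₀) with hB
  have hB' : ∀ z, act ρ τ z = B z := fun z => rfl
  obtain ⟨V, hV⟩ := odd_inv hn (2 ^ m • v₁ + 2 ^ m₁ • (B v - v))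
  refine ⟨m + m₁, V, fun σ σ' hσ => ?_⟩
  set S : VV r →+ VV r := rhoE ρ (σ.restrictScalars K₀) with hS
  set S' : VV r →+ VV r := rhoE ρ (σ'.restrictScalars K₀) with hS'
  have e1 : ∀ z, act ρ σ z = S z := fun z => rfl
  have e2 : ∀ z, act ρ σ' z = S' z := fun z => rfl
  have h3 : B (S' v) = S (B v) := by
    have h4 : τ.restrictScalars K₀ * σ'.restrictScalars K₀ =
        σ.restrictScalars K₀ * τ.restrictScalars K₀ := AlgEquiv.ext fun x => hσ x
    show rhoE ρ (τ.restrictScalars K₀) (rhoE ρ (σ'.restrictScalars K₀) v) =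
      rhoE ρ (σ.restrictScalars K₀) (rhoE ρ (τ.restrictScalars K₀) v)
    rw [← rho_mul, ← rho_mul, h4]
  have h5 := h1 σ σ' hσ
  have h6 := hv σ
  have h7 := congrArg B (hv σ')
  rw [hB', e1] at h5 ⊢
  rw [e1] at h6
  rw [e2, map_sub, h3, map_nsmul, map_sub, map_nsmul] at h7
  apply nat_cancel (n := n) hn.pos.ne'
  have h8 : n • (S V - V) = S (n • V) - n • V := by rw [map_nsmul, smul_sub]
  rw [h8, hV]
  have h9 : n • (2 ^ (m + m₁) • (B (c σ') - c σ)) =
      2 ^ m₁ • (2 ^ m • (n • B (c σ') - B (x σ'))) - 2 ^ m₁ • (2 ^ m • (n • c σ - x σ)) +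
        2 ^ m • (2 ^ m₁ • (B (x σ') - x σ)) := by
    rw [smul_smul (2 ^ m₁) (2 ^ m), smul_smul (2 ^ m₁) (2 ^ m), smul_smul (2 ^ m) (2 ^ m₁),
      ← pow_add, ← pow_add, add_comm m₁ m, ← smul_sub, ← smul_add, smul_comm n]
    congr 1
    rw [smul_sub]
    abel
  rw [h9, h7, h6, h5, map_add, map_nsmul, map_nsmul, map_sub]
  simp only [smul_sub]
  abel

end proofs

theorem noNewGen {k : Type} [Field k] {q D : k[X]} (h2 : (2 : k) ≠ 0) (hq : derivative q ≠ 0)
    (hodd : Odd q.natDegree) (hD : D ≠ 0) (hO : OnePt D q) : NoNewGen q D := by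
  intro k' K₀ F₀ K F _ _ _ _ _ _ _ _ _ _ _ _ _ _ _ _ _ hC r ρ hρ'
  obtain ⟨i1, i2, i3⟩ := sepF₀ hC hq
  haveI := i1
  haveI := hC.fracF₀
  haveI := hC.fracF
  haveI := hC.bot.sep
  haveI := hC.bot.fracK
  haveI := hC.top.fracK
  haveI : Algebra.IsSeparable F₀ (Sep F) := IsSepClosure.separable
  haveI : Algebra.IsSeparable F (Sep F) := IsSepClosure.separable
  have hI₀ : Algebra.IsIntegral F₀ (Sep F) := inferInstance
  have hI : Algebra.IsIntegral F (Sep F) := inferInstance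
  have hN : Preserves K₀ F₀ (Sep F) := preserves hC.bot.map
  have hP : Preserves K F (Sep F) := preserves hC.top.map
  have hidx := index_eq hC hq
  haveI : (HH F₀ F).FiniteIndex := ⟨by rw [hidx]; exact hodd.pos.ne'⟩
  haveI : Fintype ((Sep F ≃ₐ[F₀] Sep F) ⧸ HH F₀ F) := Fintype.ofFinite _
  have hcard : Fintype.card ((Sep F ≃ₐ[F₀] Sep F) ⧸ HH F₀ F) = q.natDegree := by
    rw [← hidx, Subgroup.index_eq_card, Nat.card_eq_fintype_card]
  have hρ : TF.IsRep F₀ D ρ := isRep_iff hρ'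
  have hH := hyp_of hC h2 hq hodd hD hO hρ hN hP hI hI₀ hcard
  have hopen := open_of (F₀ := F₀) (F := F) hI₀ i3
  have hA : ∀ (j : ℕ) (c : GalS F F → VV r), IsGenClass F K D ρ j c →
      ∃ (c₀ : GalS F F₀ → VV r) (m : ℕ), IsGenClass F₀ K₀ D ρ j c₀ ∧
        IsCob ρ (fun σ => 2 ^ m • (q.natDegree • c σ - res c₀ σ)) := by
    intro j c hc
    have hcoc := coc_of (F₀ := F₀) (ρ := ρ) hc.mul
    have hnc := nc_of (k := k) (K₀ := K₀) (F₀ := F₀) (D := D) hI hI₀ hc.cont
      (class_zero hc.mul) hc.unr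
    have hgf := gen_to_GF (F₀ := F₀) hN hP j hc.gen
    obtain ⟨m, v, hv⟩ := main_gen hH (nc_cj hI₀ hN hP) nc_sub
      (fun c hc hc' => nice_of hρ hI₀ hopen hc hc') j hcoc hnc hgf
    refine ⟨tr (rhoG F₀ ρ) (HH F₀ F) (cG F₀ c), m, ⟨?_, ?_, ?_, ?_⟩, v, fun σ => ?_⟩
    · exact cont_of_div (tr_mul hcoc) (tr_div hI₀ hρ.cont hopen hcoc hnc)
    · exact tr_mul hcoc
    · intro σ hσ
      exact tr_unr hρ.unr hcoc hnc hσ
    · exact GF_to_gen hN j (GF0_tr hC i1 hN hP j hcoc hgf)
    · have h3 := hv _ (rs_mem σ)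
      rw [hcard, cG_rs] at h3
      exact h3
  refine ⟨fun j => ⟨?_, ?_, hA j⟩, fun hS j c hc => ?_⟩
  · intro c hc
    have hI' := hI
    have hmul : ∀ σ τ : GalS F F, res c (σ * τ) = res c σ +
        ((rhoE ρ).comp (rsH K₀ F F)) σ (res c τ) := by
      intro σ τ
      exact hc.mul (σ.restrictScalars F₀) (τ.restrictScalars F₀)
    refine ⟨?_, hmul, fun σ hσ => hc.unr (σ.restrictScalars F₀) hσ, gen_restrict hN hP j hc.gen⟩
    refine cont_of_div (ρ := (rhoE ρ).comp (rsH K₀ F F)) hmul fun m => ?_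
    exact (tendsto_rs (K := F₀) (L := F) (Ω := Sep F)).eventually
      (ev_div hc.cont.continuousAt (class_zero₀ hc.mul) m)
  · rintro c hc ⟨N, hN0, v, hv⟩
    obtain ⟨w, hw⟩ := inj_of (R := rhoG F₀ ρ) (H := HH F₀ F) (c := c) hc.mul (N := N) (v := v)
      (fun g hg => hv (toF g hg))
    exact ⟨_, mul_ne_zero (by rw [hcard]; exact hodd.pos.ne') hN0, w, hw⟩
  obtain ⟨c₀, m, h3, v, h4⟩ := hA j c hc
  have h5 : IsFixed K₀ ρ c₀ := hS j c₀ h3
  have h6 : TF.IsClass F₀ K₀ D ρ c₀ := ⟨h3.cont, h3.mul, h3.unr, h5⟩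
  have h7 : TF.IsClass F K D ρ (res c₀) := restrict_class (F₀ := F₀) (c₀ := c₀) hI h6
  exact fixed_of hodd h7.inv ⟨v, h4⟩

end Pool.Agent.N181.TF.St
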