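import Pool.Agent.N181.TF.Step

/-!
Representations on `ℤ₂ ^ r` which are triangular modulo 2.
-/

set_option autoImplicit false
set_option linter.all false

open scoped Classical

namespace Pool.Agent.N181.TF

variable {r : ℕ}

/-- The module. -/
abbrev VV (r : ℕ) : Type := Fin r → ℤ_[2]

/-- The `j`-th coordinate modulo 2. -/
noncomputable def lamH (j : Fin r) : VV r →+ ZMod 2 where
  toFun v := PadicInt.toZMod (v j)
  map_zero' := by simp
  map_add' v w := by simp

/-- The vectors whose first `j` coordinates are even. -/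
noncomputable def UU (r j : ℕ) : AddSubgroup (VV r) where
  carrier := {v | ∀ i : Fin r, (i : ℕ) < j → lamH i v = 0}
  zero_mem' := fun i _ => map_zero _
  add_mem' := fun {v w} hv hw i hi => by rw [map_add, hv i hi, hw i hi, add_zero]
  neg_mem' := fun {v} hv i hi => by rw [map_neg, hv i hi, neg_zero]

theorem exists_half {x : ℤ_[2]} (h : PadicInt.toZMod x = 0) : ∃ y, 2 * y = x := by
  have h1 : x ∈ RingHom.ker (PadicInt.toZMod : ℤ_[2] →+* ZMod 2) := h
  rw [PadicInt.ker_toZMod, PadicInt.maximalIdeal_eq_span_p, Ideal.mem_span_singleton] at h1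
  obtain ⟨y, hy⟩ := h1
  exact ⟨y, by rw [hy]; norm_num⟩

/-- Half of a vector. -/
noncomputable def half (v : VV r) : VV r := fun i =>
  if h : PadicInt.toZMod (v i) = 0 then (exists_half h).choose else 0

theorem half_spec {v : VV r} (h : v ∈ UU r r) : 2 • half v = v := by
  funext i
  have h1 : PadicInt.toZMod (v i) = 0 := h i i.2
  show 2 • half v i = v i
  rw [half, dif_pos h1]
  have := (exists_half h1).choose_spec
  rw [two_nsmul, ← two_mul]
  exact this

theorem two_cancel {v w : VV r} (h : 2 • v = 2 • w) : v = w := by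
  funext i
  have h1 : 2 • v i = 2 • w i := congrFun h i
  rw [two_nsmul, two_nsmul, ← two_mul, ← two_mul] at h1
  exact mul_left_cancel₀ two_ne_zero h1

theorem two_mem (v : VV r) : 2 • v ∈ UU r r := by
  intro i _
  rw [map_nsmul, two_nsmul, zz]

/-- Triangular modulo 2. -/
structure Tri (f : VV r →+ VV r) : Prop where
  st : ∀ j : ℕ, ∀ v ∈ UU r j, f v ∈ UU r j
  inv : ∀ j : Fin r, ∀ v ∈ UU r j, lamH j (f v) = lamH j v

variable {G I : Type} [Group G] {ρ : G →* AddMonoid.End (VV r)} {H : Subgroup G}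
  [Fintype (G ⧸ H)] {α : I → G ≃* G} {β : I → VV r →+ VV r} {Nice : (G → VV r) → Prop}

theorem layer (h1 : ∀ g, Tri (ρ g)) (h2 : ∀ i, Tri (β i)) (j : Fin r) :
    Layer ρ β (UU r j) (UU r (j + 1)) (lamH j) where
  stG := fun g => (h1 g).st j
  stI := fun i => (h2 i).st j
  invG := fun g => (h1 g).inv j
  invI := fun i => (h2 i).inv j
  mem := by
    intro v
    constructor
    · intro h
      exact ⟨fun i hi => h i (by omega), h j (by omega)⟩
    · rintro ⟨h, h'⟩ i hi
      by_cases e : (i : ℕ) < j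
      · exact h i e
      · have : i = j := Fin.ext (by omega)
        rw [this]
        exact h'

/-- The hypotheses. -/
structure Hyp (ρ : G →* AddMonoid.End (VV r)) (H : Subgroup G) [Fintype (G ⧸ H)]
    (α : I → G ≃* G) (β : I → VV r →+ VV r) (Nice : (G → VV r) → Prop) : Prop where
  triG : ∀ g, Tri (ρ g)
  triI : ∀ i, Tri (β i)
  odd : Odd (Fintype.card (G ⧸ H))
  conj : Conj ρ H α β
  chr : CharExt H α Nice
  nsub : ∀ c w, Nice c → Nice (fun g => c g - cob ρ w g)
  nhalf : ∀ c y, Nice c → (∀ g ∈ H, c g = 2 • y g) → Nice y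

theorem steps (hH : Hyp ρ H α β Nice) {c : G → VV r} (h : State ρ H α β Nice ⊤ c) (j : ℕ)
    (hj : j ≤ r) : ∃ w, State ρ H α β Nice (UU r j) (fun g => c g - cob ρ w g) := by
  induction j with
  | zero =>
    refine ⟨0, ?_⟩
    have e : (fun g => c g - cob ρ 0 g) = c := by
      funext g
      unfold cob
      rw [map_zero, sub_zero, sub_zero]
    have e' : UU r 0 = ⊤ := by
      rw [eq_top_iff]
      intro v _ i hi
      exact absurd hi (Nat.not_lt_zero _)
    rw [e, e']
    exact h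
  | succ j ih =>
    obtain ⟨w, hw⟩ := ih (by omega)
    obtain ⟨w', -, hw'⟩ := step (layer hH.triG hH.triI ⟨j, by omega⟩) hH.odd hH.conj hH.chr
      hH.nsub hw
    refine ⟨w + w', ?_⟩
    have e : (fun g => c g - cob ρ (w + w') g) = fun g => c g - cob ρ w g - cob ρ w' g := by
      funext g
      rw [cob_add]
      abel
    rw [e]
    exact hw'

/-- Division by two. -/
theorem div_step (hH : Hyp ρ H α β Nice) {c : G → VV r} (h : State ρ H α β Nice ⊤ c) :
    ∃ (w : VV r) (y : G → VV r), State ρ H α β Nice ⊤ y ∧ ∀ g ∈ H, c g = cob ρ w g + 2 • y g := by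
  obtain ⟨w, hw⟩ := steps hH h r le_rfl
  set c' : G → VV r := fun g => c g - cob ρ w g with hc'
  set y : G → VV r := fun g => half (c' g) with hy
  have e : ∀ g ∈ H, 2 • y g = c' g := fun g hg => half_spec (hw.val g hg)
  refine ⟨w, y, ⟨?_, ?_, fun _ _ => trivial, ?_, ?_⟩, ?_⟩
  · intro g hg g' hg'
    apply two_cancel
    rw [e _ (H.mul_mem hg hg'), hw.coc g hg g' hg', smul_add, e g hg, ← map_nsmul, e g' hg']
  · exact hH.nhalf c' y hw.nice fun g hg => (e g hg).symm
  · obtain ⟨u, hu, h1⟩ := hw.tr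
    refine ⟨half u, trivial, fun σ => two_cancel ?_⟩
    rw [← tr_nsmul, ← cob_nsmul, half_spec hu, ← h1]
    exact tr_congr (fun g hg => e g hg) σ
  · intro i
    obtain ⟨u, hu, h1⟩ := hw.inv i
    refine ⟨half u, trivial, fun g hg => two_cancel ?_⟩
    have hs : (α i).symm g ∈ H := by
      rw [hH.conj.hH i, (α i).apply_symm_apply]; exact hg
    rw [← cob_nsmul, half_spec hu, ← h1 g hg, smul_sub, e g hg]
    unfold cj
    rw [← map_nsmul, e _ hs]
  · intro g hg
    rw [e g hg]
    show c g = cob ρ w g + (c g - cob ρ w g)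
    abel

/-- Coboundaries. -/
theorem pow_cob (m : ℕ) (v : VV r) (g : G) : cob ρ (2 ^ m • v) g = 2 ^ m • cob ρ v g :=
  cob_nsmul _ _ _

/-- The invariant classes with transfer zero are trivial. -/
theorem trivial_class (hH : Hyp ρ H α β Nice) {c : G → VV r} (h : State ρ H α β Nice ⊤ c) :
    ∃ w : VV r, ∀ g ∈ H, c g = cob ρ w g := by
  choose! W Y hY hWY using fun c : G → VV r => fun h : State ρ H α β Nice ⊤ c =>
    div_step hH h
  let Z : ℕ → G → VV r := fun n => Nat.rec c (fun _ z => Y z) n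
  have hZ0 : Z 0 = c := rfl
  have hZS : ∀ n, Z (n + 1) = Y (Z n) := fun n => rfl
  have hZ : ∀ n, State ρ H α β Nice ⊤ (Z n) := by
    intro n
    induction n with
    | zero => exact h
    | succ n ih => rw [hZS]; exact hY _ ih
  let w : ℕ → VV r := fun n => W (Z n)
  have hw : ∀ n, ∀ g ∈ H, Z n g = cob ρ (w n) g + 2 • Z (n + 1) g := fun n g hg => by
    rw [hZS]; exact hWY _ (hZ n) g hg
  have hsum : ∀ n, ∀ g ∈ H, c g = cob ρ (∑ j ∈ Finset.range n, 2 ^ j • w j) g + 2 ^ n • Z n g := by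
    intro n g hg
    induction n with
    | zero =>
      rw [Finset.sum_range_zero, pow_zero, one_smul, hZ0]
      unfold cob
      rw [map_zero, sub_zero, zero_add]
    | succ n ih =>
      rw [ih, Finset.sum_range_succ, cob_add, hw n g hg, smul_add, pow_cob, smul_smul, pow_succ]
      abel
  have hsm : ∀ (i : Fin r) (s : ℕ), Summable fun j : ℕ => (2 : ℤ_[2]) ^ j * w (s + j) i := by
    intro i s
    refine Summable.of_norm_bounded (g := fun j : ℕ => (1 / 2 : ℝ) ^ j) summable_geometric_two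
      fun j => ?_
    have h2 : ‖(2 : ℤ_[2])‖ = 1 / 2 := by
      have := PadicInt.norm_p (p := 2)
      push_cast at this
      rw [this]
      norm_num
    rw [norm_mul, norm_pow, h2]
    calc _ ≤ (1 / 2 : ℝ) ^ j * 1 := by
          apply mul_le_mul_of_nonneg_left (PadicInt.norm_le_one _) (by positivity)
      _ = _ := mul_one _
  set T : ℕ → VV r := fun s i => ∑' j : ℕ, (2 : ℤ_[2]) ^ j * w (s + j) i with hT
  have hTs : ∀ n, T 0 = (∑ j ∈ Finset.range n, 2 ^ j • w j) + 2 ^ n • T n := by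
    intro n
    funext i
    have h1 := (hsm i 0).sum_add_tsum_nat_add n
    show T 0 i = (∑ j ∈ Finset.range n, 2 ^ j • w j) i + (2 ^ n • T n) i
    have h2 : T 0 i = ∑' j : ℕ, (2 : ℤ_[2]) ^ j * w (0 + j) i := rfl
    rw [h2, ← h1, Finset.sum_apply]
    congr 1
    · refine Finset.sum_congr rfl fun j _ => ?_
      rw [zero_add, Pi.smul_apply, nsmul_eq_mul]
      push_cast
      rfl
    · show _ = 2 ^ n • T n i
      rw [nsmul_eq_mul]
      have h3 : T n i = ∑' j : ℕ, (2 : ℤ_[2]) ^ j * w (n + j) i := rfl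
      rw [h3, ← (hsm i n).tsum_mul_left]
      refine tsum_congr fun j => ?_
      push_cast
      rw [zero_add, pow_add, add_comm j n]
      ring
  refine ⟨T 0, fun g hg => ?_⟩
  have hdiff : ∀ n : ℕ, c g - cob ρ (T 0) g = 2 ^ n • (Z n g - cob ρ (T n) g) := by
    intro n
    conv_lhs => rw [hTs n]
    rw [hsum n g hg, cob_add, pow_cob, smul_sub]
    abel
  rw [← sub_eq_zero]
  funext i
  show (c g - cob ρ (T 0) g) i = 0
  rw [← norm_eq_zero]
  by_contra hne
  have hpos : 0 < ‖(c g - cob ρ (T 0) g) i‖ := lt_of_le_of_ne (norm_nonneg _) (Ne.symm hne)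
  obtain ⟨n, hn⟩ := exists_pow_lt_of_lt_one hpos (by norm_num : (1 / 2 : ℝ) < 1)
  have h1 : (c g - cob ρ (T 0) g) i = (2 : ℤ_[2]) ^ n * (Z n g - cob ρ (T n) g) i := by
    rw [hdiff n, Pi.smul_apply, nsmul_eq_mul]
    push_cast
    rfl
  have h2 : ‖(2 : ℤ_[2])‖ = 1 / 2 := by
    have := PadicInt.norm_p (p := 2)
    push_cast at this
    rw [this]
    norm_num
  rw [h1, norm_mul, norm_pow, h2] at hn
  have h3 : (1 / 2 : ℝ) ^ n * ‖(Z n g - cob ρ (T n) g) i‖ ≤ (1 / 2 : ℝ) ^ n * 1 :=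
    mul_le_mul_of_nonneg_left (PadicInt.norm_le_one _) (by positivity)
  rw [mul_one] at h3
  exact absurd hn (not_lt.2 h3)

/-- From rational to integral triviality. -/
theorem exact_two (hH : Hyp ρ H α β Nice) {y : G → VV r} (hy : Coc ρ H y) {v : VV r}
    (h2 : ∀ h ∈ H, 2 • y h = cob ρ v h) (htr : ∃ u, ∀ σ, tr ρ H y σ = cob ρ u σ) :
    ∃ u, ∀ h ∈ H, y h = cob ρ u h := by
  have key : ∀ j, j ≤ r → ∀ g, cob ρ v g ∈ UU r j := by
    intro j
    induction j with
    | zero =>
      intro _ g i hi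
      exact absurd hi (Nat.not_lt_zero _)
    | succ j ih =>
      intro hj
      have hL := layer (β := β) (ρ := ρ) hH.triG hH.triI ⟨j, by omega⟩
      have ih' := ih (by omega)
      have h3 := hom_trivial (H := H) hH.odd (χ := fun g => lamH ⟨j, by omega⟩ (cob ρ v g))
        (fun g h => by
          show lamH _ (cob ρ v (g * h)) = _
          rw [cob_mul, map_add, hL.invG g _ (ih' h)])
        (fun h hh => by
          show lamH _ (cob ρ v h) = 0
          rw [← h2 h hh, map_nsmul, two_nsmul, zz])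
      intro g
      exact (hL.mem _).2 ⟨ih' g, h3 g⟩
  have hr := key r le_rfl
  set y₀ : G → VV r := fun g => half (cob ρ v g) with hy₀
  have e : ∀ g, 2 • y₀ g = cob ρ v g := fun g => half_spec (hr g)
  have hy₀c : ∀ g h, y₀ (g * h) = y₀ g + ρ g (y₀ h) := by
    intro g h
    apply two_cancel
    rw [e, cob_mul, smul_add, e, ← map_nsmul, e]
  have hyy : ∀ h ∈ H, y h = y₀ h := fun h hh => two_cancel (by rw [h2 h hh, e])
  obtain ⟨u, hu⟩ := htr
  obtain ⟨m, hm⟩ := hH.odd
  refine ⟨u - (∑ x : G ⧸ H, (y₀ x.out - ext ρ H y₀ x.out)) - m • v, fun h hh => ?_⟩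
  have h3 := tr_res (H := H) hy₀c h
  rw [← tr_congr hyy, hu, hm, add_smul, one_smul, ← hyy h hh, mul_comm, mul_smul, h2 h hh] at h3
  rw [cob_sub, cob_sub, cob_nsmul, h3]
  abel

theorem exact_pow (hH : Hyp ρ H α β Nice) (m : ℕ) : ∀ {y : G → VV r}, Coc ρ H y → ∀ {v : VV r},
    (∀ h ∈ H, 2 ^ m • y h = cob ρ v h) → (∃ u, ∀ σ, tr ρ H y σ = cob ρ u σ) →
    ∃ u, ∀ h ∈ H, y h = cob ρ u h := by
  induction m with
  | zero =>
    intro y _ v h _
    exact ⟨v, fun g hg => by rw [← h g hg, pow_zero, one_smul]⟩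
  | succ m ih =>
    intro y hy v h ht
    obtain ⟨u, hu⟩ := ht
    have hy' : Coc ρ H (fun g => 2 ^ m • y g) := by
      intro g hg g' hg'
      show 2 ^ m • y (g * g') = 2 ^ m • y g + ρ g (2 ^ m • y g')
      rw [hy g hg g' hg', smul_add, map_nsmul]
    obtain ⟨u', hu'⟩ := exact_two hH hy' (v := v) (fun g hg => by
      rw [smul_smul, ← pow_succ']; exact h g hg) ⟨2 ^ m • u, fun σ => by
        rw [tr_nsmul, hu, pow_cob]⟩
    exact ih hy hu' ⟨u, hu⟩

/-- **The classes which are invariant in the rational cohomology come from the big group.** -/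
theorem main_tr (hH : Hyp ρ H α β Nice) {c : G → VV r} (hc : Coc ρ H c)
    (hN : Nice (fun g => Fintype.card (G ⧸ H) • c g - tr ρ H c g))
    (hinv : ∀ i, ∃ (m : ℕ) (v : VV r), ∀ h ∈ H, 2 ^ m • (cj (α i) (β i) c h - c h) = cob ρ v h) :
    ∃ w : VV r, ∀ h ∈ H, Fintype.card (G ⧸ H) • c h = tr ρ H c h + cob ρ w h := by
  set n := Fintype.card (G ⧸ H) with hn
  set x : G → VV r := fun g => n • c g - tr ρ H c g with hx
  have htrc := tr_mul hc
  have hxc : Coc ρ H x := by
    intro g hg g' hg'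
    show n • c (g * g') - tr ρ H c (g * g') = n • c g - tr ρ H c g + ρ g (n • c g' - tr ρ H c g')
    rw [hc g hg g' hg', htrc, map_sub, smul_add, map_nsmul]
    abel
  obtain ⟨u, hu⟩ : ∃ u, ∀ σ, tr ρ H x σ = cob ρ u σ := by
    refine ⟨-(∑ x : G ⧸ H, (tr ρ H c x.out - ext ρ H (tr ρ H c) x.out)), fun σ => ?_⟩
    rw [hx, tr_sub, tr_nsmul, tr_res htrc]
    unfold cob
    rw [map_neg]
    abel
  have hS : State ρ H α β Nice ⊤ x := by
    refine ⟨hxc, hN, fun _ _ => trivial, ⟨u, trivial, hu⟩, fun i => ?_⟩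
    obtain ⟨m, v, hv⟩ := hinv i
    have hcj := cj_coc hxc (α i) (hH.conj.hH i) (β i) (hH.conj.hρ i)
    have hyc : Coc ρ H (fun g => cj (α i) (β i) x g - x g) := by
      intro g hg g' hg'
      show cj (α i) (β i) x (g * g') - x (g * g') =
        cj (α i) (β i) x g - x g + ρ g (cj (α i) (β i) x g' - x g')
      rw [hcj g hg g' hg', hxc g hg g' hg',
        map_sub (ρ g) (cj (α i) (β i) x g') (x g')]
      abel
    set E₁ := ∑ x : G ⧸ H, (cj (α i) (β i) (ext ρ H c) x.out -
      ext ρ H (cj (α i) (β i) c) x.out) with hE₁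
    set E₂ := ∑ x : G ⧸ H, (cob ρ v x.out - ext ρ H (cob ρ v) x.out) with hE₂
    obtain ⟨u', hu'⟩ := exact_pow hH m hyc (v := 2 ^ m • E₁ - E₂) (fun g hg => by
      have h1 : tr ρ H (fun g => 2 ^ m • (cj (α i) (β i) c g - c g)) g = tr ρ H (cob ρ v) g :=
        tr_congr hv g
      rw [tr_nsmul, tr_sub, tr_cj hc (α i) (hH.conj.hH i) (β i) (hH.conj.hρ i),
        tr_res (cob_mul v), ← hE₁, ← hE₂, ← hn, ← hv g hg] at h1
      have h2 : cj (α i) (β i) x g = n • cj (α i) (β i) c g - cj (α i) (β i) (tr ρ H c) g := by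
        show β i (n • c _ - tr ρ H c _) = n • β i (c _) - β i (tr ρ H c _)
        rw [map_sub, map_nsmul]
      rw [h2, cob_sub, pow_cob]
      show 2 ^ m • (n • cj (α i) (β i) c g - cj (α i) (β i) (tr ρ H c) g -
        (n • c g - tr ρ H c g)) = _
      have h3 : 2 ^ m • (n • cj (α i) (β i) c g - cj (α i) (β i) (tr ρ H c) g -
          (n • c g - tr ρ H c g)) = n • (2 ^ m • (cj (α i) (β i) c g - c g)) -
          (2 ^ m • (cj (α i) (β i) (tr ρ H c) g + cob ρ E₁ g - tr ρ H c g)) +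
            2 ^ m • cob ρ E₁ g := by
        simp only [smul_sub, smul_add, smul_comm n (2 ^ m)]
        abel
      rw [h3, h1]
      abel)
      ⟨β i u + (∑ x' : G ⧸ H, (cj (α i) (β i) (ext ρ H x) x'.out -
        ext ρ H (cj (α i) (β i) x) x'.out)) - u, fun σ => by
        rw [tr_sub, tr_cj hxc (α i) (hH.conj.hH i) (β i) (hH.conj.hρ i), hu, cob_sub, cob_add]
        have h2 : cj (α i) (β i) (tr ρ H x) σ = cob ρ (β i u) σ := by
          rw [← cj_cob (α i) (β i) (hH.conj.hρ i)]
          unfold cj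
          rw [hu]
        rw [h2]⟩
    exact ⟨u', trivial, hu'⟩
  obtain ⟨w, hw⟩ := trivial_class hH hS
  exact ⟨w, fun h hh => by
    rw [← hw h hh]
    show n • c h = tr ρ H c h + (n • c h - tr ρ H c h)
    abel⟩

end Pool.Agent.N181.TF
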