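import Pool.Agent.N181.TF.Fin

/-!
The hypotheses of the abstract theorem.
-/

set_option autoImplicit false
set_option linter.all false

open Polynomial IsDedekindDomain Filter Topology
open scoped Classical

namespace Pool.Agent.N181.TF

open Pool.Agent.TH115.GD (Sep IsTower Preserves preserves sepKΩ exists_conj restr lift)

section thm

variable {r : ℕ} {k k' K₀ F₀ K F : Type} [Field k] [Field k'] [Algebra k k'] [Field K₀]
    [Algebra k[X] K₀] [Field F₀] [Algebra k'[X] F₀] [Algebra K₀ F₀] [Field K] [Algebra k[X] K]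
    [Field F] [Algebra k'[X] F] [Algebra K F] [Algebra K₀ K] [Algebra F₀ F] [Algebra K₀ F]
    [IsScalarTower K₀ F₀ F] [IsScalarTower K₀ K F] {q : k[X]} {D : k[X]}
    {ρ : (Sep F ≃ₐ[K₀] Sep F) →* Matrix.GeneralLinearGroup (Fin r) ℤ_[2]}

theorem triv_of (hρ : IsRep F₀ D ρ) (g : Sep F ≃ₐ[F₀] Sep F)
    (hg : InDec (ff k K₀ F) D (fun x => g x)) (v : VV r) : rhoG F₀ ρ g v = v := by
  rw [rhoG_apply, hρ.unr g hg]
  exact Matrix.one_mulVec v

theorem cob_zero (hρ : IsRep F₀ D ρ) (g : Sep F ≃ₐ[F₀] Sep F)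
    (hg : InDec (ff k K₀ F) D (fun x => g x)) (v : VV r) : cob (rhoG F₀ ρ) v g = 0 := by
  unfold cob
  rw [triv_of hρ g hg, sub_self]

theorem lam_two (lam : VV r →+ ZMod 2) (w : VV r) : lam (2 ^ 1 • w) = 0 := by
  rw [pow_one, map_nsmul, two_nsmul, zz]

theorem conj_of (hN : Preserves K₀ F₀ (Sep F)) (hP : Preserves K F (Sep F)) :
    Conj (rhoG F₀ ρ) (HH F₀ F) (fun τ : Sep F ≃ₐ[K] Sep F => cjG hN (τ.restrictScalars K₀))
      (fun τ : Sep F ≃ₐ[K] Sep F => rhoE ρ (τ.restrictScalars K₀)) where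
  hH := by
    intro τ g
    constructor
    · intro hg x
      obtain ⟨y, hy⟩ := hP τ.symm x
      show τ (g (τ.symm (algebraMap F (Sep F) x))) = _
      rw [hy, hg y, ← hy, τ.apply_symm_apply]
    · intro hg x
      obtain ⟨y, hy⟩ := hP τ x
      have h1 : τ (g (τ.symm (algebraMap F (Sep F) y))) = algebraMap F (Sep F) y := hg y
      rw [← hy, τ.symm_apply_apply] at h1
      exact τ.injective h1
  hρ := by
    intro τ g v
    have h1 : τ.restrictScalars K₀ * rsH K₀ F₀ F g =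
        rsH K₀ F₀ F (cjG hN (τ.restrictScalars K₀) g) * τ.restrictScalars K₀ := by
      apply AlgEquiv.ext
      intro x
      show τ (g x) = τ (g (τ.symm (τ x)))
      rw [τ.symm_apply_apply]
    show rhoE ρ (τ.restrictScalars K₀) (rhoE ρ (rsH K₀ F₀ F g) v) =
      rhoE ρ (rsH K₀ F₀ F (cjG hN (τ.restrictScalars K₀) g)) (rhoE ρ (τ.restrictScalars K₀) v)
    rw [← rho_mul, ← rho_mul, h1]

theorem nsub_of (hI : Algebra.IsIntegral F₀ (Sep F)) (hρ : IsRep F₀ D ρ)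
    (c : (Sep F ≃ₐ[F₀] Sep F) → VV r) (w : VV r) (hc : Nc k K₀ F₀ F D c) :
    Nc k K₀ F₀ F D (fun g => c g - cob (rhoG F₀ ρ) w g) := by
  constructor
  · intro m
    filter_upwards [hc.1 m, cob_div hI hρ.cont w m] with g h1 h2 hg
    obtain ⟨w1, hw1⟩ := h1 hg
    obtain ⟨w2, hw2⟩ := h2
    exact ⟨w1 - w2, by rw [hw1, hw2, smul_sub]⟩
  · intro g hg h
    show c g - cob (rhoG F₀ ρ) w g = 0
    rw [hc.2 g hg h, cob_zero hρ g h, sub_zero]

theorem nhalf_of (c y : (Sep F ≃ₐ[F₀] Sep F) → VV r) (hc : Nc k K₀ F₀ F D c)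
    (h : ∀ g ∈ HH F₀ F, c g = 2 • y g) : Nc k K₀ F₀ F D y := by
  constructor
  · intro m
    filter_upwards [hc.1 (m + 1)] with g h1 hg
    obtain ⟨w, hw⟩ := h1 hg
    refine ⟨w, two_cancel ?_⟩
    rw [← h g hg, hw, pow_succ', mul_smul]
  · intro g hg h1
    apply two_cancel
    rw [← h g hg, hc.2 g hg h1, smul_zero]

theorem chr_of (hC : IsCover k k' K₀ F₀ K F q) (h2 : (2 : k) ≠ 0) (hq : derivative q ≠ 0)
    (hn : 0 < q.natDegree) (hD : D ≠ 0) (hO : OnePt D q) (hN : Preserves K₀ F₀ (Sep F))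
    (hI : Algebra.IsIntegral F (Sep F)) :
    CharExt (V := VV r) (HH F₀ F)
      (fun τ : Sep F ≃ₐ[K] Sep F => cjG hN (τ.restrictScalars K₀)) (Nc k K₀ F₀ F D) := by
  haveI := hI
  intro lam c hc hadd hinv
  have h1 : ∀ σ τ : Sep F ≃ₐ[F] Sep F, lam (c ((σ * τ).restrictScalars F₀)) =
      lam (c (σ.restrictScalars F₀)) + lam (c (τ.restrictScalars F₀)) := by
    intro σ τ
    exact hadd _ (rs_mem σ) _ (rs_mem τ)
  obtain ⟨χ₀, h3, h4⟩ := char_ext hC h2 hq hn hD hO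
    (χ := fun σ => lam (c (σ.restrictScalars F₀))) h1
    (by
      rw [IsLocallyConstant.iff_eventually_eq]
      intro σ
      have h5 : ∀ᶠ g : Sep F ≃ₐ[F] Sep F in 𝓝 1, ∃ w, c (g.restrictScalars F₀) = 2 ^ 1 • w := by
        have h6 := (tendsto_rs (K := F₀) (L := F) (Ω := Sep F)).eventually (hc.1 1)
        filter_upwards [h6] with g hg
        exact hg (rs_mem g)
      have h6 : Tendsto (fun g => σ⁻¹ * g) (𝓝 σ) (𝓝 1) := by
        have : ContinuousAt (fun g : Sep F ≃ₐ[F] Sep F => σ⁻¹ * g) σ :=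
          (continuous_const_mul σ⁻¹).continuousAt
        have h2 := this.tendsto
        rwa [inv_mul_cancel] at h2
      filter_upwards [h6.eventually h5] with g hg
      obtain ⟨w, hw⟩ := hg
      have h7 := h1 σ (σ⁻¹ * g)
      rw [mul_inv_cancel_left, hw, lam_two, add_zero] at h7
      exact h7)
    (fun σ hσ => by
      show lam (c (σ.restrictScalars F₀)) = 0
      rw [hc.2 _ (rs_mem σ) hσ, map_zero])
    (fun τ σ σ' h => by
      show lam (c (σ'.restrictScalars F₀)) = lam (c (σ.restrictScalars F₀))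
      rw [← hinv τ _ (rs_mem σ)]
      congr 2
      apply AlgEquiv.ext
      intro x
      show σ' x = τ.symm (σ (τ x))
      rw [← h, τ.symm_apply_apply])
  refine ⟨χ₀, h3, fun g hg => ?_⟩
  exact h4 (toF g hg)

theorem hyp_of (hC : IsCover k k' K₀ F₀ K F q) (h2 : (2 : k) ≠ 0) (hq : derivative q ≠ 0)
    (hodd : Odd q.natDegree) (hD : D ≠ 0) (hO : OnePt D q) (hρ : IsRep F₀ D ρ)
    (hN : Preserves K₀ F₀ (Sep F)) (hP : Preserves K F (Sep F))
    (hI : Algebra.IsIntegral F (Sep F)) (hI₀ : Algebra.IsIntegral F₀ (Sep F))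
    [Fintype ((Sep F ≃ₐ[F₀] Sep F) ⧸ HH F₀ F)]
    (hcard : Fintype.card ((Sep F ≃ₐ[F₀] Sep F) ⧸ HH F₀ F) = q.natDegree) :
    Hyp (rhoG F₀ ρ) (HH F₀ F) (fun τ : Sep F ≃ₐ[K] Sep F => cjG hN (τ.restrictScalars K₀))
      (fun τ : Sep F ≃ₐ[K] Sep F => rhoE ρ (τ.restrictScalars K₀)) (Nc k K₀ F₀ F D) where
  triG := fun g => tri_of (ρ (g.restrictScalars K₀)) (hρ.tri _) (rhoG F₀ ρ g) (fun v => rfl)
  triI := fun τ => tri_of (ρ (τ.restrictScalars K₀)) (hρ.tri _) (rhoE ρ (τ.restrictScalars K₀))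
    (fun v => rfl)
  odd := by rw [hcard]; exact hodd
  conj := conj_of hN hP
  chr := chr_of hC h2 hq hodd.pos hD hO hN hI
  nsub := nsub_of hI₀ hρ
  nhalf := nhalf_of

end thm

end Pool.Agent.N181.TF
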