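import Pool.Agent.N181.TF.Odd

/-!
The statement on the points.
-/

set_option autoImplicit false
set_option linter.all false

open Polynomial Filter Topology
open scoped Classical

namespace Pool.Agent.N181.TF.St

open Pool.Agent.TH115.GD (Sep Preserves preserves)
open Pool.Agent.N181.TF

section defs

variable {r : ℕ} {K₀ F : Type} [Field K₀] [Field F] [Algebra K₀ F] {M : Type} [AddCommGroup M]

/-- The elements of `M` which are fixed by the Galois group of `L`: the points over `L`. -/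
def fixedBy (L : Type) [Field L] [Algebra K₀ L] [Algebra L F] [IsScalarTower K₀ L F]
    (a : GalS F K₀ →* AddMonoid.End M) : AddSubgroup M where
  carrier := {x | ∀ σ : GalS F L, a (σ.restrictScalars K₀) x = x}
  zero_mem' := fun σ => map_zero _
  add_mem' := fun {x y} hx hy σ => by rw [map_add, hx σ, hy σ]
  neg_mem' := fun {x} hx σ => by rw [map_neg, hx σ]

/-- `c` is the Kummer cocycle of a point over `L`: there is a sequence `Q₀, Q₁, ...` with
`2 Q (m + 1) = Q m`, the point `Q₀` is fixed by the Galois group of `L`, and `c σ = σ Q - Q` in `T₂ M`. -/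
def IsKum {E : Type} (L : Type) [Field E] [Algebra K₀ E] [Algebra E F] [IsScalarTower K₀ E F]
    [Field L] [Algebra K₀ L] [Algebra L F] [IsScalarTower K₀ L F]
    (a : GalS F K₀ →* AddMonoid.End M) (e : VV r →+ (ℕ → M)) (c : GalS F E → VV r) : Prop :=
  ∃ Q : ℕ → M, (∀ m, 2 • Q (m + 1) = Q m) ∧ Q 0 ∈ fixedBy L a ∧
    ∀ σ m, e (c σ) m = a (σ.restrictScalars K₀) (Q m) - Q m

/-- The 2-adic span of the Kummer cocycles. -/
noncomputable def kumSpan (E L : Type) [Field E] [Algebra K₀ E] [Algebra E F] [IsScalarTower K₀ E F]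
    [Field L] [Algebra K₀ L] [Algebra L F] [IsScalarTower K₀ L F]
    (a : GalS F K₀ →* AddMonoid.End M) (e : VV r →+ (ℕ → M)) :
    Submodule ℤ_[2] (GalS F E → VV r) :=
  Submodule.span ℤ_[2] {c | IsKum L a e c}

/-- Each class in `H¹(E, V)`, fixed by the Galois group of `L` and unramified outside `D ∞` (`IsClass`) has a
multiple which is a 2-adic combination of classes of points over `L`, up to a coboundary. If `k` is finite
and `M = A(Ω)` for an abelian variety `A` over `L`, this says that `Sha(A / L)` has a finite 2-primary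
part. -/
def FromPoints (E L : Type) [Field E] [Algebra K₀ E] [Algebra E F] [IsScalarTower K₀ E F]
    [Field L] [Algebra K₀ L] [Algebra L F] [IsScalarTower K₀ L F] {k : Type} [Field k]
    [Algebra k[X] K₀] (D : k[X]) (a : GalS F K₀ →* AddMonoid.End M) (ρ : RepS F K₀ r)
    (e : VV r →+ (ℕ → M)) : Prop :=
  ClassesFrom E L D ρ (kumSpan E L a e : Set (GalS F E → VV r))

end defs

/-- The statement: for all Galois modules `M` as in `IsMod` over `K₀ = k(s)`, and the covering `s = q(t)`,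
`K = k(t)`: (1) for each point `P` over `K` there is a point `P₀` over `K₀` such that `n P - P₀` is infinitely
2-divisible in the points over `F = k'(t)`, `n = deg q`; (2) if the group of the points over `F` is finitely
generated, there is an odd `N` such that `N P` is a point over `K₀` for each point `P` over `K`; (3) if the
2-primary part of the Tate-Shafarevich group over `K₀` is finite, in the form `FromPoints`, this holds also
over `K`. -/
def NoNewPoints {k : Type} [Field k] (q D : k[X]) : Prop :=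
  ∀ (k' K₀ F₀ K F : Type) [Field k'] [Algebra k k'] [Field K₀] [Algebra k[X] K₀]
    [Field F₀] [Algebra k'[X] F₀] [Algebra K₀ F₀] [Field K] [Algebra k[X] K] [Field F]
    [Algebra k'[X] F] [Algebra K F] [Algebra K₀ K] [Algebra F₀ F] [Algebra K₀ F]
    [IsScalarTower K₀ F₀ F] [IsScalarTower K₀ K F], IsCover k k' K₀ F₀ K F q →
    ∀ (M : Type) [AddCommGroup M] (a : GalS F K₀ →* AddMonoid.End M) (r : ℕ) (ρ : RepS F K₀ r)
      (e : VV r →+ (ℕ → M)), IsMod F₀ D a ρ e →
      (∀ P ∈ fixedBy K a, ∃ P₀ ∈ fixedBy K₀ a, InfDiv K₀ F a (q.natDegree • P - P₀)) ∧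
      ((fixedBy F a).FG → ∃ N : ℕ, Odd N ∧ ∀ P ∈ fixedBy K a, N • P ∈ fixedBy K₀ a) ∧
      (FromPoints F₀ K₀ D a ρ e → FromPoints F K D a ρ e)

section proofs

variable {r : ℕ} {K₀ F : Type} [Field K₀] [Field F] [Algebra K₀ F] {M : Type} [AddCommGroup M]

/-- The infinitely divisible elements. -/
def infDiv (a : GalS F K₀ →* AddMonoid.End M) : AddSubgroup M where
  carrier := {x | InfDiv K₀ F a x}
  zero_mem' := ⟨fun _ => 0, rfl, fun m => smul_zero _, fun m σ => map_zero _⟩
  add_mem' := by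
    rintro x y ⟨Z, h1, h2, h3⟩ ⟨Z', h1', h2', h3'⟩
    exact ⟨fun m => Z m + Z' m, by show Z 0 + Z' 0 = x + y; rw [h1, h1'],
      fun m => by rw [smul_add, h2, h2'],
      fun m σ => by rw [map_add, h3, h3']⟩
  neg_mem' := by
    rintro x ⟨Z, h1, h2, h3⟩
    exact ⟨fun m => - Z m, by show - Z 0 = - x; rw [h1], fun m => by rw [smul_neg, h2], fun m σ => by
      rw [map_neg, h3]⟩

theorem odd_kill {a : GalS F K₀ →* AddMonoid.End M} (h : (fixedBy F a).FG) :
    ∃ N : ℕ, Odd N ∧ ∀ x, InfDiv K₀ F a x → N • x = 0 := by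
  let B : Submodule ℤ M := AddSubgroup.toIntSubmodule (fixedBy F a)
  let D₂ : Submodule ℤ M := AddSubgroup.toIntSubmodule (infDiv a)
  have hB : B.FG := (Submodule.fg_iff_addSubgroup_fg B).2 (by
    show (AddSubgroup.toIntSubmodule (fixedBy F a)).toAddSubgroup.FG
    rw [AddSubgroup.toIntSubmodule_toAddSubgroup]
    exact h)
  have hle : D₂ ≤ B := by
    rintro x ⟨Z, h1, h2, h3⟩ σ
    rw [← h1]
    exact h3 0 σ
  have hD : D₂.FG := Submodule.FG.of_le hB hle
  have hN : D₂ ≤ (Ideal.span {(2 : ℤ)} : Ideal ℤ) • D₂ := by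
    rintro x ⟨Z, h1, h2, h3⟩
    rw [← h1, ← h2 0]
    have h4 : Z 1 ∈ D₂ := ⟨fun m => Z (m + 1), rfl, fun m => h2 (m + 1), fun m => h3 (m + 1)⟩
    have h5 := Submodule.smul_mem_smul (Ideal.mem_span_singleton_self (2 : ℤ)) h4
    have h6 : (2 : ℤ) • Z 1 = 2 • Z (0 + 1) := by
      rw [zero_add, two_smul, two_nsmul]
    rwa [h6] at h5
  obtain ⟨z, hz, hz'⟩ := Submodule.exists_sub_one_mem_and_smul_eq_zero_of_fg_of_le_smul _ D₂ hD hN
  obtain ⟨w, hw⟩ := Ideal.mem_span_singleton.1 hz
  refine ⟨z.natAbs, ?_, fun x hx => ?_⟩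
  · rw [Int.natAbs_odd]
    exact ⟨w, by linarith⟩
  · have h7 := hz' x hx
    rcases Int.natAbs_eq z with h8 | h8
    · rw [h8, natCast_zsmul] at h7
      exact h7
    · rw [h8, neg_smul, natCast_zsmul, neg_eq_zero] at h7
      exact h7

end proofs

theorem noNewPoints {k : Type} [Field k] {q D : k[X]} (h2 : (2 : k) ≠ 0) (hq : derivative q ≠ 0)
    (hodd : Odd q.natDegree) (hD : D ≠ 0) (hO : OnePt D q) : NoNewPoints q D := by
  intro k' K₀ F₀ K F _ _ _ _ _ _ _ _ _ _ _ _ _ _ _ _ _ hC M _ a r ρ e hM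
  have hpts : ∀ P ∈ fixedBy K a, ∃ P₀ ∈ fixedBy K₀ a, InfDiv K₀ F a (q.natDegree • P - P₀) := by
    intro P hP
    obtain ⟨P₀, h3, h4⟩ := points hC h2 hq hodd hD hO hM hP
    exact ⟨P₀, fun σ => h3 (σ.restrictScalars K₀), h4⟩
  refine ⟨hpts, ?_, ?_⟩
  · intro hfg
    obtain ⟨N, hN, h3⟩ := odd_kill hfg
    refine ⟨N * q.natDegree, hN.mul hodd, fun P hP => ?_⟩
    obtain ⟨P₀, h4, h5⟩ := hpts P hP
    have h6 := h3 _ h5
    rw [smul_sub, sub_eq_zero] at h6
    rw [mul_smul, h6]
    exact (fixedBy K₀ a).nsmul_mem h4 N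
  · intro h
    refine (noNew h2 hq hodd hD hO k' K₀ F₀ K F hC r ρ hM.rep).2 _ _ ?_ h
    intro c hc
    refine Submodule.span_induction (p := fun c _ => res c ∈ (kumSpan F K a e : Set _))
      ?_ ?_ ?_ ?_ hc
    · rintro c ⟨Q, h3, h4, h5⟩
      apply Submodule.subset_span
      refine ⟨Q, h3, fun τ => h4 (τ.restrictScalars K₀), fun σ m => h5 (σ.restrictScalars F₀) m⟩
    · exact (kumSpan F K a e).zero_mem
    · intro x y _ _ hx hy
      exact (kumSpan F K a e).add_mem hx hy
    · intro z x _ hx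
      exact (kumSpan F K a e).smul_mem z hx

end Pool.Agent.N181.TF.St
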