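import Pool.Agent.N181.TF.Pts

/-!
The points of Galois modules in coverings of the line: the theorem.
-/

set_option autoImplicit false
set_option linter.all false

open Polynomial Filter Topology
open scoped Classical

namespace Pool.Agent.N181.TF.St

open Pool.Agent.TH115.GD (Sep Preserves preserves)
open Pool.Agent.N181.TF

section odd

variable {r : ℕ} {k k' K₀ F₀ K F : Type} [Field k] [Field k'] [Algebra k k'] [Field K₀]
    [Algebra k[X] K₀] [Field F₀] [Algebra k'[X] F₀] [Algebra K₀ F₀] [Field K] [Algebra k[X] K]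
    [Field F] [Algebra k'[X] F] [Algebra K F] [Algebra K₀ K] [Algebra F₀ F] [Algebra K₀ F]
    [IsScalarTower K₀ F₀ F] [IsScalarTower K₀ K F] {q : k[X]} {D : k[X]}
    {M : Type} [AddCommGroup M] {a : GalS F K₀ →* AddMonoid.End M}
    {ρ : RepS F K₀ r} {e : VV r →+ (ℕ → M)}

/-- A cochain is zero when its values in `M` are zero. -/
theorem kum_fix (hM : IsMod F₀ D a ρ e) {c : GalS F F₀ → VV r} {Q : ℕ → M}
    (h2 : ∀ m, 2 • Q (m + 1) = Q m) (h0 : ∀ g ∈ HH F₀ F, a (rsH K₀ F₀ F g) (Q 0) = Q 0)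
    (hc : ∀ g ∈ HH F₀ F, ∀ m, e (c g) m = a (rsH K₀ F₀ F g) (Q m) - Q m)
    (hI₀ : Algebra.IsIntegral F₀ (Sep F)) : Nc k K₀ F₀ F D c := by
  haveI := hI₀
  constructor
  · intro m
    have h3 := (tendsto_rs (K := K₀) (L := F₀) (Ω := Sep F)).eventually (hM.disc (Q m))
    filter_upwards [h3] with g hg hH
    apply hM.div_e
    rw [hc g hH m]
    exact sub_eq_zero.2 hg
  · intro g hg hd
    apply hM.inj
    rw [map_zero]
    funext m
    rw [hc g hg m]
    exact sub_eq_zero.2 (hM.fix hd (h0 g hg) h2 m)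

theorem nice_of (hρ : TF.IsRep F₀ D ρ) (hI₀ : Algebra.IsIntegral F₀ (Sep F))
    (hopen : ∀ᶠ g in 𝓝 (1 : Sep F ≃ₐ[F₀] Sep F), g ∈ HH F₀ F)
    [Fintype ((Sep F ≃ₐ[F₀] Sep F) ⧸ HH F₀ F)]
    {c : GalS F F₀ → VV r} (hcoc : Coc (rhoG F₀ ρ) (HH F₀ F) c) (hnc : Nc k K₀ F₀ F D c) :
    Nc k K₀ F₀ F D (fun g => Fintype.card ((Sep F ≃ₐ[F₀] Sep F) ⧸ HH F₀ F) •
        c g - tr (rhoG F₀ ρ) (HH F₀ F) c g) := by
  constructor
  · intro m
    filter_upwards [hnc.1 m, tr_div hI₀ hρ.cont hopen hcoc hnc m] with g h1 h3 hg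
    obtain ⟨w1, hw1⟩ := h1 hg
    obtain ⟨w2, hw2⟩ := h3
    refine ⟨Fintype.card ((Sep F ≃ₐ[F₀] Sep F) ⧸ HH F₀ F) • w1 - w2, ?_⟩
    rw [hw1, hw2, smul_sub, smul_comm]
  · intro g hg h
    show _ • c g - tr (rhoG F₀ ρ) (HH F₀ F) c g = 0
    rw [hnc.2 g hg h, tr_unr hρ.unr hcoc hnc h, smul_zero, sub_zero]

/-- A point is infinitely 2-divisible in the points over `F`. -/
def InfDiv (K₀ F : Type) [Field K₀] [Field F] [Algebra K₀ F] {M : Type} [AddCommGroup M]
    (a : GalS F K₀ →* AddMonoid.End M) (x : M) : Prop :=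
  ∃ Z : ℕ → M, Z 0 = x ∧ (∀ m, 2 • Z (m + 1) = Z m) ∧
    ∀ m, ∀ σ : GalS F F, a (σ.restrictScalars K₀) (Z m) = Z m

theorem points (hC : IsCover k k' K₀ F₀ K F q) (h2 : (2 : k) ≠ 0) (hq : derivative q ≠ 0)
    (hodd : Odd q.natDegree) (hD : D ≠ 0) (hO : OnePt D q) (hM : IsMod F₀ D a ρ e) {P : M}
    (hP : ∀ τ : GalS F K, a (τ.restrictScalars K₀) P = P) :
    ∃ P₀ : M, (∀ τ : GalS F K₀, a τ P₀ = P₀) ∧ InfDiv K₀ F a (q.natDegree • P - P₀) := by
  obtain ⟨i1, i2, i3⟩ := sepF₀ hC hq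
  haveI := i1
  haveI := hC.fracF₀
  haveI := hC.fracF
  haveI := hC.bot.sep
  haveI := hC.bot.fracK
  haveI := hC.top.fracK
  haveI : Algebra.IsSeparable F₀ (Sep F) := IsSepClosure.separable
  haveI : Algebra.IsSeparable F (Sep F) := IsSepClosure.separable
  have hI₀ : Algebra.IsIntegral F₀ (Sep F) := inferInstance
  have hI : Algebra.IsIntegral F (Sep F) := inferInstance
  have hN : Preserves K₀ F₀ (Sep F) := preserves hC.bot.map
  have hPr : Preserves K F (Sep F) := preserves hC.top.map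
  have hidx := index_eq hC hq
  haveI : (HH F₀ F).FiniteIndex := ⟨by rw [hidx]; exact hodd.pos.ne'⟩
  haveI : Fintype ((Sep F ≃ₐ[F₀] Sep F) ⧸ HH F₀ F) := Fintype.ofFinite _
  have hcard : Fintype.card ((Sep F ≃ₐ[F₀] Sep F) ⧸ HH F₀ F) = q.natDegree := by
    rw [← hidx, Subgroup.index_eq_card, Nat.card_eq_fintype_card]
  have hρ : TF.IsRep F₀ D ρ := isRep_iff hM.rep
  have hH := hyp_of hC h2 hq hodd hD hO hρ hN hPr hI hI₀ hcard
  have hopen := open_of (F₀ := F₀) (F := F) hI₀ i3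
  have hconj := conj_of (ρ := ρ) hN hPr
  -- the action
  set A : GalS F F₀ →* AddMonoid.End M := a.comp (rsH K₀ F₀ F) with hAdef
  have hA : ∀ (g : GalS F F₀) (x : M), A g x = a (rsH K₀ F₀ F g) x := fun g x => rfl
  have hAe : ∀ (g : GalS F F₀) (v : VV r) (m : ℕ), e (rhoG F₀ ρ g v) m = A g (e v m) :=
    fun g v m => hM.equi (rsH K₀ F₀ F g) v m
  -- the divided points
  choose dv hdv using hM.div
  let Q : ℕ → M := fun m => Nat.rec P (fun _ x => dv x) m
  have hQ0 : Q 0 = P := rfl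
  have hQ : ∀ m, 2 • Q (m + 1) = Q m := fun m => hdv (Q m)
  have hHP : ∀ g ∈ HH F₀ F, A g P = P := by
    intro g hg
    exact hP ((toF g hg).restrictScalars K)
  have hex : ∀ g ∈ HH F₀ F, ∃ v, e v = fun m => A g (Q m) - Q m := by
    intro g hg
    rw [hM.range]
    refine ⟨?_, fun m => ?_⟩
    · show A g (Q 0) - Q 0 = 0
      rw [hQ0, hHP g hg, sub_self]
    · show 2 • (A g (Q (m + 1)) - Q (m + 1)) = A g (Q m) - Q m
      rw [smul_sub, ← map_nsmul, hQ]
  let c : GalS F F₀ → VV r := fun g => if h : g ∈ HH F₀ F then (hex g h).choose else 0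
  have hc : ∀ g ∈ HH F₀ F, ∀ m, e (c g) m = A g (Q m) - Q m := by
    intro g hg m
    have h1 : c g = (hex g hg).choose := dif_pos hg
    rw [h1, (hex g hg).choose_spec]
  have hcoc : Coc (rhoG F₀ ρ) (HH F₀ F) c := by
    intro g hg h hh
    apply hM.inj
    funext m
    rw [map_add, Pi.add_apply, hAe, hc g hg, hc h hh, hc _ ((HH F₀ F).mul_mem hg hh), map_sub,
      rho_mul]
    abel
  have hnc : Nc k K₀ F₀ F D c := kum_fix hM hQ (fun g hg => hHP g hg) hc hI₀
  have hinv : ∀ τ : GalS F K, ∃ (m : ℕ) (v : VV r), ∀ h ∈ HH F₀ F,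
      2 ^ m • (cj (cjG hN (τ.restrictScalars K₀)) (rhoE ρ (τ.restrictScalars K₀)) c h - c h) =
        cob (rhoG F₀ ρ) v h := by
    intro τ
    obtain ⟨u, hu⟩ := (hM.range fun m => a (τ.restrictScalars K₀) (Q m) - Q m).2 ⟨by
      show a (τ.restrictScalars K₀) (Q 0) - Q 0 = 0
      rw [hQ0, hP τ, sub_self], fun m => by
      show 2 • (a (τ.restrictScalars K₀) (Q (m + 1)) - Q (m + 1)) =
        a (τ.restrictScalars K₀) (Q m) - Q m
      rw [smul_sub, ← map_nsmul, hQ]⟩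
    have hu' : ∀ m, e u m = a (τ.restrictScalars K₀) (Q m) - Q m := fun m => congrFun hu m
    refine ⟨0, u, fun h hh => hM.inj ?_⟩
    funext m
    have h1 : (cjG hN (τ.restrictScalars K₀)).symm h ∈ HH F₀ F := by
      rw [hconj.hH τ]
      show cjG hN (τ.restrictScalars K₀) ((cjG hN (τ.restrictScalars K₀)).symm h) ∈ HH F₀ F
      rw [MulEquiv.apply_symm_apply]
      exact hh
    have h3 : e (@DFunLike.coe (VV r →+ VV r) (VV r) (fun _ => VV r) _
        (rhoE ρ (τ.restrictScalars K₀)) (c ((cjG hN (τ.restrictScalars K₀)).symm h))) m =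
        a (τ.restrictScalars K₀) (e (c ((cjG hN (τ.restrictScalars K₀)).symm h)) m) :=
      hM.equi (τ.restrictScalars K₀) (c ((cjG hN (τ.restrictScalars K₀)).symm h)) m
    have h4 : a (τ.restrictScalars K₀) (A ((cjG hN (τ.restrictScalars K₀)).symm h) (Q m)) =
        A h (a (τ.restrictScalars K₀) (Q m)) := by
      have h5 : τ.restrictScalars K₀ * rsH K₀ F₀ F ((cjG hN (τ.restrictScalars K₀)).symm h) =
          rsH K₀ F₀ F h * τ.restrictScalars K₀ := by
        apply AlgEquiv.ext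
        intro x
        show τ (τ.symm (h (τ x))) = h (τ x)
        rw [τ.apply_symm_apply]
      rw [hA, hA, ← rho_mul, ← rho_mul, h5]
    rw [pow_zero, one_smul]
    unfold cj cob
    rw [map_sub, map_sub, Pi.sub_apply, Pi.sub_apply, h3, hc _ h1, hc _ hh, hAe, hu', map_sub, h4,
      map_sub]
    abel
  obtain ⟨w, hw⟩ := main_tr hH hcoc (nice_of hρ hI₀ hopen hcoc hnc) hinv
  -- the sequence
  set S : ℕ → M := fun m => ∑ x : (GalS F F₀) ⧸ HH F₀ F,
    (A x.out (Q m) - e (ext (rhoG F₀ ρ) (HH F₀ F) c x.out) m) with hS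
  have hS2 : ∀ m, 2 • S (m + 1) = S m := by
    intro m
    show 2 • ∑ x : (GalS F F₀) ⧸ HH F₀ F, (A x.out (Q (m + 1)) -
      e (ext (rhoG F₀ ρ) (HH F₀ F) c x.out) (m + 1)) = ∑ x : (GalS F F₀) ⧸ HH F₀ F,
      (A x.out (Q m) - e (ext (rhoG F₀ ρ) (HH F₀ F) c x.out) m)
    rw [Finset.smul_sum]
    refine Finset.sum_congr rfl fun x _ => ?_
    rw [smul_sub, ← map_nsmul, hQ, hM.two]
  have hS0 : S 0 = ∑ x : (GalS F F₀) ⧸ HH F₀ F, A x.out P := by
    show ∑ x : (GalS F F₀) ⧸ HH F₀ F,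
      (A x.out (Q 0) - e (ext (rhoG F₀ ρ) (HH F₀ F) c x.out) 0) = _
    refine Finset.sum_congr rfl fun x _ => ?_
    rw [hM.zero, sub_zero, hQ0]
  have hfinv : ∀ g, ∀ h ∈ HH F₀ F, A (g * h) P = A g P := by
    intro g h hh
    rw [rho_mul, hHP h hh]
  refine ⟨S 0, ?_, fun m => q.natDegree • Q m - S m - e w m, ?_, ?_, ?_⟩
  · intro τ
    obtain ⟨δ, g, hδ⟩ := decomp hC i1 τ
    have h4 : τ = δ.restrictScalars K₀ * rsH K₀ F₀ F g := AlgEquiv.ext fun x => hδ x
    have h5 : A g (S 0) = S 0 := by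
      rw [hS0, map_sum]
      have h6 := inv_sum' (H := HH F₀ F) g (fun g => A g P) hfinv
      refine Eq.trans (Finset.sum_congr rfl fun x _ => ?_) h6
      rw [rho_mul]
    have h7 : a (δ.restrictScalars K₀) (S 0) = S 0 := by
      rw [hS0, map_sum]
      have h6 := conj_sum (H := HH F₀ F) (cjG hN (δ.restrictScalars K₀)) (hconj.hH δ)
        (fun g => A g P) hfinv
      refine Eq.trans (Finset.sum_congr rfl fun x _ => ?_) h6
      have h8 : δ.restrictScalars K₀ * rsH K₀ F₀ F x.out =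
          rsH K₀ F₀ F (cjG hN (δ.restrictScalars K₀) x.out) * δ.restrictScalars K₀ := by
        apply AlgEquiv.ext
        intro y
        show δ (x.out y) = δ (x.out (δ.symm (δ y)))
        rw [δ.symm_apply_apply]
      rw [hA, ← rho_mul, h8, rho_mul, hP δ]
      rfl
    rw [h4, rho_mul]
    show a (δ.restrictScalars K₀) (A g (S 0)) = S 0
    rw [h5, h7]
  · show q.natDegree • Q 0 - S 0 - e w 0 = q.natDegree • P - S 0
    rw [hM.zero, sub_zero, hQ0]
  · intro m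
    show 2 • (q.natDegree • Q (m + 1) - S (m + 1) - e w (m + 1)) =
      q.natDegree • Q m - S m - e w m
    rw [smul_sub, smul_sub, smul_comm, hQ, hS2, hM.two]
  · intro m σ
    have h1 := hw _ (rs_mem (F₀ := F₀) σ)
    have h3 : e (Fintype.card ((GalS F F₀) ⧸ HH F₀ F) • c (σ.restrictScalars F₀)) m =
        e (tr (rhoG F₀ ρ) (HH F₀ F) c (σ.restrictScalars F₀) +
          cob (rhoG F₀ ρ) w (σ.restrictScalars F₀)) m := congrArg (fun v => e v m) h1
    rw [map_nsmul, Pi.smul_apply, hc _ (rs_mem σ), map_add, Pi.add_apply,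
      tr_kum hAe hcoc hc, hcard] at h3
    unfold cob at h3
    rw [map_sub, Pi.sub_apply, hAe] at h3
    have h5 : ∀ x, a (σ.restrictScalars K₀) x = A (σ.restrictScalars F₀) x := fun x => rfl
    show a (σ.restrictScalars K₀) (q.natDegree • Q m - S m - e w m) =
      q.natDegree • Q m - S m - e w m
    rw [h5, map_sub, map_sub, map_nsmul, ← sub_eq_zero]
    rw [smul_sub, ← sub_eq_zero] at h3
    rw [← h3]
    abel

end odd

end Pool.Agent.N181.TF.St
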