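import Pool.Agent.N181.TF.Lim
import Mathlib.RingTheory.Invariant.Profinite

/-!
Ramification in a quadratic extension.
-/

set_option autoImplicit false
set_option linter.all false

open Polynomial IsDedekindDomain
open scoped Classical Pointwise

namespace Pool.Agent.N181.TF

/-- The subring of the elements which are integral for a ring homomorphism. -/
def BB {A Ω : Type} [CommRing A] [CommRing Ω] (f : A →+* Ω) : Subring Ω where
  carrier := {x | f.IsIntegralElem x}
  mul_mem' := fun h1 h2 => RingHom.IsIntegralElem.mul f h1 h2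
  one_mem' := RingHom.isIntegralElem_one f
  add_mem' := fun h1 h2 => RingHom.IsIntegralElem.add f h1 h2
  zero_mem' := RingHom.isIntegralElem_zero f
  neg_mem' := fun h => RingHom.IsIntegralElem.neg f h

section ram

variable {k' F Ω : Type} [Field k'] [Field F] [Algebra k'[X] F] [IsFractionRing k'[X] F]
  [Field Ω] [Algebra F Ω] [IsGalois F Ω]

/-- The structure homomorphism. -/
noncomputable def gg (k' F Ω : Type) [Field k'] [Field F] [Algebra k'[X] F] [Field Ω]
    [Algebra F Ω] : k'[X] →+* Ω := (algebraMap F Ω).comp (algebraMap k'[X] F)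

theorem act_BB (σ : Ω ≃ₐ[F] Ω) {x : Ω} (hx : x ∈ BB (gg k' F Ω)) : σ x ∈ BB (gg k' F Ω) := by
  obtain ⟨p, hp, h⟩ := hx
  refine ⟨p, hp, ?_⟩
  have h1 := congrArg σ h
  rw [map_zero] at h1
  rw [← h1]
  have h2 : (σ : Ω →+* Ω).comp (gg k' F Ω) = gg k' F Ω := by
    ext x
    · show σ (algebraMap F Ω _) = algebraMap F Ω _
      exact σ.commutes _
    · show σ (algebraMap F Ω _) = algebraMap F Ω _
      exact σ.commutes _
  have h3 := Polynomial.hom_eval₂ p (gg k' F Ω) (σ : Ω →+* Ω) x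
  rw [h2] at h3
  exact h3.symm

theorem exists_poly {z : F} (hz : algebraMap F Ω z ∈ BB (gg k' F Ω)) :
    ∃ p : k'[X], algebraMap k'[X] F p = z := by
  obtain ⟨p, hp, h⟩ := hz
  have h1 : IsIntegral k'[X] z := by
    refine ⟨p, hp, (algebraMap F Ω).injective ?_⟩
    rw [map_zero, Polynomial.hom_eval₂]
    exact h
  exact IsIntegrallyClosed.algebraMap_eq_of_integral h1

set_option maxHeartbeats 1000000 in
theorem ram (h2 : (2 : F) ≠ 0) {v : HeightOneSpectrum k'[X]} {a : F} {α : Ω} (ha : a ≠ 0)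
    (hα : α ^ 2 = algebraMap F Ω a) (hpar : ¬ IsSquare (v.valuation F a)) :
    ∃ Q : Ideal (BB (gg k' F Ω)), Q.IsPrime ∧
      (∀ (p : k'[X]) (h : gg k' F Ω p ∈ BB (gg k' F Ω)),
        (⟨gg k' F Ω p, h⟩ : BB (gg k' F Ω)) ∈ Q ↔ p ∈ v.asIdeal) ∧
      ∃ σ : Ω ≃ₐ[F] Ω, σ α = -α ∧
        ∀ x y : BB (gg k' F Ω), (y : Ω) = σ x → (x ∈ Q ↔ y ∈ Q) := by
  set B := BB (gg k' F Ω) with hB
  have inj : Function.Injective (gg k' F Ω) :=
    (algebraMap F Ω).injective.comp (IsFractionRing.injective k'[X] F)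
  have hmem : ∀ p : k'[X], gg k' F Ω p ∈ B := fun p => by
    refine ⟨X - C p, monic_X_sub_C p, ?_⟩
    rw [eval₂_sub, eval₂_X, eval₂_C, sub_self]
  -- the prime ideal
  letI : Algebra k'[X] B := ((gg k' F Ω).codRestrict B hmem).toAlgebra
  have hmap : ∀ p : k'[X], algebraMap k'[X] B p = ⟨gg k' F Ω p, hmem p⟩ := fun p => rfl
  haveI : Algebra.IsIntegral k'[X] B := ⟨fun x => by
    obtain ⟨p, hp, h⟩ := x.2
    refine ⟨p, hp, Subtype.ext ?_⟩
    have h3 := Polynomial.hom_eval₂ p (algebraMap k'[X] B) B.subtype x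
    exact h3.trans h⟩
  have hker : RingHom.ker (algebraMap k'[X] B) ≤ v.asIdeal := by
    intro p hp
    have h1 : gg k' F Ω p = 0 := congrArg Subtype.val hp
    have h3 : p = 0 := inj (by rw [h1, map_zero])
    rw [h3]; exact v.asIdeal.zero_mem
  haveI := v.isPrime
  obtain ⟨Q, hQp, hQ⟩ := Ideal.exists_ideal_over_prime_of_isIntegral_of_isDomain (S := B)
    v.asIdeal hker
  haveI := hQp
  have hQmem : ∀ (p : k'[X]) (h : gg k' F Ω p ∈ B), (⟨gg k' F Ω p, h⟩ : B) ∈ Q ↔
      p ∈ v.asIdeal := by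
    intro p h
    rw [← hQ]
    rfl
  -- the quadratic extension
  have hα0 : α ≠ 0 := by
    rintro rfl
    rw [zero_pow two_ne_zero] at hα
    exact ha ((_root_.map_eq_zero _).1 hα.symm)
  have hαF : ∀ z : F, algebraMap F Ω z ≠ α := by
    intro z hz
    apply hpar
    have h1 : a = z ^ 2 := (algebraMap F Ω).injective (by rw [map_pow, hz, hα])
    rw [h1, map_pow, pow_two]
    exact ⟨_, rfl⟩
  have h2Ω : (2 : Ω) ≠ 0 := by
    rw [← map_ofNat (algebraMap F Ω) 2]
    exact (_root_.map_ne_zero _).2 h2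
  have hsgn : ∀ σ : Ω ≃ₐ[F] Ω, σ α = α ∨ σ α = -α := by
    intro σ
    apply sq_eq_sq_iff_eq_or_eq_neg.1
    rw [← map_pow, hα, σ.commutes]
  obtain ⟨σ₀, hσ₀⟩ : ∃ σ₀ : Ω ≃ₐ[F] Ω, σ₀ α = -α := by
    by_contra hcon
    push Not at hcon
    have h1 : α ∈ Set.range (algebraMap F Ω) := by
      rw [InfiniteGalois.mem_range_algebraMap_iff_fixed]
      intro σ
      exact (hsgn σ).resolve_right (hcon σ)
    obtain ⟨z, hz⟩ := h1
    exact hαF z hz
  set F₁ := IntermediateField.adjoin F {α} with hF₁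
  have hα1 : α ∈ F₁ := IntermediateField.mem_adjoin_simple_self F α
  -- the action
  have hst : ∀ (σ : Ω ≃ₐ[F₁] Ω) (x : B), σ (x : Ω) ∈ B := fun σ x =>
    act_BB (σ.restrictScalars F) x.2
  letI : MulSemiringAction (Ω ≃ₐ[F₁] Ω) B :=
    { smul := fun σ x => ⟨σ x, hst σ x⟩
      one_smul := fun x => Subtype.ext rfl
      mul_smul := fun σ τ x => Subtype.ext rfl
      smul_zero := fun σ => Subtype.ext (map_zero σ)
      smul_add := fun σ x y => Subtype.ext (map_add σ _ _)
      smul_one := fun σ => Subtype.ext (map_one σ)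
      smul_mul := fun σ x y => Subtype.ext (map_mul σ _ _) }
  have hsm : ∀ (σ : Ω ≃ₐ[F₁] Ω) (x : B), ((σ • x : B) : Ω) = σ x := fun σ x => rfl
  letI : TopologicalSpace B := ⊥
  haveI : DiscreteTopology B := ⟨rfl⟩
  haveI : ContinuousSMul (Ω ≃ₐ[F₁] Ω) B := by
    rw [continuousSMul_iff_stabilizer_isOpen]
    intro x
    have h1 := stabilizer_isOpen_of_isIntegral (K := F₁) (L := Ω) (x : Ω)
    convert h1 using 2
    ext σ
    rw [MulAction.mem_stabilizer_iff, MulAction.mem_stabilizer_iff]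
    constructor
    · intro h
      exact congrArg Subtype.val h
    · intro h
      exact Subtype.ext h
  set A : Subring B := {
    carrier := {x | ∀ σ : Ω ≃ₐ[F₁] Ω, σ • x = x}
    mul_mem' := fun {x y} h1 h3 σ => by rw [smul_mul', h1, h3]
    one_mem' := fun σ => smul_one σ
    add_mem' := fun {x y} h1 h3 σ => by rw [smul_add, h1, h3]
    zero_mem' := fun σ => smul_zero σ
    neg_mem' := fun {x} h1 σ => by rw [smul_neg, h1] } with hA
  haveI : SMulCommClass (Ω ≃ₐ[F₁] Ω) A B := ⟨fun σ x y => by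
    show σ • ((x : B) * y) = (x : B) * (σ • y)
    rw [smul_mul', x.2 σ]⟩
  haveI : Algebra.IsInvariant A B (Ω ≃ₐ[F₁] Ω) := ⟨fun b hb => ⟨⟨b, hb⟩, rfl⟩⟩
  -- the conjugate ideal
  have hst0 : ∀ (x : B), σ₀ (x : Ω) ∈ B := fun x => act_BB σ₀ x.2
  let s0 : B →+* B :=
    { toFun := fun x => ⟨σ₀ x, hst0 x⟩
      map_one' := Subtype.ext (map_one σ₀)
      map_mul' := fun x y => Subtype.ext (map_mul σ₀ _ _)
      map_zero' := Subtype.ext (map_zero σ₀)
      map_add' := fun x y => Subtype.ext (map_add σ₀ _ _) }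
  set Q' : Ideal B := Q.comap s0 with hQ'
  haveI : Q'.IsPrime := Ideal.comap_isPrime s0 Q
  have hunder : Q'.under A = Q.under A := by
    ext z
    show s0 (z : B) ∈ Q ↔ (z : B) ∈ Q
    -- the difference is in `Q`
    have hw : (z : B) - s0 (z : B) ∈ Q := by
      set x : Ω := ((z : B) : Ω) with hx
      have hfix : ∀ σ : Ω ≃ₐ[F] Ω, σ α = α → σ x = x := by
        intro σ hσ
        have h1 : σ ∈ F₁.fixingSubgroup := by
          rw [IntermediateField.mem_fixingSubgroup_iff]
          intro y hy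
          have h3 : F₁ ≤ IntermediateField.fixedField (Subgroup.zpowers σ) := by
            rw [hF₁, IntermediateField.adjoin_simple_le_iff, IntermediateField.mem_fixedField_iff]
            rintro f hf
            obtain ⟨n, rfl⟩ := Subgroup.mem_zpowers_iff.1 hf
            have h4 : σ ∈ MulAction.stabilizer (Ω ≃ₐ[F] Ω) α := hσ
            exact (Subgroup.zpow_mem _ h4 n : (σ ^ n) ∈ MulAction.stabilizer (Ω ≃ₐ[F] Ω) α)
          exact (IntermediateField.mem_fixedField_iff _ _).1 (h3 hy) σ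
            (Subgroup.mem_zpowers σ)
        let τ : Ω ≃ₐ[F₁] Ω := AlgEquiv.ofRingEquiv (f := σ.toRingEquiv) (fun y =>
          (IntermediateField.mem_fixingSubgroup_iff _ _).1 h1 y y.2)
        exact congrArg Subtype.val (z.2 τ)
      have hx2 : ∀ σ : Ω ≃ₐ[F] Ω, σ ((x - σ₀ x) / α) = (x - σ₀ x) / α := by
        intro σ
        rw [map_div₀, map_sub]
        rcases hsgn σ with h | h
        · have h3 : σ (σ₀ x) = σ₀ x := by
            have h4 : (σ₀⁻¹ * σ * σ₀) α = α := by
              show σ₀.symm (σ (σ₀ α)) = α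
              rw [hσ₀, map_neg σ, h, AlgEquiv.symm_apply_eq, hσ₀]
            have h5 := hfix _ h4
            have h6 : σ₀.symm (σ (σ₀ x)) = x := h5
            rw [AlgEquiv.symm_apply_eq] at h6
            exact h6
          rw [hfix σ h, h3, h]
        · have h3 : σ x = σ₀ x := by
            have h4 : (σ₀⁻¹ * σ) α = α := by
              show σ₀.symm (σ α) = α
              rw [h, AlgEquiv.symm_apply_eq, hσ₀]
            have h5 : σ₀.symm (σ x) = x := hfix _ h4
            rw [AlgEquiv.symm_apply_eq] at h5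
            exact h5
          have h6 : σ (σ₀ x) = x := by
            apply hfix (σ * σ₀)
            show σ (σ₀ α) = α
            rw [hσ₀, map_neg, h, neg_neg]
          rw [h3, h6, h, div_neg, ← neg_div]
          congr 1
          ring
      obtain ⟨y, hy⟩ : (x - σ₀ x) / α ∈ Set.range (algebraMap F Ω) := by
        rw [InfiniteGalois.mem_range_algebraMap_iff_fixed]
        exact hx2
      have hxy : x - σ₀ x = algebraMap F Ω y * α := by
        rw [hy, div_mul_cancel₀ _ hα0]
      by_cases hy0 : y = 0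
      · have h3 : (z : B) - s0 (z : B) = 0 := Subtype.ext (by
          show x - σ₀ x = 0
          rw [hxy, hy0, map_zero, zero_mul])
        rw [h3]
        exact Q.zero_mem
      · have hsq : (((z : B) - s0 (z : B)) ^ 2 : B) ∈ Q := by
          have h3 : (((((z : B) - s0 (z : B)) ^ 2 : B)) : Ω) = algebraMap F Ω (y ^ 2 * a) := by
            show (x - σ₀ x) ^ 2 = _
            rw [hxy, mul_pow, hα, map_mul, map_pow]
          obtain ⟨p, hp⟩ := exists_poly (k' := k') (Ω := Ω) (z := y ^ 2 * a) (by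
            rw [← h3]; exact Subtype.mem _)
          have h4 : (((z : B) - s0 (z : B)) ^ 2 : B) = ⟨gg k' F Ω p, hmem p⟩ := Subtype.ext (by
            rw [h3, ← hp]; rfl)
          rw [h4, hQmem]
          by_contra hpv
          have h5 : v.valuation F (algebraMap k'[X] F p) = 1 := by
            rw [v.valuation_of_algebraMap, HeightOneSpectrum.intValuation_eq_one_iff]
            exact hpv
          rw [hp, map_mul, map_pow] at h5
          apply hpar
          have h6 : v.valuation F y ≠ 0 := (Valuation.ne_zero_iff _).2 hy0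
          refine ⟨(v.valuation F y)⁻¹, ?_⟩
          rw [← mul_inv, ← pow_two]
          exact eq_inv_of_mul_eq_one_right h5
        exact hQp.mem_of_pow_mem 2 hsq
    constructor
    · intro h
      have := Q.add_mem hw h
      rwa [sub_add_cancel] at this
    · intro h
      have := Q.sub_mem h hw
      rwa [sub_sub_cancel] at this
  obtain ⟨g, hg⟩ := Algebra.IsInvariant.exists_smul_of_under_eq_of_profinite (A := A) (B := B)
    (G := (Ω ≃ₐ[F₁] Ω)) Q' Q hunder
  -- `Q = g Q'`
  have hgmem : ∀ x : B, x ∈ Q' ↔ g • x ∈ Q := by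
    intro x
    rw [hg]
    exact (Ideal.smul_mem_pointwise_smul_iff).symm
  refine ⟨Q, hQp, hQmem, σ₀ * ((g⁻¹ : Ω ≃ₐ[F₁] Ω).restrictScalars F), ?_, ?_⟩
  · show σ₀ ((g⁻¹ : Ω ≃ₐ[F₁] Ω) α) = -α
    have h3 : (g⁻¹ : Ω ≃ₐ[F₁] Ω) α = α := (g⁻¹ : Ω ≃ₐ[F₁] Ω).commutes ⟨α, hα1⟩
    rw [h3, hσ₀]
  · intro x y hxy
    have h3 : y = s0 (g⁻¹ • x) := Subtype.ext (by rw [hxy]; rfl)
    have h4 := hgmem (g⁻¹ • x)
    rw [smul_inv_smul] at h4
    rw [← h4, h3]
    rfl

end ram

end Pool.Agent.N181.TF
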