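import Pool.Agent.N181.TF.Stmt

/-!
The points of Galois modules in coverings of the line.
-/

set_option autoImplicit false
set_option linter.all false

open Polynomial Filter Topology
open scoped Classical

namespace Pool.Agent.N181.TF

section generic

variable {G M : Type} [Group G] [AddCommGroup M] {H : Subgroup G} [Fintype (G ⧸ H)]

theorem conj_sum (α : G ≃* G) (hα : ∀ g, g ∈ H ↔ α g ∈ H) (f : G → M)
    (hf : ∀ g, ∀ h ∈ H, f (g * h) = f g) :
    ∑ x : G ⧸ H, f (α x.out) = ∑ x : G ⧸ H, f x.out := by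
  have h1 : ∀ g h : G, (QuotientGroup.mk g : G ⧸ H) = QuotientGroup.mk h →
      (QuotientGroup.mk (α.symm g) : G ⧸ H) = QuotientGroup.mk (α.symm h) := by
    intro g h e
    rw [QuotientGroup.eq] at e ⊢
    rw [hα, map_mul, map_inv, α.apply_symm_apply, α.apply_symm_apply]
    exact e
  have h1' : ∀ g h : G, (QuotientGroup.mk g : G ⧸ H) = QuotientGroup.mk h →
      (QuotientGroup.mk (α g) : G ⧸ H) = QuotientGroup.mk (α h) := by
    intro g h e
    rw [QuotientGroup.eq] at e ⊢
    rw [← map_inv, ← map_mul, ← hα]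
    exact e
  let e : (G ⧸ H) ≃ (G ⧸ H) :=
    { toFun := fun x => QuotientGroup.mk (α x.out)
      invFun := fun x => QuotientGroup.mk (α.symm x.out)
      left_inv := by
        intro x
        have := h1 _ _ (QuotientGroup.out_eq' (QuotientGroup.mk (α x.out) : G ⧸ H))
        refine this.trans ?_
        rw [α.symm_apply_apply, QuotientGroup.out_eq']
      right_inv := by
        intro x
        have := h1' _ _ (QuotientGroup.out_eq' (QuotientGroup.mk (α.symm x.out) : G ⧸ H))
        refine this.trans ?_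
        rw [α.apply_symm_apply, QuotientGroup.out_eq'] }
  refine Fintype.sum_equiv e _ _ fun x => ?_
  have h2 : ((e x).out)⁻¹ * α x.out ∈ H := out_mem (α x.out)
  have h3 := hf (e x).out _ h2
  rw [mul_inv_cancel_left] at h3
  exact h3

variable {r : ℕ} {R : G →* AddMonoid.End (VV r)} {A : G →* AddMonoid.End M}
  {e : VV r →+ (ℕ → M)}

/-- The transfer of a Kummer cocycle. -/
theorem tr_kum (hA : ∀ g v m, e (R g v) m = A g (e v m)) {c : G → VV r} (hc : Coc R H c)
    {Q : ℕ → M} (hcQ : ∀ h ∈ H, ∀ m, e (c h) m = A h (Q m) - Q m) (σ : G) (m : ℕ) :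
    e (tr R H c σ) m = A σ (∑ x : G ⧸ H, (A x.out (Q m) - e (ext R H c x.out) m)) -
      ∑ x : G ⧸ H, (A x.out (Q m) - e (ext R H c x.out) m) := by
  set f : G → M := fun g => A g (Q m) - e (ext R H c g) m with hf
  have hinv : ∀ g, ∀ h ∈ H, f (g * h) = f g := by
    intro g h hh
    show A (g * h) (Q m) - e (ext R H c (g * h)) m = A g (Q m) - e (ext R H c g) m
    rw [ext_ext hc g h hh, map_add, Pi.add_apply, hA, hcQ h hh, map_sub, rho_mul]
    abel
  have h1 : ∑ x : G ⧸ H, f (σ * x.out) = ∑ x : G ⧸ H, f x.out := inv_sum' σ f hinv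
  have h2 : e (tr R H c σ) m = ∑ x : G ⧸ H, (A σ (f x.out) - f (σ * x.out)) := by
    unfold tr trB
    rw [map_sum, Finset.sum_apply]
    refine Finset.sum_congr rfl fun x _ => ?_
    rw [map_sub, Pi.sub_apply, hA]
    show _ = A σ (A x.out (Q m) - e (ext R H c x.out) m) -
      (A (σ * x.out) (Q m) - e (ext R H c (σ * x.out)) m)
    rw [map_sub, rho_mul]
    abel
  rw [h2, Finset.sum_sub_distrib, h1, map_sum]

end generic

end Pool.Agent.N181.TF

namespace Pool.Agent.N181.TF.St

open Pool.Agent.TH115.GD (Sep Preserves preserves)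
open Pool.Agent.N181.TF

section mod

variable {r : ℕ} {K₀ F : Type} [Field K₀] [Field F] [Algebra K₀ F] {M : Type} [AddCommGroup M]

/-- `M` is a discrete module of the Galois group of `K₀ = k(s)` with the properties of the module `A(Ω)` of the
points of an abelian variety `A` over `k(s)` with good reduction at the finite places not dividing `D`
(the characteristic of `k` is different from 2): `a` is the action, `ρ` is the 2-adic representation on the
Tate module `T₂ M` (the sequences `Q₀ = 0, Q₁, Q₂, ...` in `M` with `2 Q (m + 1) = Q m`) in the basis given by the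
isomorphism `e` from `ℤ₂ ^ r` to `T₂ M`, which is continuous and lower triangular modulo 2 for this basis; `M` is
2-divisible; and for `σ` in the geometric decomposition group at a finite place not dividing `D`, a point
is fixed by `σ` if its double is (since `σ` does not change its reduction, and the reduction is injective on
the points of order two). -/
structure IsMod (F₀ : Type) [Field F₀] [Algebra K₀ F₀] [Algebra F₀ F] [IsScalarTower K₀ F₀ F]
    {k : Type} [Field k] [Algebra k[X] K₀] (D : k[X]) (a : GalS F K₀ →* AddMonoid.End M)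
    (ρ : RepS F K₀ r) (e : VV r →+ (ℕ → M)) : Prop where
  disc : ∀ x : M, ∀ᶠ σ in 𝓝 (1 : GalS F K₀), a σ x = x
  div : ∀ x : M, ∃ y : M, 2 • y = x
  inj : Function.Injective e
  range : ∀ Q : ℕ → M, (∃ v, e v = Q) ↔ Q 0 = 0 ∧ ∀ m, 2 • Q (m + 1) = Q m
  equi : ∀ (σ : GalS F K₀) (v : VV r) (m : ℕ), e (act ρ σ v) m = a σ (e v m)
  cont : Continuous ρ
  tri : ∀ (σ : GalS F K₀) (i j : Fin r), i < j → PadicInt.toZMod ((ρ σ).1 i j) = 0
  unr : ∀ σ : GalS F F₀, Dec K₀ D σ → ∀ x : M,
    a (σ.restrictScalars K₀) (2 • x) = 2 • x → a (σ.restrictScalars K₀) x = x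

variable {F₀ : Type} [Field F₀] [Algebra K₀ F₀] [Algebra F₀ F] [IsScalarTower K₀ F₀ F]
    {k : Type} [Field k] [Algebra k[X] K₀] {D : k[X]} {a : GalS F K₀ →* AddMonoid.End M}
    {ρ : RepS F K₀ r} {e : VV r →+ (ℕ → M)}

theorem IsMod.zero (h : IsMod F₀ D a ρ e) (v : VV r) : e v 0 = 0 := ((h.range _).1 ⟨v, rfl⟩).1

theorem IsMod.two (h : IsMod F₀ D a ρ e) (v : VV r) (m : ℕ) : 2 • e v (m + 1) = e v m :=
  ((h.range _).1 ⟨v, rfl⟩).2 m

theorem IsMod.fix (h : IsMod F₀ D a ρ e) {σ : GalS F F₀} (hσ : Dec K₀ D σ) {Q : ℕ → M}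
    (h0 : a (σ.restrictScalars K₀) (Q 0) = Q 0) (h2 : ∀ m, 2 • Q (m + 1) = Q m) (m : ℕ) :
    a (σ.restrictScalars K₀) (Q m) = Q m := by
  induction m with
  | zero => exact h0
  | succ m ih =>
    apply h.unr σ hσ
    rw [h2, ih]

theorem IsMod.rep (h : IsMod F₀ D a ρ e) : IsRep F₀ D ρ := by
  refine ⟨h.cont, h.tri, fun σ hσ => ?_⟩
  have h1 : ∀ v : VV r, (ρ (σ.restrictScalars K₀)).1.mulVec v = v := by
    intro v
    apply h.inj
    funext m
    have h2 := h.equi (σ.restrictScalars K₀) v m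
    have h3 := h.fix hσ (Q := e v) (by rw [h.zero, map_zero]) (h.two v) m
    rw [h3] at h2
    exact h2
  apply Units.ext
  ext i j
  have h2 := congrFun (h1 (Pi.single j 1)) i
  rw [Matrix.mulVec_single_one] at h2
  rw [show (ρ (σ.restrictScalars K₀)).1 i j = (Pi.single j 1 : VV r) i from h2]
  show (Pi.single j 1 : VV r) i = (1 : Matrix (Fin r) (Fin r) ℤ_[2]) i j
  rw [Matrix.one_apply, Pi.single_apply]

theorem IsMod.pow (h : IsMod F₀ D a ρ e) (v : VV r) (m j : ℕ) : 2 ^ m • e v (j + m) = e v j := by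
  induction m with
  | zero => rw [pow_zero, one_smul, add_zero]
  | succ m ih => rw [pow_succ, mul_smul, ← add_assoc, h.two, ih]

theorem IsMod.div_e (h : IsMod F₀ D a ρ e) {v : VV r} {m : ℕ} (hv : e v m = 0) :
    ∃ w, v = 2 ^ m • w := by
  obtain ⟨w, hw⟩ := (h.range fun j => e v (j + m)).2 ⟨by
    show e v (0 + m) = 0
    rw [zero_add, hv], fun j => by
    show 2 • e v (j + 1 + m) = e v (j + m)
    rw [show j + 1 + m = (j + m) + 1 by ring, h.two]⟩
  refine ⟨w, h.inj ?_⟩
  funext j
  rw [map_nsmul, hw]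
  show e v j = 2 ^ m • e v (j + m)
  rw [h.pow]

end mod

end Pool.Agent.N181.TF.St
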