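import Pool.Agent.N181.TF.Top

/-!
Representations of the Galois group and classes: definitions and first properties.
-/

set_option autoImplicit false
set_option linter.all false

open Polynomial IsDedekindDomain Filter Topology
open scoped Classical

namespace Pool.Agent.N181.TF

open Pool.Agent.TH115.GD

section defs

variable {r : ℕ} {K₀ F : Type} [Field K₀] [Field F] [Algebra K₀ F]

/-- `ρ` is a continuous representation on `ℤ₂ ^ r` of the Galois group of `K₀ = k(s)` (the automorphisms
over `K₀` of `Ω = Sep F`) which is lower triangular modulo 2, and unramified at the finite places not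
dividing `D`: the elements of the geometric Galois group (the automorphisms over `F₀ = k'(s)`) in the
decomposition groups of these places act trivially. -/
structure IsRep (F₀ : Type) [Field F₀] [Algebra K₀ F₀] [Algebra F₀ F] [IsScalarTower K₀ F₀ F]
    {k : Type} [Field k] [Algebra k[X] K₀] (D : k[X])
    (ρ : (Sep F ≃ₐ[K₀] Sep F) →* Matrix.GeneralLinearGroup (Fin r) ℤ_[2]) : Prop where
  cont : Continuous ρ
  tri : ∀ (σ : Sep F ≃ₐ[K₀] Sep F) (i j : Fin r), i < j → PadicInt.toZMod ((ρ σ).1 i j) = 0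
  unr : ∀ σ : Sep F ≃ₐ[F₀] Sep F, InDec (ff k K₀ F) D (fun x => σ x) →
    ρ (σ.restrictScalars K₀) = 1

/-- `c` is a continuous cocycle of the geometric Galois group of `E` (`E = k'(s)` or `E = k'(t)`) with
values in `ℤ₂ ^ r`, unramified at the finite places not dividing `D`, whose class in `H¹(E, ℚ₂ ^ r)` is
fixed by the Galois group of `L` (`L = k(s)` or `L = k(t)`): for each `τ` there are `m` and `v` such that
`2 ^ m (τ c - c)` is the coboundary of `v`. Here `(τ c) (σ) = τ (c (σ'))` with `σ' = τ⁻¹ σ τ`. -/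
structure IsClass (E L : Type) [Field E] [Algebra K₀ E] [Algebra E F] [IsScalarTower K₀ E F]
    [Field L] [Algebra K₀ L] [Algebra L F] [IsScalarTower K₀ L F]
    {k : Type} [Field k] [Algebra k[X] K₀] (D : k[X])
    (ρ : (Sep F ≃ₐ[K₀] Sep F) →* Matrix.GeneralLinearGroup (Fin r) ℤ_[2])
    (c : (Sep F ≃ₐ[E] Sep F) → VV r) : Prop where
  cont : Continuous c
  mul : ∀ σ τ, c (σ * τ) = c σ + (ρ (σ.restrictScalars K₀)).1.mulVec (c τ)
  unr : ∀ σ : Sep F ≃ₐ[E] Sep F, InDec (ff k K₀ F) D (fun x => σ x) → c σ = 0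
  inv : ∀ τ : Sep F ≃ₐ[L] Sep F, ∃ (m : ℕ) (v : VV r), ∀ σ σ' : Sep F ≃ₐ[E] Sep F,
    (∀ x, τ (σ' x) = σ (τ x)) →
      2 ^ m • ((ρ (τ.restrictScalars K₀)).1.mulVec (c σ') - c σ) =
        (ρ (σ.restrictScalars K₀)).1.mulVec v - v

/-- The action as a homomorphism. -/
noncomputable def rhoE (ρ : (Sep F ≃ₐ[K₀] Sep F) →* Matrix.GeneralLinearGroup (Fin r) ℤ_[2]) :
    (Sep F ≃ₐ[K₀] Sep F) →* AddMonoid.End (VV r) where
  toFun σ :=
    { toFun := fun v => (ρ σ).1.mulVec v
      map_zero' := Matrix.mulVec_zero _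
      map_add' := Matrix.mulVec_add _ }
  map_one' := by
    apply DFunLike.ext
    intro v
    show (ρ 1).1.mulVec v = v
    rw [map_one]
    exact Matrix.one_mulVec v
  map_mul' σ τ := by
    apply DFunLike.ext
    intro v
    show (ρ (σ * τ)).1.mulVec v = (ρ σ).1.mulVec ((ρ τ).1.mulVec v)
    rw [map_mul, Matrix.mulVec_mulVec]
    rfl

end defs

section tri

variable {r : ℕ}

theorem diag_one (M : Matrix.GeneralLinearGroup (Fin r) ℤ_[2])
    (h : ∀ i j : Fin r, i < j → PadicInt.toZMod (M.1 i j) = 0) (i : Fin r) :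
    PadicInt.toZMod (M.1 i i) = 1 := by
  set N : Matrix (Fin r) (Fin r) (ZMod 2) := M.1.map (PadicInt.toZMod : ℤ_[2] →+* ZMod 2) with hN
  have h1 : N.det = ∏ i, N i i := by
    apply Matrix.det_of_lowerTriangular
    intro i j hij
    exact h i j hij
  have h2 : IsUnit N.det := by
    have h3 : N.det = PadicInt.toZMod M.1.det := by
      rw [hN]
      exact (RingHom.map_det (PadicInt.toZMod : ℤ_[2] →+* ZMod 2) M.1).symm
    rw [h3]
    exact ((Matrix.isUnit_iff_isUnit_det _).1 M.isUnit).map _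
  rw [h1] at h2
  have h3 : N i i ≠ 0 := by
    intro h0
    have h4 : ∏ i, N i i = 0 := Finset.prod_eq_zero (Finset.mem_univ i) h0
    rw [h4] at h2
    exact not_isUnit_zero h2
  exact (z01 _).resolve_left h3

theorem tri_of (M : Matrix.GeneralLinearGroup (Fin r) ℤ_[2])
    (h : ∀ i j : Fin r, i < j → PadicInt.toZMod (M.1 i j) = 0) (f : VV r →+ VV r)
    (hf : ∀ v, f v = M.1.mulVec v) : Tri f := by
  have hd := diag_one M h
  have key : ∀ (i : Fin r) (v : VV r), lamH i (f v) =
      ∑ j, PadicInt.toZMod (M.1 i j) * PadicInt.toZMod (v j) := by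
    intro i v
    show PadicInt.toZMod (f v i) = _
    rw [hf]
    show PadicInt.toZMod (∑ j, M.1 i j * v j) = _
    rw [map_sum]
    refine Finset.sum_congr rfl fun j _ => ?_
    rw [map_mul]
  constructor
  · intro j v hv i hi
    rw [key]
    refine Finset.sum_eq_zero fun l _ => ?_
    rcases lt_or_ge i l with h1 | h1
    · rw [h i l h1, zero_mul]
    · have h2 : (l : ℕ) < j := lt_of_le_of_lt (by exact_mod_cast h1) hi
      have h3 : PadicInt.toZMod (v l) = 0 := hv l h2
      rw [h3, mul_zero]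
  · intro j v hv
    rw [key, Finset.sum_eq_single j]
    · rw [hd, one_mul]
      rfl
    · intro l _ hl
      rcases lt_or_gt_of_ne hl with h1 | h1
      · have h3 : PadicInt.toZMod (v l) = 0 := hv l (by exact_mod_cast h1)
        rw [h3, mul_zero]
      · rw [h j l h1, zero_mul]
    · intro h1
      exact absurd (Finset.mem_univ j) h1

end tri

end Pool.Agent.N181.TF
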