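import Pool.Agent.N181.TF.Tr

/-!
One step in the filtration of the representation.
-/

set_option autoImplicit false
set_option linter.all false

open scoped Classical

namespace Pool.Agent.N181.TF

variable {G V I : Type} [Group G] [AddCommGroup V]

/-- The pairs `(α i, β i)` are conjugations which preserve `H`. -/
structure Conj (ρ : G →* AddMonoid.End V) (H : Subgroup G) (α : I → G ≃* G) (β : I → V →+ V) :
    Prop where
  hH : ∀ i g, g ∈ H ↔ α i g ∈ H
  hρ : ∀ i g v, β i (ρ g v) = ρ (α i g) (β i v)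

/-- A step in the filtration. -/
structure Layer (ρ : G →* AddMonoid.End V) (β : I → V →+ V) (U U' : AddSubgroup V)
    (lam : V →+ ZMod 2) : Prop where
  stG : ∀ g, ∀ u ∈ U, ρ g u ∈ U
  stI : ∀ i, ∀ u ∈ U, β i u ∈ U
  invG : ∀ g, ∀ u ∈ U, lam (ρ g u) = lam u
  invI : ∀ i, ∀ u ∈ U, lam (β i u) = lam u
  mem : ∀ v, v ∈ U' ↔ v ∈ U ∧ lam v = 0

/-- The classes with transfer zero, invariant, with values in `U`. -/
structure State (ρ : G →* AddMonoid.End V) (H : Subgroup G) [Fintype (G ⧸ H)]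
    (α : I → G ≃* G) (β : I → V →+ V) (Nice : (G → V) → Prop) (U : AddSubgroup V) (c : G → V) :
    Prop where
  coc : Coc ρ H c
  nice : Nice c
  val : ∀ h ∈ H, c h ∈ U
  tr : ∃ u ∈ U, ∀ σ, tr ρ H c σ = cob ρ u σ
  inv : ∀ i, ∃ u ∈ U, ∀ h ∈ H, cj (α i) (β i) c h - c h = cob ρ u h

/-- The characters extend. -/
def CharExt (H : Subgroup G) (α : I → G ≃* G) (Nice : (G → V) → Prop) : Prop :=
  ∀ (lam : V →+ ZMod 2) (c : G → V), Nice c →
    (∀ g ∈ H, ∀ h ∈ H, lam (c (g * h)) = lam (c g) + lam (c h)) →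
    (∀ i, ∀ h ∈ H, lam (c ((α i).symm h)) = lam (c h)) →
    ∃ χ : G → ZMod 2, (∀ g h, χ (g * h) = χ g + χ h) ∧ ∀ h ∈ H, χ h = lam (c h)

theorem zz (z : ZMod 2) : z + z = 0 := by revert z; decide

theorem even_smul (m : ℕ) (z : ZMod 2) : (2 * m) • z = 0 := by
  rw [mul_comm, mul_smul, two_nsmul, zz, smul_zero]

theorem odd_smul {n : ℕ} (hn : Odd n) (z : ZMod 2) : n • z = z := by
  obtain ⟨m, rfl⟩ := hn
  rw [add_smul, even_smul, one_smul, zero_add]

variable {ρ : G →* AddMonoid.End V} {H : Subgroup G} [Fintype (G ⧸ H)] {α : I → G ≃* G}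
  {β : I → V →+ V} {Nice : (G → V) → Prop} {U U' : AddSubgroup V} {lam : V →+ ZMod 2}

theorem cob_add (u v : V) (g : G) : cob ρ (u + v) g = cob ρ u g + cob ρ v g := by
  unfold cob; rw [map_add]; abel

theorem cob_sub (u v : V) (g : G) : cob ρ (u - v) g = cob ρ u g - cob ρ v g := by
  unfold cob; rw [map_sub]; abel

theorem cob_nsmul (m : ℕ) (v : V) (g : G) : cob ρ (m • v) g = m • cob ρ v g := by
  unfold cob; rw [map_nsmul, smul_sub]

theorem Layer.stG' (hL : Layer ρ β U U' lam) : ∀ g, ∀ u ∈ U', ρ g u ∈ U' := by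
  intro g u hu
  rw [hL.mem] at hu ⊢
  exact ⟨hL.stG g u hu.1, by rw [hL.invG g u hu.1, hu.2]⟩

theorem Layer.stI' (hL : Layer ρ β U U' lam) : ∀ i, ∀ u ∈ U', β i u ∈ U' := by
  intro g u hu
  rw [hL.mem] at hu ⊢
  exact ⟨hL.stI g u hu.1, by rw [hL.invI g u hu.1, hu.2]⟩

theorem Layer.cob_mem (hL : Layer ρ β U U' lam) {u : V} (hu : u ∈ U) (g : G) :
    cob ρ u g ∈ U' := by
  rw [hL.mem]
  exact ⟨U.sub_mem (hL.stG g u hu) hu, by unfold cob; rw [map_sub, hL.invG g u hu, sub_self]⟩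

theorem Layer.even (hL : Layer ρ β U U' lam) {u : V} (hu : u ∈ U) (m : ℕ) : (2 * m) • u ∈ U' := by
  rw [hL.mem]
  exact ⟨U.nsmul_mem hu _, by rw [map_nsmul, even_smul]⟩

/-- The values are in the smaller group. -/
theorem lam_zero (hL : Layer ρ β U U' lam) (hodd : Odd (Fintype.card (G ⧸ H)))
    (hC : Conj ρ H α β) (hχ : CharExt H α Nice) {c : G → V} (h : State ρ H α β Nice U c) :
    ∀ g ∈ H, lam (c g) = 0 := by
  obtain ⟨χ, h1, h2⟩ := hχ lam c h.nice
    (fun g hg g' hg' => by rw [h.coc g hg g' hg', map_add, hL.invG g _ (h.val g' hg')])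
    (fun i g hg => by
      obtain ⟨u, hu, e⟩ := h.inv i
      have hs : (α i).symm g ∈ H := by
        rw [hC.hH i, (α i).apply_symm_apply]; exact hg
      have h3 := e g hg
      have h4 : cj (α i) (β i) c g = c g + cob ρ u g := by rw [← h3]; abel
      have h5 : lam (cj (α i) (β i) c g) = lam (c ((α i).symm g)) := hL.invI i _ (h.val _ hs)
      rw [← h5, h4, map_add]
      have h6 := (hL.mem _).1 (hL.cob_mem hu g)
      rw [h6.2, add_zero])
  obtain ⟨w, hw, htr⟩ := h.tr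
  have hb := ext_ext h.coc
  have hbU : ∀ g, ext ρ H c g ∈ U := ext_mem hL.stG h.val
  have key : ∀ σ, χ σ = 0 := by
    intro σ
    have h3 := inv_sum' (H := H) σ (fun g => lam (ext ρ H c g) - χ g) (fun g g' hg' => by
      rw [hb g g' hg', map_add, hL.invG g _ (h.val g' hg'), h1, h2 g' hg']
      abel)
    have h4 : lam (tr ρ H c σ) = ∑ x : G ⧸ H,
        (((lam (ext ρ H c (σ * x.out)) - χ (σ * x.out)) - (lam (ext ρ H c x.out) - χ x.out))
          + χ σ) := by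
      unfold tr trB
      rw [map_sum]
      refine Finset.sum_congr rfl fun x _ => ?_
      rw [map_sub, hL.invG σ _ (hbU _), h1]
      abel
    rw [Finset.sum_add_distrib, Finset.sum_sub_distrib, h3, sub_self, zero_add, Finset.sum_const,
      Finset.card_univ, odd_smul hodd, htr] at h4
    rw [← h4]
    exact ((hL.mem _).1 (hL.cob_mem hw σ)).2
  intro g hg
  rw [← h2 g hg, key]

theorem step (hL : Layer ρ β U U' lam) (hodd : Odd (Fintype.card (G ⧸ H)))
    (hC : Conj ρ H α β) (hχ : CharExt H α Nice)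
    (hN : ∀ c w, Nice c → Nice (fun g => c g - cob ρ w g))
    {c : G → V} (h : State ρ H α β Nice U c) :
    ∃ w ∈ U, State ρ H α β Nice U' (fun g => c g - cob ρ w g) := by
  have hlam := lam_zero hL hodd hC hχ h
  obtain ⟨w, hw, htr⟩ := h.tr
  obtain ⟨m, hm⟩ := hodd
  -- coboundaries of elements of `U`
  have hcobtr : ∀ u ∈ U, ∃ E ∈ U', ∀ σ, tr ρ H (cob ρ u) σ =
      Fintype.card (G ⧸ H) • cob ρ u σ + cob ρ E σ := by
    intro u hu
    refine ⟨_, ?_, fun σ => tr_res (cob_mul u) σ⟩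
    exact AddSubgroup.sum_mem _ fun x _ => AddSubgroup.sub_mem _ (hL.cob_mem hu _)
      (ext_mem hL.stG' (fun g _ => hL.cob_mem hu g) _)
  have hcoc : Coc ρ H (fun g => c g - cob ρ w g) := by
    intro g hg g' hg'
    show c (g * g') - cob ρ w (g * g') = c g - cob ρ w g + ρ g (c g' - cob ρ w g')
    rw [h.coc g hg g' hg', cob_mul, map_sub]
    abel
  have hval : ∀ g ∈ H, c g - cob ρ w g ∈ U' := by
    intro g hg
    exact U'.sub_mem ((hL.mem _).2 ⟨h.val g hg, hlam g hg⟩) (hL.cob_mem hw g)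
  have htr' : ∃ u ∈ U', ∀ σ, tr ρ H (fun g => c g - cob ρ w g) σ = cob ρ u σ := by
    obtain ⟨E, hE, e⟩ := hcobtr w hw
    refine ⟨-((2 * m) • w) - E, U'.sub_mem (U'.neg_mem (hL.even hw m)) hE, fun σ => ?_⟩
    rw [tr_sub, htr, e, hm, add_smul, one_smul]
    have h1 : cob ρ (-((2 * m) • w) - E) σ = -((2 * m) • cob ρ w σ) - cob ρ E σ := by
      rw [cob_sub, ← cob_nsmul]
      congr 1
      unfold cob
      rw [map_neg]
      abel
    rw [h1]
    abel
  refine ⟨w, hw, hcoc, hN c w h.nice, hval, htr', fun i => ?_⟩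
  obtain ⟨u, hu, e⟩ := h.inv i
  set c' : G → V := fun g => c g - cob ρ w g with hc'
  set u' := u - β i w + w with hu'
  have hu'U : u' ∈ U := U.add_mem (U.sub_mem hu (hL.stI i w hw)) hw
  have hy : ∀ g ∈ H, cj (α i) (β i) c' g - c' g = cob ρ u' g := by
    intro g hg
    have h1 : cj (α i) (β i) c' g = cj (α i) (β i) c g - cob ρ (β i w) g := by
      rw [← cj_cob (α i) (β i) (hC.hρ i)]
      show β i (c _ - cob ρ w _) = β i (c _) - β i (cob ρ w _)
      rw [map_sub]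
    rw [h1, hu', cob_add, cob_sub, ← e g hg]
    show _ - _ - (c g - cob ρ w g) = _
    abel
  obtain ⟨u₁, hu₁, e₁⟩ := htr'
  obtain ⟨E₂, hE₂, e₂⟩ := hcobtr u' hu'U
  have hval' : ∀ g ∈ H, cj (α i) (β i) c' g ∈ U' := by
    intro g hg
    exact hL.stI' i _ (hval _ (by rw [hC.hH i, (α i).apply_symm_apply]; exact hg))
  set E₁ := ∑ x : G ⧸ H, (cj (α i) (β i) (ext ρ H c') x.out - ext ρ H (cj (α i) (β i) c') x.out)
    with hE₁
  have hE₁U : E₁ ∈ U' := AddSubgroup.sum_mem _ fun x _ => AddSubgroup.sub_mem _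
    (hL.stI' i _ (ext_mem hL.stG' hval _)) (ext_mem hL.stG' hval' _)
  have key : ∀ σ, Fintype.card (G ⧸ H) • cob ρ u' σ = cob ρ (β i u₁ + E₁ - u₁ - E₂) σ := by
    intro σ
    have h1 : tr ρ H (fun g => cj (α i) (β i) c' g - c' g) σ = tr ρ H (cob ρ u') σ :=
      tr_congr hy σ
    rw [tr_sub, tr_cj hcoc (α i) (hC.hH i) (β i) (hC.hρ i), e₂, e₁] at h1
    have h2 : cj (α i) (β i) (tr ρ H c') σ = cob ρ (β i u₁) σ := by
      rw [← cj_cob (α i) (β i) (hC.hρ i)]
      unfold cj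
      rw [e₁]
    rw [h2] at h1
    have h4 : cob ρ (β i u₁ + E₁ - u₁ - E₂) σ =
        cob ρ (β i u₁) σ + cob ρ E₁ σ - cob ρ u₁ σ - cob ρ E₂ σ := by
      rw [cob_sub, cob_sub, cob_add]
    rw [h4, h1, add_sub_cancel_right]
  refine ⟨(β i u₁ + E₁ - u₁ - E₂) - (2 * m) • u', U'.sub_mem (U'.sub_mem (U'.sub_mem
    (U'.add_mem (hL.stI' i _ hu₁) hE₁U) hu₁) hE₂) (hL.even hu'U m), fun g hg => ?_⟩
  rw [hy g hg, cob_sub, ← key, hm, add_smul, one_smul, cob_nsmul]
  abel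

end Pool.Agent.N181.TF
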