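import Pool.Agent.N181.TF.Chr

/-!
Coverings with one point above each bad place.
-/

set_option autoImplicit false
set_option linter.all false

open Polynomial
open scoped Classical

namespace Pool.Agent.N181.TF

section tower

variable {k : Type} [Field k]

theorem onePt_pow {D : k[X]} (h0 : D ≠ 0) (hs : D.Splits) {n : ℕ} (hodd : Odd n)
    (hk : (n : k) ≠ 0) {c : k}
    (hc : ∀ ξ, D.IsRoot ξ → ξ = c ∨ ∀ ℓ : ℕ, ℓ.Prime → ℓ ∣ n → ∀ y : k, y ^ ℓ ≠ ξ - c) :
    OnePt D (X ^ n + C c) := by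
  intro π hπ hd
  obtain ⟨ξ, hξ⟩ := exists_root_of_degree_eq_one
    ((hs.of_dvd h0 hd).degree_eq_one_of_irreducible hπ)
  obtain ⟨x, hx⟩ := (irreducible_X_sub_C ξ).associated_of_dvd hπ (dvd_iff_isRoot.2 hξ)
  obtain ⟨u, hu, hux⟩ := Polynomial.isUnit_iff.1 x.isUnit
  have e : π = C u * (X - C ξ) := by rw [← hx, ← hux, mul_comm]
  have hroot : D.IsRoot ξ := hξ.dvd hd
  have epb : π.comp (X ^ n + C c) = C u * (X ^ n - C (ξ - c)) := by
    rw [e, mul_comp, C_comp, sub_comp, X_comp, C_comp, C_sub]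
    ring
  by_cases h : ξ = c
  · refine ⟨u, X, n, hu.ne_zero, irreducible_X, separable_X, hodd, ?_⟩
    rw [epb, h, sub_self, C_0, sub_zero]
  · have hne : ξ - c ≠ 0 := sub_ne_zero.2 h
    replace h := (hc ξ hroot).resolve_left h
    refine ⟨u, X ^ n - C (ξ - c), 1, hu.ne_zero,
      X_pow_sub_C_irreducible_of_odd hodd fun p hp hpn y => h p hp hpn y,
      separable_X_pow_sub_C _ hk hne, odd_one, ?_⟩
    rw [epb, pow_one]

/-- **Existence of towers** over a finite field. -/
theorem exists_tower [Finite k] {g : k[X]} (hg : g ≠ 0) {ℓ : ℕ} (hℓ : ℓ.Prime)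
    (hdeg : g.natDegree < ℓ) (hd : ℓ ∣ Nat.card k - 1) (hq : g.natDegree * ℓ < Nat.card k) :
    ∃ c : k, ∀ ξ, g.IsRoot ξ → ∀ y : k, y ^ ℓ ≠ ξ - c := by
  letI := Fintype.ofFinite k
  have hcard : Nat.card k = Fintype.card k := Nat.card_eq_fintype_card
  have hk1 : 1 < Nat.card k := by rw [hcard]; exact Fintype.one_lt_card
  obtain ⟨m, hm⟩ := hd
  have hm0 : 0 < m := by
    rcases Nat.eq_zero_or_pos m with h | h
    · rw [h, mul_zero] at hm
      omega
    · exact h
  have hdm : g.natDegree ≤ m := by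
    have h1 : ℓ * g.natDegree ≤ ℓ * m := by
      rw [← hm, mul_comm ℓ]
      omega
    exact Nat.le_of_mul_le_mul_left h1 hℓ.pos
  -- the powers
  let P : Finset k := Finset.univ.image fun y : k => y ^ ℓ
  have hP : P.card ≤ 1 + m := by
    have h1 : P ⊆ {0} ∪ (X ^ m - C (1 : k)).roots.toFinset := by
      intro z hz
      obtain ⟨y, -, rfl⟩ := Finset.mem_image.1 hz
      rw [Finset.mem_union, Finset.mem_singleton, Multiset.mem_toFinset,
        mem_roots (X_pow_sub_C_ne_zero hm0 1)]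
      by_cases hy : y = 0
      · left
        rw [hy, zero_pow hℓ.pos.ne']
      · right
        rw [IsRoot.def, eval_sub, eval_pow, eval_X, eval_C, ← pow_mul, ← hm, hcard,
          FiniteField.pow_card_sub_one_eq_one y hy, sub_self]
    refine (Finset.card_le_card h1).trans ((Finset.card_union_le _ _).trans ?_)
    rw [Finset.card_singleton]
    refine Nat.add_le_add_left ?_ 1
    refine (Multiset.toFinset_card_le _).trans ((card_roots' _).trans ?_)
    rw [natDegree_X_pow_sub_C]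
  let B : Finset k := g.roots.toFinset.biUnion fun ξ => P.image fun y => ξ - y
  have hB : B.card < Fintype.card k := by
    have h1 : B.card ≤ g.roots.toFinset.card * (1 + m) := by
      refine Finset.card_biUnion_le_card_mul _ _ _ fun ξ _ => ?_
      exact Finset.card_image_le.trans hP
    have h2 : g.roots.toFinset.card ≤ g.natDegree :=
      (Multiset.toFinset_card_le _).trans (card_roots' _)
    have h3 : B.card ≤ g.natDegree * (1 + m) := h1.trans (Nat.mul_le_mul_right _ h2)
    have h4 : (g.natDegree + 1) * m ≤ Fintype.card k - 1 := by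
      rw [← hcard, hm]
      exact Nat.mul_le_mul_right _ hdeg
    have h5 : g.natDegree * (1 + m) ≤ (g.natDegree + 1) * m := by
      rw [mul_add, add_mul, mul_one, one_mul, add_comm]
      exact Nat.add_le_add_left hdm _
    rw [hcard] at hk1
    omega
  obtain ⟨c, hc⟩ : ∃ c : k, c ∉ B := by
    by_contra h
    push Not at h
    have h1 : B = Finset.univ := Finset.eq_univ_iff_forall.2 h
    rw [h1, Finset.card_univ] at hB
    exact lt_irrefl _ hB
  refine ⟨c, fun ξ hξ y hy => hc ?_⟩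
  rw [Finset.mem_biUnion]
  refine ⟨ξ, ?_, Finset.mem_image.2 ⟨y ^ ℓ, Finset.mem_image.2 ⟨y, Finset.mem_univ _, rfl⟩, ?_⟩⟩
  · rw [Multiset.mem_toFinset, mem_roots hg]
    exact hξ
  · rw [hy]
    ring

theorem towers [Finite k] {D : k[X]} (h0 : D ≠ 0) (hs : D.Splits) {ℓ : ℕ} (hℓ : ℓ.Prime)
    (h2 : ℓ ≠ 2) (hdeg : D.natDegree < ℓ) (hd : ℓ ∣ Nat.card k - 1)
    (hq : D.natDegree * ℓ < Nat.card k) : ∃ c : k, ∀ j : ℕ, OnePt D (X ^ ℓ ^ j + C c) := by
  obtain ⟨c, hc⟩ := exists_tower h0 hℓ hdeg hd hq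
  refine ⟨c, fun j => onePt_pow h0 hs ((hℓ.odd_of_ne_two h2).pow) ?_
    fun ξ hξ => Or.inr fun p hp hpd y => ?_⟩
  · rw [Nat.cast_pow]
    apply pow_ne_zero
    intro h
    letI := Fintype.ofFinite k
    have hcard : Nat.card k = Fintype.card k := Nat.card_eq_fintype_card
    have hk1 : 1 < Nat.card k := by rw [hcard]; exact Fintype.one_lt_card
    have h1 : ((Nat.card k : ℕ) : k) = 0 := by
      rw [Nat.card_eq_fintype_card]
      exact FiniteField.cast_card_eq_zero k
    obtain ⟨m, hm⟩ := hd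
    have h2 : Nat.card k = ℓ * m + 1 := by omega
    rw [h2, Nat.cast_add, Nat.cast_mul, h, zero_mul, zero_add, Nat.cast_one] at h1
    exact one_ne_zero h1
  · have : p = ℓ := (Nat.prime_dvd_prime_iff_eq hp hℓ).1 (hp.dvd_of_dvd_pow hpd)
    rw [this]
    exact hc ξ hξ y

end tower

end Pool.Agent.N181.TF
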