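import Pool.Agent.N181.TF.Full
import Pool.Agent.N181.TF.Twr

/-!
The statement.
-/

set_option autoImplicit false
set_option linter.all false

open Polynomial
open scoped Classical

namespace Pool.Agent.N181.TF.St

open Pool.Agent.TH115.GD (Sep)
open Pool.Agent.N181.TF (InDec ff IsCover VV)

/-- The Galois group over `E` of the separable closure `Ω = Sep F` of `F`. -/
abbrev GalS (F E : Type) [Field F] [Field E] [Algebra E F] : Type := Sep F ≃ₐ[E] Sep F

/-- The representations of the Galois group of `K₀` on `ℤ₂ ^ r`. -/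
abbrev RepS (F K₀ : Type) [Field F] [Field K₀] [Algebra K₀ F] (r : ℕ) : Type :=
  GalS F K₀ →* Matrix.GeneralLinearGroup (Fin r) ℤ_[2]

section defs

variable {r : ℕ} {K₀ F : Type} [Field K₀] [Field F] [Algebra K₀ F]

/-- `σ` is in the decomposition group of a nonzero prime ideal of the ring of the elements of `Ω` which
are integral over `k[s]` (`K₀ = k(s)`), which does not contain `D(s)`. -/
def Dec {k : Type} [Field k] (K₀ : Type) [Field K₀] [Algebra k[X] K₀] [Algebra K₀ F] (D : k[X])
    {E : Type} [Field E] [Algebra E F] (σ : GalS F E) : Prop :=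
  InDec (ff k K₀ F) D (fun x => σ x)

/-- `σ v`, for an element `σ` of the Galois group of an extension `E` of `K₀`. -/
noncomputable def act {E : Type} [Field E] [Algebra K₀ E] [Algebra E F] [IsScalarTower K₀ E F] (ρ : RepS F K₀ r)
    (σ : GalS F E) (v : VV r) : VV r :=
  (ρ (σ.restrictScalars K₀)).1.mulVec v

/-- `c` is the coboundary `σ ↦ σ v - v` of some `v`. -/
def IsCob {E : Type} [Field E] [Algebra K₀ E] [Algebra E F] [IsScalarTower K₀ E F]
    (ρ : RepS F K₀ r) (c : GalS F E → VV r) : Prop :=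
  ∃ v, ∀ σ, c σ = act ρ σ v - v

/-- A multiple of `c` is a coboundary. -/
def IsTors {E : Type} [Field E] [Algebra K₀ E] [Algebra E F] [IsScalarTower K₀ E F]
    (ρ : RepS F K₀ r) (c : GalS F E → VV r) : Prop :=
  ∃ N : ℕ, N ≠ 0 ∧ IsCob ρ (fun σ => N • c σ)

/-- `ρ` is a continuous representation on `ℤ₂ ^ r` of the Galois group of `K₀ = k(s)` (the automorphisms
over `K₀` of `Ω = Sep F`) which is lower triangular modulo 2, and geometrically unramified at the finite
places not dividing `D`: the elements of the geometric Galois group (the automorphisms over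
`F₀ = k'(s)`) in the decomposition groups of these places act trivially. -/
structure IsRep (F₀ : Type) [Field F₀] [Algebra K₀ F₀] [Algebra F₀ F] [IsScalarTower K₀ F₀ F]
    {k : Type} [Field k] [Algebra k[X] K₀] (D : k[X]) (ρ : RepS F K₀ r) : Prop where
  cont : Continuous ρ
  tri : ∀ (σ : GalS F K₀) (i j : Fin r), i < j → PadicInt.toZMod ((ρ σ).1 i j) = 0
  unr : ∀ σ : GalS F F₀, Dec K₀ D σ → ρ (σ.restrictScalars K₀) = 1

/-- The class of `c` in `H¹(E, ℚ₂ ^ r)` is fixed by the Galois group of `L`: for each `τ` there are `m`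
and `v` such that `2 ^ m (τ c - c)` is the coboundary of `v`. Here `(τ c) (σ) = τ (c (σ'))` with
`σ' = τ⁻¹ σ τ`. -/
def IsFixed {E : Type} (L : Type) [Field E] [Algebra K₀ E] [Algebra E F] [IsScalarTower K₀ E F]
    [Field L] [Algebra K₀ L] [Algebra L F] [IsScalarTower K₀ L F] (ρ : RepS F K₀ r)
    (c : GalS F E → VV r) : Prop :=
  ∀ τ : GalS F L, ∃ (m : ℕ) (v : VV r), ∀ σ σ' : GalS F E, (∀ x, τ (σ' x) = σ (τ x)) →
    2 ^ m • (act ρ τ (c σ') - c σ) = act ρ σ v - v

/-- `c` is a continuous cocycle of the geometric Galois group of `E` (`E = k'(s)` or `E = k'(t)`) with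
values in `ℤ₂ ^ r`, unramified at the finite places not dividing `D`, whose class in `H¹(E, ℚ₂ ^ r)` is
fixed by the Galois group of `L` (`L = k(s)` or `L = k(t)`). -/
structure IsClass (E L : Type) [Field E] [Algebra K₀ E] [Algebra E F] [IsScalarTower K₀ E F]
    [Field L] [Algebra K₀ L] [Algebra L F] [IsScalarTower K₀ L F]
    {k : Type} [Field k] [Algebra k[X] K₀] (D : k[X]) (ρ : RepS F K₀ r)
    (c : GalS F E → VV r) : Prop where
  cont : Continuous c
  mul : ∀ σ τ, c (σ * τ) = c σ + act ρ σ (c τ)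
  unr : ∀ σ : GalS F E, Dec K₀ D σ → c σ = 0
  inv : IsFixed L ρ c

/-- Each class (see `IsClass`) has a multiple which is cohomologous to an element of `A`. If `ρ` is the
2-adic Tate module of the Jacobian of the generic fibre of a fibration over the line over a finite field,
with good reduction at the finite places not dividing `D`, and `A` is the set of its Kummer classes,
completed 2-adically, this is the Tate conjecture for the fibration, up to its part from the components
of the fibres and a multisection. -/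
def ClassesFrom (E L : Type) [Field E] [Algebra K₀ E] [Algebra E F] [IsScalarTower K₀ E F]
    [Field L] [Algebra K₀ L] [Algebra L F] [IsScalarTower K₀ L F]
    {k : Type} [Field k] [Algebra k[X] K₀] (D : k[X]) (ρ : RepS F K₀ r)
    (A : Set (GalS F E → VV r)) : Prop :=
  ∀ c, IsClass E L D ρ c → ∃ N : ℕ, N ≠ 0 ∧ ∃ a ∈ A, IsCob ρ (fun σ => N • c σ - a σ)

/-- The restriction of a cocycle from the Galois group of `F₀ = k'(s)` to that of `F = k'(t)`. -/
noncomputable def res {F₀ : Type} [Field F₀] [Algebra F₀ F] (c : GalS F F₀ → VV r) (σ : GalS F F) : VV r :=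
  c (σ.restrictScalars F₀)

/-- The restriction of the classes from `F₀ = k'(s)` to `F = k'(t)` is an isomorphism up to torsion:
the restriction of a class fixed by the Galois group of `K₀ = k(s)` is a class fixed by the Galois group of
`K = k(t)`, it is torsion only if the class is torsion, and `n` times each class fixed by the Galois group
of `K` is the restriction of a class fixed by the Galois group of `K₀`, up to a coboundary. -/
structure RestrictionIso (F₀ K : Type) [Field F₀] [Algebra K₀ F₀] [Algebra F₀ F]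
    [IsScalarTower K₀ F₀ F] [Field K] [Algebra K₀ K] [Algebra K F] [IsScalarTower K₀ K F]
    {k : Type} [Field k] [Algebra k[X] K₀] (n : ℕ) (D : k[X]) (ρ : RepS F K₀ r) : Prop where
  cls : ∀ c : GalS F F₀ → VV r, IsClass F₀ K₀ D ρ c → IsClass F K D ρ (res c)
  inj : ∀ c : GalS F F₀ → VV r, IsClass F₀ K₀ D ρ c → IsTors ρ (res c) → IsTors ρ c
  surj : ∀ c : GalS F F → VV r, IsClass F K D ρ c →
    ∃ c₀ : GalS F F₀ → VV r, IsClass F₀ K₀ D ρ c₀ ∧ IsCob ρ (fun σ => n • c σ - res c₀ σ)

/-- If the classes over `k(s)` have multiples in `A₀`, those over `k(t)` have multiples in each `A` which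
contains the restrictions of the elements of `A₀`. -/
def Transfers (F₀ K : Type) [Field F₀] [Algebra K₀ F₀] [Algebra F₀ F]
    [IsScalarTower K₀ F₀ F] [Field K] [Algebra K₀ K] [Algebra K F] [IsScalarTower K₀ K F]
    {k : Type} [Field k] [Algebra k[X] K₀] (D : k[X]) (ρ : RepS F K₀ r) : Prop :=
  ∀ (A₀ : Set (GalS F F₀ → VV r)) (A : Set (GalS F F → VV r)), (∀ a ∈ A₀, res a ∈ A) →
    ClassesFrom F₀ K₀ D ρ A₀ → ClassesFrom F K D ρ A

end defs

/-- For all the representations `ρ` of the Galois group of `k(s)` as in `IsRep`, the restriction of classes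
for the covering `s = q(t)` is an isomorphism up to torsion. Here `K₀ = k(s)`, `F₀ = k'(s)`, `K = k(t)`,
`F = k'(t)`, and `k'` is a separable closure of `k`. -/
def NoNewClasses {k : Type} [Field k] (q D : k[X]) : Prop :=
  ∀ (k' K₀ F₀ K F : Type) [Field k'] [Algebra k k'] [Field K₀] [Algebra k[X] K₀]
    [Field F₀] [Algebra k'[X] F₀] [Algebra K₀ F₀] [Field K] [Algebra k[X] K] [Field F]
    [Algebra k'[X] F] [Algebra K F] [Algebra K₀ K] [Algebra F₀ F] [Algebra K₀ F]
    [IsScalarTower K₀ F₀ F] [IsScalarTower K₀ K F], IsCover k k' K₀ F₀ K F q →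
    ∀ (r : ℕ) (ρ : RepS F K₀ r), IsRep F₀ D ρ →
      RestrictionIso F₀ K q.natDegree D ρ ∧ Transfers F₀ K D ρ

section eq

variable {r : ℕ} {K₀ F E L F₀ k : Type} [Field K₀] [Field F] [Algebra K₀ F] [Field k]
  [Algebra k[X] K₀] {D : k[X]} {ρ : RepS F K₀ r}

theorem isRep_iff [Field F₀] [Algebra K₀ F₀] [Algebra F₀ F] [IsScalarTower K₀ F₀ F]
    (h : IsRep F₀ D ρ) : TF.IsRep F₀ D ρ := ⟨h.cont, h.tri, h.unr⟩

theorem isClass_iff [Field E] [Algebra K₀ E] [Algebra E F] [IsScalarTower K₀ E F]
    [Field L] [Algebra K₀ L] [Algebra L F] [IsScalarTower K₀ L F] {c : GalS F E → VV r} :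
    IsClass E L D ρ c ↔ TF.IsClass E L D ρ c :=
  ⟨fun h => ⟨h.cont, h.mul, h.unr, h.inv⟩, fun h => ⟨h.cont, h.mul, h.unr, h.inv⟩⟩

end eq

theorem noNew {k : Type} [Field k] {q D : k[X]} (h2 : (2 : k) ≠ 0) (hq : derivative q ≠ 0)
    (hodd : Odd q.natDegree) (hD : D ≠ 0) (hO : OnePt D q) : NoNewClasses q D := by
  intro k' K₀ F₀ K F _ _ _ _ _ _ _ _ _ _ _ _ _ _ _ _ _ hC r ρ hρ
  obtain ⟨h3, h4, h5⟩ := full hC h2 hq hodd hD hO (isRep_iff hρ)
  have hsurj : ∀ c : GalS F F → VV r, IsClass F K D ρ c → ∃ c₀ : GalS F F₀ → VV r,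
      IsClass F₀ K₀ D ρ c₀ ∧ IsCob ρ (fun σ => q.natDegree • c σ - res c₀ σ) := by
    intro c hc
    obtain ⟨c₀, v, h6, h7⟩ := h5 c (isClass_iff.1 hc)
    exact ⟨c₀, isClass_iff.2 h6, v, fun σ => by
      show q.natDegree • c σ - c₀ (σ.restrictScalars F₀) = _
      rw [h7, add_sub_cancel_left]
      rfl⟩
  refine ⟨⟨fun c hc => isClass_iff.2 (h3 c (isClass_iff.1 hc)), ?_, hsurj⟩, ?_⟩
  · rintro c hc ⟨N, hN, v, hv⟩
    obtain ⟨N', v', hN', hv'⟩ := h4 c (isClass_iff.1 hc) N v hN hv
    exact ⟨N', hN', v', hv'⟩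
  · intro A₀ A hA h c hc
    obtain ⟨c₀, h6, v, h7⟩ := hsurj c hc
    obtain ⟨N, hN, a, ha, v', h8⟩ := h c₀ h6
    refine ⟨N * q.natDegree, mul_ne_zero hN hodd.pos.ne', res a, hA a ha, v' + N • v,
      fun σ => ?_⟩
    have h9 : N • c₀ (σ.restrictScalars F₀) - a (σ.restrictScalars F₀) =
        (ρ (σ.restrictScalars K₀)).1.mulVec v' - v' := h8 (σ.restrictScalars F₀)
    have h10 : q.natDegree • c σ - c₀ (σ.restrictScalars F₀) =
        (ρ (σ.restrictScalars K₀)).1.mulVec v - v := h7 σ
    show (N * q.natDegree) • c σ - a (σ.restrictScalars F₀) =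
      (ρ (σ.restrictScalars K₀)).1.mulVec (v' + N • v) - (v' + N • v)
    rw [Matrix.mulVec_add, Matrix.mulVec_smul, mul_smul]
    have h11 : q.natDegree • c σ = c₀ (σ.restrictScalars F₀) +
        ((ρ (σ.restrictScalars K₀)).1.mulVec v - v) := by rw [← h10]; abel
    have h12 : N • c₀ (σ.restrictScalars F₀) = a (σ.restrictScalars F₀) +
        ((ρ (σ.restrictScalars K₀)).1.mulVec v' - v') := by rw [← h9]; abel
    rw [h11, smul_add, h12, smul_sub]
    abel

end Pool.Agent.N181.TF.St
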