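import Pool.Agent.N181.TF.Main

/-!
Restriction of classes in coverings of the line.
-/

set_option autoImplicit false
set_option linter.all false

open Polynomial IsDedekindDomain Filter Topology
open scoped Classical

namespace Pool.Agent.N181.TF

open Pool.Agent.TH115.GD (Sep IsTower Preserves preserves sepKΩ exists_conj restr lift)

section generic

variable {G V : Type} [Group G] [AddCommGroup V] {R : G →* AddMonoid.End V} {H : Subgroup G}
  [Fintype (G ⧸ H)]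

theorem outer {c : G → V} (hc : Coc R H c) (α : G ≃* G) (ha : ∀ g, g ∈ H ↔ α g ∈ H)
    (β : V →+ V) (hb : ∀ g v, β (R g v) = R (α g) (β v)) {m : ℕ} {v : V}
    (hm : ∀ h ∈ H, 2 ^ m • (cj α β c h - c h) = cob R v h) (g : G) :
    ∃ w : V, ∀ σ σ' : G, σ' = g⁻¹ * α.symm σ * g →
      2 ^ m • (β (R g (tr R H c σ')) - tr R H c σ) = cob R w σ := by
  set T := tr R H c with hT
  have hTm : ∀ a b, T (a * b) = T a + R a (T b) := tr_mul hc
  -- the inner part
  have hin : ∀ s : G, R g (T (g⁻¹ * s * g)) = T s + cob R (T g) s := by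
    intro s
    have h1 := hTm g (g⁻¹ * s * g)
    rw [show g * (g⁻¹ * s * g) = s * g by group, hTm s g] at h1
    unfold cob
    rw [← sub_eq_iff_eq_add'.2 h1]
    abel
  -- the outer part
  set E₁ := ∑ x : G ⧸ H, (cj α β (ext R H c) x.out - ext R H (cj α β c) x.out) with hE₁
  have h1 : ∀ s, cj α β T s = tr R H (cj α β c) s - cob R E₁ s := by
    intro s
    rw [tr_cj hc α ha β hb s]
    abel
  have h2 : ∀ s, 2 ^ m • (tr R H (cj α β c) s - T s) = Fintype.card (G ⧸ H) • cob R v s +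
      cob R (∑ x : G ⧸ H, (cob R v x.out - ext R H (cob R v) x.out)) s := by
    intro s
    rw [← tr_res (cob_mul v) s, hT, ← tr_sub, ← tr_nsmul]
    exact tr_congr hm s
  refine ⟨Fintype.card (G ⧸ H) • v +
    (∑ x : G ⧸ H, (cob R v x.out - ext R H (cob R v) x.out)) -
      2 ^ m • E₁ + 2 ^ m • β (T g), fun σ σ' h3 => ?_⟩
  rw [h3, hin, map_add]
  have h6 : β (cob R (T g) (α.symm σ)) = cob R (β (T g)) σ := cj_cob α β hb (T g) σ
  have h7 : β (T (α.symm σ)) = cj α β T σ := rfl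
  rw [h6, h7, h1, cob_add, cob_sub, cob_add, cob_nsmul, cob_nsmul, cob_nsmul, ← h2]
  simp only [smul_sub, smul_add]
  abel

/-- A class whose restriction is torsion is torsion. -/
theorem inj_of {c : G → V} (hc : ∀ g h, c (g * h) = c g + R g (c h)) {N : ℕ} {v : V}
    (h : ∀ g ∈ H, N • c g = cob R v g) :
    ∃ w : V, ∀ g, (Fintype.card (G ⧸ H) * N) • c g = cob R w g := by
  have h0 : ∀ a b, N • c (a * b) = N • c a + R a (N • c b) := by
    intro a b
    rw [hc, smul_add, map_nsmul]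
  have h1 : ∀ g, tr R H (fun g => N • c g) g = tr R H (cob R v) g := fun g => tr_congr h g
  refine ⟨Fintype.card (G ⧸ H) • v +
    (∑ x : G ⧸ H, (cob R v x.out - ext R H (cob R v) x.out)) -
      (∑ x : G ⧸ H, (N • c x.out - ext R H (fun g => N • c g) x.out)), fun g => ?_⟩
  have h2 := h1 g
  rw [tr_res h0, tr_res (cob_mul v)] at h2
  rw [cob_sub, cob_add, cob_nsmul, mul_smul, ← h2]
  abel

end generic

section thm

variable {r : ℕ} {k k' K₀ F₀ K F : Type} [Field k] [Field k'] [Algebra k k'] [Field K₀]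
    [Algebra k[X] K₀] [Field F₀] [Algebra k'[X] F₀] [Algebra K₀ F₀] [Field K] [Algebra k[X] K]
    [Field F] [Algebra k'[X] F] [Algebra K F] [Algebra K₀ K] [Algebra F₀ F] [Algebra K₀ F]
    [IsScalarTower K₀ F₀ F] [IsScalarTower K₀ K F] {q : k[X]} {D : k[X]}
    {ρ : (Sep F ≃ₐ[K₀] Sep F) →* Matrix.GeneralLinearGroup (Fin r) ℤ_[2]}

theorem open_of (hI₀ : Algebra.IsIntegral F₀ (Sep F)) (hfin : FiniteDimensional F₀ F) :
    ∀ᶠ g in 𝓝 (1 : Sep F ≃ₐ[F₀] Sep F), g ∈ HH F₀ F := by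
  haveI := hI₀
  haveI := hfin
  let b := Module.finBasis F₀ F
  have h1 : ∀ᶠ σ : Sep F ≃ₐ[F₀] Sep F in 𝓝 1, ∀ i,
      σ (algebraMap F (Sep F) (b i)) = algebraMap F (Sep F) (b i) := by
    rw [eventually_all]
    intro i
    have h2 := stabilizer_isOpen_of_isIntegral (K := F₀) (L := Sep F) (algebraMap F (Sep F) (b i))
    exact h2.mem_nhds (one_mem (MulAction.stabilizer (Sep F ≃ₐ[F₀] Sep F) _))
  filter_upwards [h1] with σ hσ x
  have h3 : x = ∑ i, b.repr x i • b i := (b.sum_repr x).symm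
  rw [h3, map_sum, map_sum]
  refine Finset.sum_congr rfl fun i _ => ?_
  have h4 : algebraMap F (Sep F) (b.repr x i • b i) =
      b.repr x i • algebraMap F (Sep F) (b i) := by
    rw [Algebra.smul_def, Algebra.smul_def, map_mul, ← IsScalarTower.algebraMap_apply F₀ F (Sep F)]
  rw [h4, map_smul, hσ]

theorem nc_of (hI : Algebra.IsIntegral F (Sep F)) (hI₀ : Algebra.IsIntegral F₀ (Sep F))
    {c : (Sep F ≃ₐ[F] Sep F) → VV r} (hcont : Continuous c) (h1 : c 1 = 0)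
    (hunr : ∀ σ : Sep F ≃ₐ[F] Sep F, InDec (ff k K₀ F) D (fun x => σ x) → c σ = 0) :
    Nc k K₀ F₀ F D (cG F₀ c) := by
  haveI := hI₀
  haveI := hI
  constructor
  · intro m
    have h2 := ev_div hcont.continuousAt h1 m
    obtain ⟨U, hU, hU'⟩ := Filter.eventually_iff_exists_mem.1 h2
    rw [krullTopology_mem_nhds_one_iff] at hU
    obtain ⟨E, hE, hEU⟩ := hU
    haveI := hE
    let b := Module.finBasis F E
    have h3 : ∀ᶠ σ : Sep F ≃ₐ[F₀] Sep F in 𝓝 1, ∀ i, σ (b i : Sep F) = b i := by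
      rw [eventually_all]
      intro i
      have h2 := stabilizer_isOpen_of_isIntegral (K := F₀) (L := Sep F) (b i : Sep F)
      exact h2.mem_nhds (one_mem (MulAction.stabilizer (Sep F ≃ₐ[F₀] Sep F) (b i : Sep F)))
    filter_upwards [h3] with σ hσ hH
    rw [cG_eq c hH]
    apply hU'
    apply hEU
    show toF σ hH ∈ E.fixingSubgroup
    rw [IntermediateField.mem_fixingSubgroup_iff]
    intro x hx
    have h3 : (⟨x, hx⟩ : E) = ∑ i, b.repr ⟨x, hx⟩ i • b i := (b.sum_repr _).symm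
    have h4 : x = ∑ i, b.repr ⟨x, hx⟩ i • (b i : Sep F) := by
      have := congrArg (fun y : E => (y : Sep F)) h3
      simp only [AddSubmonoidClass.coe_finset_sum] at this
      exact this
    show (toF σ hH) x = x
    rw [h4, map_sum]
    refine Finset.sum_congr rfl fun i _ => ?_
    have h5 : (toF σ hH) (b.repr ⟨x, hx⟩ i • (b i : Sep F)) =
        b.repr ⟨x, hx⟩ i • (toF σ hH) (b i : Sep F) := map_smul (toF σ hH) _ _
    rw [h5]
    congr 1
    exact hσ i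
  · intro g hg h
    rw [cG_eq c hg]
    exact hunr (toF g hg) h

theorem coc_of {c : (Sep F ≃ₐ[F] Sep F) → VV r}
    (hmul : ∀ σ τ, c (σ * τ) = c σ + (ρ (σ.restrictScalars K₀)).1.mulVec (c τ)) :
    Coc (rhoG F₀ ρ) (HH F₀ F) (cG F₀ c) := by
  intro g hg h hh
  rw [cG_eq c hg, cG_eq c hh, cG_eq c ((HH F₀ F).mul_mem hg hh)]
  exact hmul (toF g hg) (toF h hh)

theorem decomp (hC : IsCover k k' K₀ F₀ K F q) (i1 : IsSepClosure F₀ (Sep F))
    (τ : Sep F ≃ₐ[K₀] Sep F) :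
    ∃ (δ : Sep F ≃ₐ[K] Sep F) (g : Sep F ≃ₐ[F₀] Sep F), ∀ x, τ x = δ (g x) := by
  haveI := i1
  haveI := hC.fracF₀
  haveI := hC.fracF
  haveI := hC.bot.sep
  haveI := hC.bot.fracK
  haveI := hC.top.fracK
  obtain ⟨s, hs⟩ := restr (Ω := Sep F) hC.bot.map τ
  obtain ⟨δ, hδ⟩ := lift (Ω := Sep F) hC.top.map s
  have hq : (q.map (algebraMap k k')).map (s : k' →+* k') = q.map (algebraMap k k') := by
    rw [Polynomial.map_map]
    congr 1
    ext x
    exact s.commutes x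
  have h1 : ∀ p : k'[X], δ (algebraMap F₀ (Sep F) (algebraMap k'[X] F₀ p)) =
      τ (algebraMap F₀ (Sep F) (algebraMap k'[X] F₀ p)) := by
    intro p
    rw [hs, IsScalarTower.algebraMap_apply F₀ F (Sep F),
      IsScalarTower.algebraMap_apply F₀ F (Sep F), hC.mapF, hC.mapF, hδ, Polynomial.map_comp, hq]
  have h2 : ∀ x : F₀, δ (algebraMap F₀ (Sep F) x) = τ (algebraMap F₀ (Sep F) x) := by
    intro x
    obtain ⟨n, d, hd, rfl⟩ := IsFractionRing.div_surjective (A := k'[X]) x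
    rw [map_div₀, map_div₀, map_div₀, h1, h1]
  refine ⟨δ, AlgEquiv.ofRingEquiv (f := τ.toRingEquiv.trans δ.symm.toRingEquiv) (fun x => ?_),
    fun x => ?_⟩
  · show δ.symm (τ (algebraMap F₀ (Sep F) x)) = _
    rw [← h2, δ.symm_apply_apply]
  · show τ x = δ (δ.symm (τ x))
    rw [δ.apply_symm_apply]

/-- The transfer of a class is a class. -/
theorem inv_of (hC : IsCover k k' K₀ F₀ K F q) (i1 : IsSepClosure F₀ (Sep F))
    (hN : Preserves K₀ F₀ (Sep F)) (hP : Preserves K F (Sep F))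
    [Fintype ((Sep F ≃ₐ[F₀] Sep F) ⧸ HH F₀ F)] {c : (Sep F ≃ₐ[F₀] Sep F) → VV r}
    (hc : Coc (rhoG F₀ ρ) (HH F₀ F) c)
    (hinv : ∀ τ : Sep F ≃ₐ[K] Sep F, ∃ (m : ℕ) (v : VV r), ∀ h ∈ HH F₀ F,
      2 ^ m • (cj (cjG hN (τ.restrictScalars K₀)) (rhoE ρ (τ.restrictScalars K₀)) c h - c h) =
        cob (rhoG F₀ ρ) v h) (τ : Sep F ≃ₐ[K₀] Sep F) :
    ∃ (m : ℕ) (v : VV r), ∀ σ σ' : Sep F ≃ₐ[F₀] Sep F, (∀ x, τ (σ' x) = σ (τ x)) →
      2 ^ m • (rhoE ρ τ (tr (rhoG F₀ ρ) (HH F₀ F) c σ') - tr (rhoG F₀ ρ) (HH F₀ F) c σ) =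
        cob (rhoG F₀ ρ) v σ := by
  obtain ⟨δ, g, hδ⟩ := decomp hC i1 τ
  obtain ⟨m, v, hm⟩ := hinv δ
  have hconj := conj_of (ρ := ρ) hN hP
  obtain ⟨w, hw⟩ := outer hc (cjG hN (δ.restrictScalars K₀)) (hconj.hH δ)
    (rhoE ρ (δ.restrictScalars K₀)) (hconj.hρ δ) hm g
  refine ⟨m, w, fun σ σ' hσ => ?_⟩
  have h3 : σ' = g⁻¹ * (cjG hN (δ.restrictScalars K₀)).symm σ * g := by
    apply AlgEquiv.ext
    intro x
    have h4 := hσ x
    rw [hδ, hδ] at h4
    have h5 : g (σ' x) = δ.symm (σ (δ (g x))) := by rw [← h4, δ.symm_apply_apply]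
    show σ' x = g.symm (δ.symm (σ (δ (g x))))
    rw [← h5, g.symm_apply_apply]
  have h4 : τ = δ.restrictScalars K₀ * rsH K₀ F₀ F g := AlgEquiv.ext fun x => hδ x
  have h5 : ∀ z, rhoE ρ τ z = rhoE ρ (δ.restrictScalars K₀) (rhoG F₀ ρ g z) := by
    intro z
    rw [h4, rho_mul]
    rfl
  rw [h5]
  exact hw σ σ' h3

end thm

end Pool.Agent.N181.TF
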