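import Pool.Agent.N181.TF.Chx

/-!
Continuity, and the decomposition groups.
-/

set_option autoImplicit false
set_option linter.all false

open Polynomial IsDedekindDomain Filter Topology
open scoped Classical

namespace Pool.Agent.N181.TF

open Pool.Agent.TH115.GD

section div

variable {r : ℕ}

theorem norm_two : ‖(2 : ℤ_[2])‖ = 1 / 2 := by
  have := PadicInt.norm_p (p := 2)
  push_cast at this
  rw [this]
  norm_num

theorem div_of_norm {x : ℤ_[2]} {m : ℕ} (h : ‖x‖ ≤ (1 / 2 : ℝ) ^ m) : ∃ w, x = 2 ^ m * w := by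
  have h1 : ‖x‖ ≤ ((2 : ℕ) : ℝ) ^ (-m : ℤ) := by
    push_cast
    rw [zpow_neg, zpow_natCast, ← inv_pow]
    rw [one_div] at h
    exact h
  rw [PadicInt.norm_le_pow_iff_mem_span_pow, Ideal.mem_span_singleton] at h1
  obtain ⟨w, hw⟩ := h1
  exact ⟨w, by rw [hw]; push_cast; rfl⟩

theorem ev_div {X : Type} [TopologicalSpace X] {f : X → VV r} {x₀ : X} (hf : ContinuousAt f x₀)
    (h0 : f x₀ = 0) (m : ℕ) : ∀ᶠ x in 𝓝 x₀, ∃ w, f x = 2 ^ m • w := by
  have h1 : Metric.ball (0 : VV r) ((1 / 2 : ℝ) ^ m) ∈ 𝓝 (f x₀) := by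
    rw [h0]
    exact Metric.ball_mem_nhds _ (by positivity)
  filter_upwards [hf h1] with x hx
  have h2 : ∀ i, ∃ w, f x i = 2 ^ m * w := by
    intro i
    apply div_of_norm
    have h3 : ‖f x‖ < (1 / 2 : ℝ) ^ m := by
      have : f x ∈ Metric.ball (0 : VV r) ((1 / 2 : ℝ) ^ m) := hx
      rwa [Metric.mem_ball, dist_zero_right] at this
    exact ((norm_le_pi_norm (f x) i).trans h3.le)
  choose w hw using h2
  refine ⟨w, funext fun i => ?_⟩
  rw [hw, Pi.smul_apply, nsmul_eq_mul]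
  push_cast
  rfl

theorem norm_div (m : ℕ) (w : VV r) : ‖(2 : ℕ) ^ m • w‖ ≤ (1 / 2 : ℝ) ^ m := by
  rw [pi_norm_le_iff_of_nonneg (by positivity)]
  intro i
  rw [Pi.smul_apply, nsmul_eq_mul, norm_mul]
  push_cast
  rw [norm_pow, norm_two]
  calc _ ≤ (1 / 2 : ℝ) ^ m * 1 :=
        mul_le_mul_of_nonneg_left (PadicInt.norm_le_one _) (by positivity)
    _ = _ := mul_one _

theorem cont_of_div {G : Type} [Group G] [TopologicalSpace G] [IsTopologicalGroup G]
    {ρ : G →* AddMonoid.End (VV r)} {c : G → VV r} (hc : ∀ g h, c (g * h) = c g + ρ g (c h))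
    (h : ∀ m : ℕ, ∀ᶠ g in 𝓝 (1 : G), ∃ w, c g = 2 ^ m • w) : Continuous c := by
  rw [continuous_iff_continuousAt]
  intro σ
  rw [Metric.continuousAt_iff']
  intro ε hε
  obtain ⟨m, hm⟩ := exists_pow_lt_of_lt_one hε (by norm_num : (1 / 2 : ℝ) < 1)
  have h1 : Tendsto (fun g => σ⁻¹ * g) (𝓝 σ) (𝓝 1) := by
    have : ContinuousAt (fun g : G => σ⁻¹ * g) σ := (continuous_const_mul σ⁻¹).continuousAt
    have h2 := this.tendsto
    rwa [inv_mul_cancel] at h2
  filter_upwards [h1.eventually (h m)] with g hg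
  obtain ⟨w, hw⟩ := hg
  have h3 : c g - c σ = 2 ^ m • ρ σ w := by
    have h4 := hc σ (σ⁻¹ * g)
    rw [mul_inv_cancel_left, hw] at h4
    rw [h4, map_nsmul]
    abel
  rw [dist_eq_norm, h3]
  exact (norm_div m _).trans_lt hm

end div

section krull

variable {K L Ω : Type} [Field K] [Field L] [Field Ω] [Algebra K L] [Algebra L Ω] [Algebra K Ω]
  [IsScalarTower K L Ω] [Algebra.IsIntegral L Ω]

theorem tendsto_rs : Tendsto (fun σ : Ω ≃ₐ[L] Ω => σ.restrictScalars K) (𝓝 1) (𝓝 1) := by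
  intro U hU
  rw [krullTopology_mem_nhds_one_iff] at hU
  obtain ⟨E, hE, hEU⟩ := hU
  haveI := hE
  let b := Module.finBasis K E
  have h1 : ∀ᶠ σ : Ω ≃ₐ[L] Ω in 𝓝 1, ∀ i, σ (b i : Ω) = b i := by
    rw [eventually_all]
    intro i
    have h2 := stabilizer_isOpen_of_isIntegral (K := L) (L := Ω) (b i : Ω)
    exact h2.mem_nhds (one_mem (MulAction.stabilizer (Ω ≃ₐ[L] Ω) (b i : Ω)))
  refine mem_map.2 ?_
  filter_upwards [h1] with σ hσ
  apply hEU
  show σ.restrictScalars K ∈ E.fixingSubgroup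
  rw [IntermediateField.mem_fixingSubgroup_iff]
  intro x hx
  have h3 : (⟨x, hx⟩ : E) = ∑ i, b.repr ⟨x, hx⟩ i • b i := (b.sum_repr _).symm
  have h4 : x = ∑ i, b.repr ⟨x, hx⟩ i • (b i : Ω) := by
    have := congrArg (fun y : E => (y : Ω)) h3
    simp only [AddSubmonoidClass.coe_finset_sum] at this
    exact this
  show σ x = x
  rw [h4, map_sum]
  refine Finset.sum_congr rfl fun i _ => ?_
  have h5 : σ (b.repr ⟨x, hx⟩ i • (b i : Ω)) = b.repr ⟨x, hx⟩ i • σ (b i : Ω) :=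
    map_smul (σ.restrictScalars K) _ _
  rw [h5, hσ]

theorem rs_mul (σ τ : Ω ≃ₐ[L] Ω) :
    (σ * τ).restrictScalars K = σ.restrictScalars K * τ.restrictScalars K := rfl

end krull

section dec

variable {A Ω : Type} [CommRing A] [Field Ω] {f : A →+* Ω} {D : A}

theorem BB_map {σ : Ω →+* Ω} (hσ : ∀ p, σ (f p) = f p) {x : Ω} (hx : x ∈ BB f) : σ x ∈ BB f := by
  obtain ⟨p, hp, h⟩ := hx
  refine ⟨p, hp, ?_⟩
  have h1 := congrArg σ h
  rw [map_zero] at h1
  rw [← h1]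
  have h2 : σ.comp f = f := RingHom.ext hσ
  have h3 := Polynomial.hom_eval₂ p f σ x
  rw [h2] at h3
  exact h3.symm

theorem inDec_pow {σ : Ω →+* Ω} (hσ : ∀ p, σ (f p) = f p) (h : InDec f D σ) (n : ℕ) :
    InDec f D (fun x => (σ ^ n) x) := by
  obtain ⟨Q, h1, h2, h3, h4⟩ := h
  refine ⟨Q, h1, h2, h3, ?_⟩
  induction n with
  | zero =>
    intro x y hxy
    have : y = x := Subtype.ext (by rw [hxy]; rfl)
    rw [this]
  | succ n ih =>
    intro x y hxy
    have h5 : σ (x : Ω) ∈ BB f := BB_map hσ x.2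
    rw [h4 x ⟨_, h5⟩ rfl]
    refine ih ⟨_, h5⟩ y ?_
    rw [hxy, pow_succ]
    rfl

theorem inDec_conj {σ g g' : Ω →+* Ω} (hg : ∀ p, g (f p) = f p) (hg' : ∀ p, g' (f p) = f p)
    (hgg : ∀ x, g (g' x) = x) (hgg' : ∀ x, g' (g x) = x) (hσ : ∀ p, σ (f p) = f p)
    (h : InDec f D σ) : InDec f D (fun x => g' (σ (g x))) := by
  obtain ⟨Q, h1, h2, h3, h4⟩ := h
  haveI := h1
  let φ : BB f →+* BB f :=
    { toFun := fun x => ⟨g x, BB_map hg x.2⟩
      map_one' := Subtype.ext (map_one g)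
      map_mul' := fun x y => Subtype.ext (map_mul g _ _)
      map_zero' := Subtype.ext (map_zero g)
      map_add' := fun x y => Subtype.ext (map_add g _ _) }
  refine ⟨Q.comap φ, Ideal.comap_isPrime φ Q, ?_, ?_, ?_⟩
  · intro h5
    apply h2
    rw [eq_bot_iff]
    intro x hx
    have h6 : (⟨g' x, BB_map hg' x.2⟩ : BB f) ∈ Q.comap φ := by
      show φ _ ∈ Q
      have : φ ⟨g' x, BB_map hg' x.2⟩ = x := Subtype.ext (hgg x)
      rw [this]
      exact hx
    rw [h5, Ideal.mem_bot] at h6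
    have h7 : g' (x : Ω) = 0 := congrArg Subtype.val h6
    rw [Ideal.mem_bot]
    exact Subtype.ext (by
      have := congrArg g h7
      rw [hgg, map_zero] at this
      exact this)
  · intro h5 h6
    apply h3 h5
    have : φ ⟨f D, h5⟩ = ⟨f D, h5⟩ := Subtype.ext (hg D)
    have h7 : φ ⟨f D, h5⟩ ∈ Q := h6
    rwa [this] at h7
  · intro x y hxy
    show φ x ∈ Q ↔ φ y ∈ Q
    apply h4
    show g (y : Ω) = σ (g x)
    rw [hxy, hgg]

end dec

end Pool.Agent.N181.TF
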