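import Mathlib

/-!
Transfer of cocycles from a subgroup of odd index.
-/

set_option autoImplicit false
set_option linter.all false

open scoped Classical

namespace Pool.Agent.N181.TF

variable {G V : Type} [Group G] [AddCommGroup V] (ρ : G →* AddMonoid.End V) (H : Subgroup G)

/-- `c` is a cocycle on `H`. -/
def Coc (c : G → V) : Prop := ∀ g ∈ H, ∀ h ∈ H, c (g * h) = c g + ρ g (c h)

/-- `b` extends the cocycle `c` of `H`. -/
def Ext (c b : G → V) : Prop := ∀ g, ∀ h ∈ H, b (g * h) = b g + ρ g (c h)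

/-- The coboundary of `v`. -/
def cob (v : V) : G → V := fun g => ρ g v - v

/-- The standard extension. -/
noncomputable def ext (c : G → V) (g : G) : V :=
  ρ ((QuotientGroup.mk g : G ⧸ H).out) (c (((QuotientGroup.mk g : G ⧸ H).out)⁻¹ * g))

variable {ρ H}

theorem rho_mul (g h : G) (v : V) : ρ (g * h) v = ρ g (ρ h v) := by
  rw [map_mul]; rfl

theorem rho_one (v : V) : ρ 1 v = v := by
  rw [map_one]; rfl

theorem out_mem (g : G) : ((QuotientGroup.mk g : G ⧸ H).out)⁻¹ * g ∈ H :=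
  QuotientGroup.eq.1 (QuotientGroup.out_eq' _)

theorem ext_ext {c : G → V} (hc : Coc ρ H c) : Ext ρ H c (ext ρ H c) := by
  intro g h hh
  have e : (QuotientGroup.mk (g * h) : G ⧸ H) = QuotientGroup.mk g :=
    QuotientGroup.mk_mul_of_mem g hh
  unfold ext
  rw [e, ← mul_assoc, hc _ (out_mem g) _ hh, map_add, ← rho_mul, mul_inv_cancel_left]

variable [Fintype (G ⧸ H)]

variable (ρ H) in
/-- The transfer computed with an extension. -/
noncomputable def trB (b : G → V) (σ : G) : V :=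
  ∑ x : G ⧸ H, (b (σ * x.out) - ρ σ (b x.out))

theorem inv_sum (σ : G) (e : G → V) (he : ∀ g, ∀ h ∈ H, e (g * h) = e g) :
    ∑ x : G ⧸ H, e (σ * x.out) = ∑ x : G ⧸ H, e x.out := by
  refine Fintype.sum_equiv (MulAction.toPerm σ) _ _ fun x => ?_
  show e (σ * x.out) = e ((σ • x).out)
  have h1 : σ • x = QuotientGroup.mk (σ * x.out) := by
    conv_lhs => rw [← QuotientGroup.out_eq' x]
    rfl
  have h2 : ((σ • x).out)⁻¹ * (σ * x.out) ∈ H := by rw [h1]; exact out_mem _
  have h3 := he (σ • x).out _ h2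
  rw [mul_inv_cancel_left] at h3
  exact h3

theorem inv_sum' {W : Type} [AddCommGroup W] (σ : G) (e : G → W)
    (he : ∀ g, ∀ h ∈ H, e (g * h) = e g) :
    ∑ x : G ⧸ H, e (σ * x.out) = ∑ x : G ⧸ H, e x.out := by
  refine Fintype.sum_equiv (MulAction.toPerm σ) _ _ fun x => ?_
  show e (σ * x.out) = e ((σ • x).out)
  have h1 : σ • x = QuotientGroup.mk (σ * x.out) := by
    conv_lhs => rw [← QuotientGroup.out_eq' x]
    rfl
  have h2 : ((σ • x).out)⁻¹ * (σ * x.out) ∈ H := by rw [h1]; exact out_mem _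
  have h3 := he (σ • x).out _ h2
  rw [mul_inv_cancel_left] at h3
  exact h3

theorem D_inv {c b : G → V} (hb : Ext ρ H c b) (σ : G) :
    ∀ g, ∀ h ∈ H, b (σ * (g * h)) - ρ σ (b (g * h)) = b (σ * g) - ρ σ (b g) := by
  intro g h hh
  rw [← mul_assoc, hb _ h hh, hb _ h hh, map_add, rho_mul]
  abel

theorem trB_mul {c b : G → V} (hb : Ext ρ H c b) (σ τ : G) :
    trB ρ H b (σ * τ) = trB ρ H b σ + ρ σ (trB ρ H b τ) := by
  have h1 := inv_sum (V := V) (H := H) τ (fun g => b (σ * g) - ρ σ (b g)) (D_inv hb σ)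
  unfold trB
  rw [← h1, map_sum, ← Finset.sum_add_distrib]
  refine Finset.sum_congr rfl fun x _ => ?_
  rw [map_sub, rho_mul, mul_assoc]
  abel

/-- The dependence on the extension. -/
theorem trB_congr {c b b' : G → V} (hb : Ext ρ H c b) (hb' : Ext ρ H c b') (σ : G) :
    trB ρ H b' σ = trB ρ H b σ - cob ρ (∑ x : G ⧸ H, (b' x.out - b x.out)) σ := by
  have h1 := inv_sum (V := V) (H := H) σ (fun g => b' g - b g) (fun g h hh => by
    rw [hb _ h hh, hb' _ h hh]; abel)
  unfold trB cob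
  rw [← h1, h1, map_sum]
  have h2 : ∑ x : G ⧸ H, (b' x.out - b x.out) = ∑ x : G ⧸ H, (b' (σ * x.out) - b (σ * x.out)) := by
    rw [h1]
  rw [h2, ← Finset.sum_sub_distrib, ← Finset.sum_sub_distrib]
  refine Finset.sum_congr rfl fun x _ => ?_
  rw [map_sub]
  abel

theorem trB_res {y : G → V} (hy : ∀ g h, y (g * h) = y g + ρ g (y h)) (σ : G) :
    trB ρ H y σ = Fintype.card (G ⧸ H) • y σ := by
  unfold trB
  rw [← Finset.card_univ, ← Finset.sum_const]
  refine Finset.sum_congr rfl fun x _ => ?_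
  rw [hy]
  abel

theorem cob_mul (v : V) (g h : G) : cob ρ v (g * h) = cob ρ v g + ρ g (cob ρ v h) := by
  unfold cob
  rw [map_sub, rho_mul]
  abel

variable (ρ H) in
/-- The transfer. -/
noncomputable def tr (c : G → V) : G → V := trB ρ H (ext ρ H c)

theorem tr_mul {c : G → V} (hc : Coc ρ H c) (σ τ : G) :
    tr ρ H c (σ * τ) = tr ρ H c σ + ρ σ (tr ρ H c τ) := trB_mul (ext_ext hc) σ τ

theorem ext_add (c c' : G → V) (g : G) :
    ext ρ H (fun g => c g + c' g) g = ext ρ H c g + ext ρ H c' g := by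
  unfold ext; rw [map_add]

theorem ext_sub (c c' : G → V) (g : G) :
    ext ρ H (fun g => c g - c' g) g = ext ρ H c g - ext ρ H c' g := by
  unfold ext; rw [map_sub]

theorem ext_nsmul (m : ℕ) (c : G → V) (g : G) :
    ext ρ H (fun g => m • c g) g = m • ext ρ H c g := by
  unfold ext; rw [map_nsmul]

theorem tr_sub (c c' : G → V) (σ : G) :
    tr ρ H (fun g => c g - c' g) σ = tr ρ H c σ - tr ρ H c' σ := by
  unfold tr trB
  rw [← Finset.sum_sub_distrib]
  refine Finset.sum_congr rfl fun x _ => ?_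
  rw [ext_sub, ext_sub, map_sub]
  abel

theorem tr_nsmul (m : ℕ) (c : G → V) (σ : G) :
    tr ρ H (fun g => m • c g) σ = m • tr ρ H c σ := by
  unfold tr trB
  rw [Finset.smul_sum]
  refine Finset.sum_congr rfl fun x _ => ?_
  rw [ext_nsmul, ext_nsmul, map_nsmul, smul_sub]

theorem ext_congr {c c' : G → V} (h : ∀ g ∈ H, c g = c' g) (g : G) :
    ext ρ H c g = ext ρ H c' g := by
  unfold ext; rw [h _ (out_mem g)]

theorem tr_congr {c c' : G → V} (h : ∀ g ∈ H, c g = c' g) (σ : G) :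
    tr ρ H c σ = tr ρ H c' σ := by
  unfold tr trB
  refine Finset.sum_congr rfl fun x _ => ?_
  rw [ext_congr h, ext_congr h]

/-- The transfer of the restriction of a cocycle. -/
theorem tr_res {y : G → V} (hy : ∀ g h, y (g * h) = y g + ρ g (y h)) (σ : G) :
    tr ρ H y σ = Fintype.card (G ⧸ H) • y σ +
      cob ρ (∑ x : G ⧸ H, (y x.out - ext ρ H y x.out)) σ := by
  have h1 : Coc ρ H y := fun g _ h _ => hy g h
  have h2 := trB_congr (ext_ext h1) (b' := y) (fun g h _ => hy g h) σ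
  rw [trB_res hy] at h2
  rw [h2]
  unfold tr
  abel

/-- Elements of a stable subgroup. -/
theorem ext_mem {U : AddSubgroup V} (hU : ∀ g, ∀ u ∈ U, ρ g u ∈ U) {c : G → V}
    (hc : ∀ h ∈ H, c h ∈ U) (g : G) : ext ρ H c g ∈ U := hU _ _ (hc _ (out_mem g))

/-- Conjugation. -/
theorem trB_conj {c b : G → V} (hb : Ext ρ H c b) (α : G ≃* G) (hα : ∀ g, g ∈ H ↔ α g ∈ H)
    (β : V →+ V) (hβ : ∀ g v, β (ρ g v) = ρ (α g) (β v)) (σ : G) :
    trB ρ H (fun g => β (b (α.symm g))) σ = β (trB ρ H b (α.symm σ)) := by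
  have h1 : ∀ g h : G, (QuotientGroup.mk g : G ⧸ H) = QuotientGroup.mk h →
      (QuotientGroup.mk (α.symm g) : G ⧸ H) = QuotientGroup.mk (α.symm h) := by
    intro g h e
    rw [QuotientGroup.eq] at e ⊢
    rw [hα, map_mul, map_inv, α.apply_symm_apply, α.apply_symm_apply]
    exact e
  have h1' : ∀ g h : G, (QuotientGroup.mk g : G ⧸ H) = QuotientGroup.mk h →
      (QuotientGroup.mk (α g) : G ⧸ H) = QuotientGroup.mk (α h) := by
    intro g h e
    rw [QuotientGroup.eq] at e ⊢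
    rw [← map_inv, ← map_mul, ← hα]
    exact e
  let e : (G ⧸ H) ≃ (G ⧸ H) :=
    { toFun := fun x => QuotientGroup.mk (α.symm x.out)
      invFun := fun x => QuotientGroup.mk (α x.out)
      left_inv := by
        intro x
        have := h1' _ _ (QuotientGroup.out_eq' (QuotientGroup.mk (α.symm x.out) : G ⧸ H))
        refine this.trans ?_
        rw [α.apply_symm_apply, QuotientGroup.out_eq']
      right_inv := by
        intro x
        have := h1 _ _ (QuotientGroup.out_eq' (QuotientGroup.mk (α x.out) : G ⧸ H))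
        refine this.trans ?_
        rw [α.symm_apply_apply, QuotientGroup.out_eq'] }
  unfold trB
  rw [map_sum]
  refine Fintype.sum_equiv e _ _ fun x => ?_
  have h2 : ((e x).out)⁻¹ * α.symm x.out ∈ H := out_mem (α.symm x.out)
  have h3 := D_inv hb (α.symm σ) (e x).out _ h2
  rw [mul_inv_cancel_left] at h3
  show β (b (α.symm (σ * x.out))) - ρ σ (β (b (α.symm x.out))) = _
  rw [← h3, map_sub, hβ, α.apply_symm_apply, map_mul]

/-- The conjugate of a cochain. -/
def cj (α : G ≃* G) (β : V →+ V) (c : G → V) : G → V := fun g => β (c (α.symm g))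

theorem cj_coc {c : G → V} (hc : Coc ρ H c) (α : G ≃* G) (hα : ∀ g, g ∈ H ↔ α g ∈ H)
    (β : V →+ V) (hβ : ∀ g v, β (ρ g v) = ρ (α g) (β v)) : Coc ρ H (cj α β c) := by
  have h1 : ∀ g ∈ H, α.symm g ∈ H := fun g hg => by
    rw [hα, α.apply_symm_apply]; exact hg
  intro g hg h hh
  unfold cj
  rw [map_mul, hc _ (h1 g hg) _ (h1 h hh), map_add, hβ, α.apply_symm_apply]

theorem cj_ext {c b : G → V} (hb : Ext ρ H c b) (α : G ≃* G) (hα : ∀ g, g ∈ H ↔ α g ∈ H)
    (β : V →+ V) (hβ : ∀ g v, β (ρ g v) = ρ (α g) (β v)) :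
    Ext ρ H (cj α β c) (cj α β b) := by
  have h1 : ∀ g ∈ H, α.symm g ∈ H := fun g hg => by
    rw [hα, α.apply_symm_apply]; exact hg
  intro g h hh
  unfold cj
  rw [map_mul, hb _ _ (h1 h hh), map_add, hβ, α.apply_symm_apply]

theorem tr_cj {c : G → V} (hc : Coc ρ H c) (α : G ≃* G) (hα : ∀ g, g ∈ H ↔ α g ∈ H)
    (β : V →+ V) (hβ : ∀ g v, β (ρ g v) = ρ (α g) (β v)) (σ : G) :
    tr ρ H (cj α β c) σ = cj α β (tr ρ H c) σ + cob ρ (∑ x : G ⧸ H,
      (cj α β (ext ρ H c) x.out - ext ρ H (cj α β c) x.out)) σ := by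
  have h1 := trB_congr (ext_ext (cj_coc hc α hα β hβ)) (cj_ext (ext_ext hc) α hα β hβ) σ
  have h2 := trB_conj (ext_ext hc) α hα β hβ σ
  have h3 : cj α β (tr ρ H c) σ = trB ρ H (cj α β (ext ρ H c)) σ := h2.symm
  rw [h3, h1]
  unfold tr
  abel

theorem cj_cob (α : G ≃* G) (β : V →+ V) (hβ : ∀ g v, β (ρ g v) = ρ (α g) (β v)) (v : V) (g : G) :
    cj α β (cob ρ v) g = cob ρ (β v) g := by
  unfold cj cob
  rw [map_sub, hβ, α.apply_symm_apply]

/-- A homomorphism to a group of order two which is trivial on a subgroup of odd index is trivial. -/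
theorem hom_trivial (hodd : Odd (Fintype.card (G ⧸ H))) {χ : G → ZMod 2}
    (hχ : ∀ g h, χ (g * h) = χ g + χ h) (h0 : ∀ h ∈ H, χ h = 0) (g : G) : χ g = 0 := by
  have h1 := inv_sum' (H := H) g χ (fun g' h hh => by rw [hχ, h0 h hh, add_zero])
  have h2 : ∑ x : G ⧸ H, χ (g * x.out) = Fintype.card (G ⧸ H) • χ g + ∑ x : G ⧸ H, χ x.out := by
    rw [← Finset.card_univ, ← Finset.sum_const, ← Finset.sum_add_distrib]
    exact Finset.sum_congr rfl fun x _ => hχ _ _
  rw [h2] at h1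
  have h3 : Fintype.card (G ⧸ H) • χ g = 0 := by simpa using h1
  obtain ⟨m, hm⟩ := hodd
  rw [hm, add_smul, one_smul, mul_comm, mul_smul] at h3
  have h4 : (2 : ℕ) • χ g = 0 := by
    rw [two_nsmul]
    have : ∀ z : ZMod 2, z + z = 0 := by decide
    exact this _
  rw [h4, smul_zero, zero_add] at h3
  exact h3

end Pool.Agent.N181.TF
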